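import Pool.Agent.P.MP_a07190_gt.Gr.Iface

section

/-! The maximum principle at an interior point, and the absence of closed components. -/

open scoped Manifold ContDiff RealInnerProductSpace Topology
open Set MeasureTheory Filter Metric

namespace Pool.Agent.P.MP_a07190_gt.Gr

open Wk

namespace MaxpA

theorem second {g g1 : ℝ → ℝ} {c : ℝ} (h1 : ∀ᶠ t in 𝓝 (0 : ℝ), HasDerivAt g (g1 t) t)
    (h2 : HasDerivAt g1 c 0) (hm : IsLocalMax g 0) : c ≤ 0 := by
  by_contra hc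
  have e : deriv g =ᶠ[𝓝 0] g1 := h1.mono fun t ht => ht.deriv
  have e2 : deriv (deriv g) 0 = c := by rw [e.deriv_eq, h2.deriv]
  have hn := isLocalMin_of_deriv_deriv_pos (by rw [e2]; exact not_le.1 hc) hm.deriv_eq_zero
    h1.self_of_nhds.continuousAt
  have e3 : g =ᶠ[𝓝 0] fun _ => g 0 := by
    filter_upwards [hm, hn] with t a b using le_antisymm a b
  rw [e3.deriv.deriv_eq] at e2
  simp at e2
  exact hc e2.ge

theorem calc2 {F n : E2 → E3} {D : E2 → E2 →L[ℝ] E3} {D' : E2 →L[ℝ] E2 →L[ℝ] E3}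
    {Dn : E2 →L[ℝ] E3} {y : E2} {φ : E3 → ℝ} {G : E3 → E3} {G' : E3 →L[ℝ] E3}
    (hF : ∀ᶠ z in 𝓝 y, HasFDerivAt F (D z) z) (hD : HasFDerivAt D D' y)
    (hn : HasFDerivAt n Dn y) (hp : ∀ᶠ z in 𝓝 y, ∀ v, ⟪n z, D z v⟫ = 0)
    (hφ : ∀ᶠ p in 𝓝 (F y), HasFDerivAt φ (innerSL ℝ (G p)) p) (hG : HasFDerivAt G G' (F y))
    (hm : IsLocalMax (fun z => φ (F z)) y) (u : E2) :
    ⟪G (F y), D y u⟫ = 0 ∧ ⟪G (F y), D' u u⟫ + ⟪G' (D y u), D y u⟫ ≤ 0 ∧
      ⟪n y, D' u u⟫ + ⟪Dn u, D y u⟫ = 0 := by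
  have hy := hF.self_of_nhds
  have c1 : ∀ t : ℝ, HasDerivAt (fun t : ℝ => y + t • u) u t := fun t => by
    simpa using ((hasDerivAt_id t).smul_const u).const_add y
  have c0 : y = y + (0 : ℝ) • u := by simp
  have ct : Tendsto (fun t : ℝ => y + t • u) (𝓝 0) (𝓝 y) := by
    simpa using (c1 0).continuousAt.tendsto
  have d1 : HasDerivAt (fun t : ℝ => D (y + t • u) u) (D' u u) 0 := by
    simpa using (hD.comp_hasDerivAt_of_eq 0 (c1 0) c0).clm_apply (hasDerivAt_const 0 u)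
  refine ⟨?_, ?_, ?_⟩
  · have := hm.hasFDerivAt_eq_zero (hφ.self_of_nhds.comp y hy)
    simpa using congrArg (fun A : E2 →L[ℝ] ℝ => A u) this
  · have d2 := (hG.comp y hy).comp_hasDerivAt_of_eq 0 (c1 0) c0
    have d3 := d2.inner ℝ d1
    simp only [Function.comp_apply, zero_smul, add_zero, ContinuousLinearMap.comp_apply] at d3
    refine second (g := fun t : ℝ => φ (F (y + t • u))) ?_ d3 ?_
    · filter_upwards [ct.eventually hF, ct.eventually (hy.continuousAt.tendsto.eventually hφ)]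
        with t a b
      exact (b.comp _ a).comp_hasDerivAt t (c1 t)
    · have := ct.eventually hm
      simpa [IsLocalMax, IsMaxFilter] using this
  · have d3 := (hn.comp_hasDerivAt_of_eq 0 (c1 0) c0).inner ℝ d1
    simp only [Function.comp_apply, zero_smul, add_zero] at d3
    exact d3.unique ((hasDerivAt_const (0 : ℝ) (0 : ℝ)).congr_of_eventuallyEq
      ((ct.eventually hp).mono fun t a => a u))

theorem frame {a b n : E3} (ha : ⟪a, a⟫ = 1) (hb : ⟪b, b⟫ = 1) (hn : ⟪n, n⟫ = 1)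
    (h1 : ⟪a, b⟫ = 0) (h2 : ⟪n, a⟫ = 0) (h3 : ⟪n, b⟫ = 0) (g : E3) (G' : E3 →L[ℝ] E3) :
    g = ⟪a, g⟫ • a + ⟪b, g⟫ • b + ⟪n, g⟫ • n ∧ G' (e3 0) 0 + G' (e3 1) 1 + G' (e3 2) 2 =
      ⟪G' a, a⟫ + ⟪G' b, b⟫ + ⟪G' n, n⟫ := by
  have ho : Orthonormal ℝ ![a, b, n] := orthonormal_iff_ite.2 fun i j => by
    have h4 := (real_inner_comm _ _).trans h1
    have h5 := (real_inner_comm _ _).trans h2
    have h6 := (real_inner_comm _ _).trans h3
    fin_cases i <;> fin_cases j <;> assumption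
  let B := (basisOfOrthonormalOfCardEqFinrank ho (by simp)).toOrthonormalBasis (by simpa using ho)
  have hB : ∀ i, B i = ![a, b, n] i := fun i => by simp [B]
  constructor
  · simpa [Fin.sum_univ_three, hB] using (B.sum_repr' g).symm
  · have t1 := LinearMap.trace_eq_sum_inner (G' : E3 →ₗ[ℝ] E3) B
    have t2 := LinearMap.trace_eq_sum_inner (G' : E3 →ₗ[ℝ] E3) (EuclideanSpace.basisFun (Fin 3) ℝ)
    rw [t1] at t2
    simpa [Fin.sum_univ_three, hB, e3, real_inner_comm (G' _), EuclideanSpace.inner_single_right]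
      using t2.symm

theorem mean {L Dn : E2 →L[ℝ] E3} {H : ℝ} (hL : Function.Injective L)
    (hH : ((-⟪Dn (ev 0), L (ev 0)⟫) * ⟪L (ev 1), L (ev 1)⟫
      - (-(⟪Dn (ev 0), L (ev 1)⟫ + ⟪Dn (ev 1), L (ev 0)⟫)) * ⟪L (ev 0), L (ev 1)⟫
      + (-⟪Dn (ev 1), L (ev 1)⟫) * ⟪L (ev 0), L (ev 0)⟫) / (2 * gram L) = H) :
    ∃ u v : E2, ⟪L u, L u⟫ = 1 ∧ ⟪L v, L v⟫ = 1 ∧ ⟪L u, L v⟫ = 0 ∧
      ⟪Dn u, L u⟫ + ⟪Dn v, L v⟫ = -(2 * H) := by
  obtain ⟨B, hB, -⟩ := exists_gs hL
  have i : ∀ u v, ⟪L (B u), L (B v)⟫ = ⟪u, v⟫ := fun u v =>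
    (⟨(L.comp B : E2 →L[ℝ] E3), hB⟩ : E2 →ₗᵢ[ℝ] E3).inner_map_map u v
  have i0 : ⟪L (B (ev 0)), L (B (ev 0))⟫ = 1 := by rw [i]; simp [ev]
  have i1 : ⟪L (B (ev 1)), L (B (ev 1))⟫ = 1 := by rw [i]; simp [ev]
  have i2 : ⟪L (B (ev 0)), L (B (ev 1))⟫ = 0 := by rw [i]; simp [ev, EuclideanSpace.inner_single_left]
  refine ⟨_, _, i0, i1, i2, ?_⟩
  have g1 := gram_comp L B
  rw [div_eq_iff (mul_ne_zero two_ne_zero (gram_pos hL).ne')] at hH
  have g2 : (-⟪Dn (B (ev 0)), L (B (ev 0))⟫) * ⟪L (B (ev 1)), L (B (ev 1))⟫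
      - (-(⟪Dn (B (ev 0)), L (B (ev 1))⟫ + ⟪Dn (B (ev 1)), L (B (ev 0))⟫)) *
        ⟪L (B (ev 0)), L (B (ev 1))⟫
      + (-⟪Dn (B (ev 1)), L (B (ev 1))⟫) * ⟪L (B (ev 0)), L (B (ev 0))⟫ =
      det2 B ^ 2 * (H * (2 * gram L)) := by
    rw [← hH]
    simp only [det2, map_decomp L (B _), map_decomp Dn (B _), inner3, PiLp.add_apply,
      PiLp.smul_apply, smul_eq_mul]
    ring
  simp only [gram, ContinuousLinearMap.comp_apply, i0, i1, i2] at g1 g2
  linear_combination -g2 + 2 * H * g1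

end MaxpA

open MaxpA

theorem p_MAXP : S_MAXP := by
  intro M _ _ _ f N H h m hm φ G G' hφ hG hx
  have f1 := h.c2.of_le one_le_two
  have hy := mem_Tp (mem_extChartAt_source (I := 𝓡∂ 2) m) hm
  have hT := (isOpen_Tp m).mem_nhds hy
  have e0 : (ch m).symm (ch m m) = m := extChartAt_to_inv m
  have hF : ∀ᶠ z in 𝓝 (ch m m), HasFDerivAt (f ∘ (ch m).symm) (chartDif f m z) z :=
    mem_of_superset hT fun z hz => hasFD_Tp' f1 hz
  have eL : chartDif f m (ch m m) = dif f m := hF.self_of_nhds.unique (hasFD_int f1 hm)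
  have hD := (((contDiffOn_Tp2 h.c2 m).contDiffAt hT).fderiv_right (m := 1)
    (by norm_num)).differentiableAt one_ne_zero |>.hasFDerivAt.congr_of_eventuallyEq
      (hF.mono fun z hz => hz.fderiv.symm)
  have key := calc2 (φ := φ) (G := G) (G' := G') hF hD (hasFD_int h.normal_c1 hm)
    (mem_of_superset hT fun z hz v => h.perp_ch hz v) (by simpa only [Function.comp_apply, e0])
    (by simpa only [Function.comp_apply, e0]) (by
      have : Tendsto (ch m).symm (𝓝 (ch m m)) (𝓝 m) := by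
        have := (continuousOn_extChartAt_symm m).continuousAt (tgt_mem_nhds hy.1 hy.2)
        rwa [ContinuousAt, e0] at this
      simpa only [IsLocalMax, IsMaxFilter, Function.comp_apply, e0] using this.eventually hx)
  simp only [Function.comp_apply, e0, eL] at key
  obtain ⟨u, v, i0, i1, i2, i3⟩ := mean (Dn := dif N m) (h.immersion m hm) (h.cmc m hm)
  obtain ⟨a1, a2⟩ := frame i0 i1 (by rw [real_inner_self_eq_norm_sq, h.unit m hm, one_pow]) i2
    (h.perp m hm u) (h.perp m hm v) (G (f m)) G'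
  obtain ⟨b1, b2, b3⟩ := key u
  obtain ⟨c1, c2, c3⟩ := key v
  rw [real_inner_comm, b1, real_inner_comm (G (f m)) (dif f m v), c1, zero_smul, zero_smul,
    zero_add, zero_add] at a1
  generalize ⟪N m, G (f m)⟫ = l at a1
  refine ⟨l, a1, ?_⟩
  rw [a1, real_inner_smul_left] at b2 c2
  linear_combination a2 + b2 + c2 - l * b3 - l * c3 + l * i3

theorem p_NOC (hMAXP : S_MAXP) : S_NOC := by
  intro M _ _ _ _ f N H R h hR hH A hA hI
  by_contra hne
  have fc : Continuous f := h.c1.continuous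
  obtain ⟨m, hm, hx⟩ := hA.isClosed.isCompact.exists_isMaxOn (nonempty_iff_ne_empty.2 hne)
    (f := fun m => ‖f m‖ ^ 2) (by fun_prop)
  obtain ⟨l, h1, h2⟩ := hMAXP M f N H h m (hI hm) (fun p => ‖p‖ ^ 2) (fun p => (2 : ℝ) • p)
    ((2 : ℝ) • ContinuousLinearMap.id ℝ E3) (Eventually.of_forall fun p => by
      have e : innerSL ℝ ((2 : ℝ) • p) = 2 • innerSL ℝ p := by
        rw [map_smul, two_smul, two_smul]
      beta_reduce
      rw [e]
      exact (hasStrictFDerivAt_norm_sq p).hasFDerivAt)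
    ((hasFDerivAt_id _).const_smul (2 : ℝ)) (hx.isLocalMax (hA.isOpen.mem_nhds hm))
  have h3 := congrArg norm h1
  have u := h.unit m (hI hm)
  simp only [norm_smul, u, Real.norm_eq_abs, mul_one, abs_two] at h3
  simp only [smul_apply, ContinuousLinearMap.id_apply, real_inner_smul_left,
    real_inner_self_eq_norm_sq, u, PiLp.smul_apply, e3_apply, if_true, smul_eq_mul] at h2
  have h4 := neg_abs_le (H * l)
  rw [abs_mul, ← h3] at h4
  nlinarith [mul_le_mul_of_nonneg_left (hR m) (abs_nonneg H)]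

end Pool.Agent.P.MP_a07190_gt.Gr

end

section

/-!
The barrier near the boundary.
-/

open scoped Manifold ContDiff RealInnerProductSpace Topology
open Set MeasureTheory Filter Metric

namespace Pool.Agent.P.MP_a07190_gt.Gr

open Wk

namespace BarA

theorem alg {c u x y n0 n1 n2 l sg H : ℝ} (hc : 0 < c) (hu : 0 < u) (us : u * (x ^ 2 + y ^ 2) = 1)
    (hn : n0 ^ 2 + n1 ^ 2 + n2 ^ 2 = 1) (e0 : -2 * c * (u ^ 2 * x) = l * n0)
    (e1 : -2 * c * (u ^ 2 * y) = l * n1) (e2 : sg = l * n2) (hs : sg ^ 2 = 1)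
    (g : 4 * c ^ 2 * u ^ 3 ≤ 1) (hH : 4 * |H| < c * u ^ 2) :
    0 < 4 * c * u ^ 2 - (-2 * c * u ^ 2 * (n0 ^ 2 + n1 ^ 2) + 8 * c * u ^ 3 * (x * n0 + y * n1) ^ 2)
      + 2 * H * l := by
  have hl : l ^ 2 = 4 * c ^ 2 * u ^ 3 + 1 := by
    linear_combination (-l ^ 2) * hn - (l * n0 - 2 * c * (u ^ 2 * x)) * e0
      - (l * n1 - 2 * c * (u ^ 2 * y)) * e1 - (l * n2 + sg) * e2 + hs + 4 * c ^ 2 * u ^ 3 * us
  have h2 : l ^ 2 * n2 ^ 2 = 1 := by rw [← hs, e2]; ring
  have h3 : n0 ^ 2 + n1 ^ 2 ≤ 1 / 2 := by nlinarith [sq_nonneg n2]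
  have h4 : u * (x * n0 + y * n1) ^ 2 ≤ n0 ^ 2 + n1 ^ 2 := by
    have := mul_nonneg hu.le (sq_nonneg (x * n1 - y * n0))
    nlinarith
  have h5 : |l| ≤ 2 := abs_le_of_sq_le_sq' (by linarith) zero_le_two |> abs_le.2
  have h6 : -(H * l) ≤ |H| * 2 :=
    (neg_le_abs _).trans ((abs_mul H l).trans_le (mul_le_mul_of_nonneg_left h5 (abs_nonneg H)))
  have h7 : 0 < c * u ^ 2 := by positivity
  have h8 := mul_le_mul_of_nonneg_left h4 h7.le
  have h9 := mul_le_mul_of_nonneg_left h3 h7.le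
  nlinarith

/-- the coordinate functions -/
noncomputable abbrev Pc (i : Fin 3) : E3 →L[ℝ] ℝ := EuclideanSpace.proj i

/-- the inverse of the square of the horizontal distance -/
noncomputable def U (q : E2) (p : E3) : ℝ := ((p 0 - q 0) ^ 2 + (p 1 - q 1) ^ 2)⁻¹

theorem dist_sq (q : E2) (p : E3) : dist (prj p) q ^ 2 = (p 0 - q 0) ^ 2 + (p 1 - q 1) ^ 2 := by
  rw [dist_eq_norm, EuclideanSpace.real_norm_sq_eq, Fin.sum_univ_two]
  simp

theorem U_eq (q : E2) (p : E3) : U q p = (dist (prj p) q ^ 2)⁻¹ := by rw [dist_sq, U]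

theorem dP (i : Fin 3) (c : ℝ) (p : E3) : HasFDerivAt (fun p : E3 => p i - c) (Pc i) p :=
  (Pc i).hasFDerivAt.sub_const c

theorem dU {q : E2} {p : E3} (h : 0 < dist (prj p) q) : HasFDerivAt (U q)
    ((-2 * U q p ^ 2) • ((p 0 - q 0) • Pc 0 + (p 1 - q 1) • Pc 1)) p := by
  have h0 : (p 0 - q 0) ^ 2 + (p 1 - q 1) ^ 2 ≠ 0 := by rw [← dist_sq]; positivity
  have := (hasDerivAt_inv h0).comp_hasFDerivAt p (((dP 0 (q 0) p).pow 2).add ((dP 1 (q 1) p).pow 2))
  refine this.congr_fderiv (ContinuousLinearMap.ext fun v => ?_)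
  simp [U]
  ring

/-- the gradient of the barrier -/
noncomputable def G (c sg : ℝ) (q : E2) (p : E3) : E3 :=
  (-2 * c * (U q p ^ 2 * (p 0 - q 0))) • e3 0 + (-2 * c * (U q p ^ 2 * (p 1 - q 1))) • e3 1
    + sg • e3 2

theorem nomax (hMAXP : S_MAXP) {M : Type} [TopologicalSpace M]
    [ChartedSpace (EuclideanHalfSpace 2) M] [IsManifold (𝓡∂ 2) ∞ M] {f N : M → E3} {H c sg : ℝ}
    {q : E2} (h : IsCMCw f N H) {m : M} (hm : m ∈ Inn M) (hc : 0 < c) (hs : sg ^ 2 = 1)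
    (h0 : 0 < dist (prj (f m)) q) (g : 4 * c ^ 2 * U q (f m) ^ 3 ≤ 1)
    (hH : 4 * |H| < c * U q (f m) ^ 2) :
    ¬ IsLocalMax (fun m' => sg * f m' 2 + c * U q (f m')) m := fun hx => by
  have d0 := ((((dU h0).pow 2).mul (dP 0 (q 0) _)).const_mul (-2 * c)).smul_const (e3 0)
  have d1 := ((((dU h0).pow 2).mul (dP 1 (q 1) _)).const_mul (-2 * c)).smul_const (e3 1)
  obtain ⟨l, e, k⟩ := hMAXP M f N H h m hm (fun p => sg * p 2 + c * U q p) (G c sg q) _ (by
    filter_upwards [(isOpen_lt continuous_const (cont_prj.dist continuous_const)).mem_nhds h0]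
      with p hp
    refine (((Pc 2).hasFDerivAt.const_mul sg).add ((dU hp).const_mul c)).congr_fderiv
      (ContinuousLinearMap.ext fun v => ?_)
    simp [inner3, G]
    ring) ((d0.add d1).add_const (sg • e3 2)) hx
  have us : U q (f m) * ((f m 0 - q 0) ^ 2 + (f m 1 - q 1) ^ 2) = 1 :=
    inv_mul_cancel₀ (by rw [← dist_sq]; positivity)
  refine k.not_gt ((alg hc (by rw [U_eq]; positivity) us (unit3 (h.unit m hm))
    (by simpa [G] using congrArg (fun v : E3 => v 0) e)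
    (by simpa [G] using congrArg (fun v : E3 => v 1) e)
    (by simpa [G] using congrArg (fun v : E3 => v 2) e) hs g hH).trans_eq ?_)
  simp [inner3]
  linear_combination (-8 * c * U q (f m) ^ 2) * us

end BarA

open BarA in
theorem p_BAR (hMAXP : S_MAXP) : S_BAR := by
  intro a D θ ha hθ h1
  obtain ⟨c, hc⟩ : ∃ c, c = θ * a ^ 3 / 16 := ⟨_, rfl⟩
  have c0 : 0 < c := by rw [hc]; positivity
  refine ⟨c / (4 * (D ^ 4 + 1)), by positivity, fun M _ _ _ _ f N H q h hH hd hb => ?_⟩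
  have r0 : ∀ m, 0 < dist (prj (f m)) q := fun m => (half_pos ha).trans_le (hd m).1
  have cf : Continuous f := h.c1.continuous
  have key : ∀ sg : ℝ, sg ^ 2 = 1 → ∀ m, sg * f m 2 + c * U q (f m) ≤ c * (a ^ 2)⁻¹ ∧
      (m ∈ Inn M → sg * f m 2 + c * U q (f m) < c * (a ^ 2)⁻¹) := fun sg hs m => by
    have no : ∀ m ∈ Inn M, ¬ IsMaxOn (fun m' => sg * f m' 2 + c * U q (f m')) univ m :=
      fun m hm hx => by
        have a1 := (hd m).1
        have a2 := (hd m).2
        have a3 := r0 m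
        refine nomax hMAXP h hm c0 hs a3 ?_ ?_ (hx.isLocalMax univ_mem) <;> rw [U_eq] <;>
          generalize dist (prj (f m)) q = r at *
        · have : c ≤ r ^ 3 / 2 := by
            have := pow_le_pow_left₀ (half_pos ha).le a1 3
            have := mul_le_mul_of_nonneg_right h1 (pow_pos ha 3).le
            nlinarith
          have := pow_le_pow_left₀ c0.le this 2
          rw [inv_pow, ← div_eq_mul_inv, div_le_one (by positivity)]
          nlinarith
        · have := pow_le_pow_left₀ a3.le a2 4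
          rw [le_div_iff₀ (by positivity)] at hH
          rw [inv_pow, ← div_eq_mul_inv, lt_div_iff₀ (by positivity)]
          rcases (abs_nonneg H).eq_or_lt with e | e
          · rw [← e]; simpa using c0
          · nlinarith
    obtain ⟨m0, -, hx⟩ := isCompact_univ.exists_isMaxOn ⟨m, mem_univ m⟩
      (f := fun m' => sg * f m' 2 + c * U q (f m')) (Continuous.continuousOn (by
        refine (continuous_const.mul ((Pc 2).continuous.comp cf)).add (continuous_const.mul ?_)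
        exact continuous_iff_continuousAt.2 fun x => (dU (r0 x)).continuousAt.comp cf.continuousAt))
    obtain ⟨b1, b2⟩ := hb m0 (not_not.1 fun e => no m0 (int_iff_not_bdy.2 e) hx)
    have le : sg * f m0 2 + c * U q (f m0) ≤ c * (a ^ 2)⁻¹ := by
      rw [b1, mul_zero, zero_add, U_eq]
      gcongr
    exact ⟨(hx (mem_univ m)).trans le, fun hm => not_le.1 fun e =>
      no m hm fun x hx' => (hx hx').trans (le.trans e)⟩
  have k1 := key 1 (by norm_num)
  have k2 := key (-1) (by norm_num)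
  simp only [U_eq] at k1 k2
  refine ⟨fun m => ?_, fun m hm => ?_⟩
  · have a1 := (k1 m).1
    have a2 := (k2 m).1
    have a3 := r0 m
    generalize dist (prj (f m)) q = r at *
    have a4 : a ≤ r := by
      have : (r ^ 2)⁻¹ ≤ (a ^ 2)⁻¹ := le_of_mul_le_mul_left (by linarith) c0
      exact (pow_le_pow_iff_left₀ ha.le a3.le two_ne_zero).1
        ((inv_le_inv₀ (by positivity) (by positivity)).1 this)
    have a5 : c * (a ^ 2)⁻¹ - c * (r ^ 2)⁻¹ ≤ θ * (r - a) := by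
      rw [show c * (a ^ 2)⁻¹ - c * (r ^ 2)⁻¹ = θ * (r - a) * (a * (r + a) / (16 * r ^ 2)) by
        rw [hc]; field_simp; ring]
      exact mul_le_of_le_one_right (mul_nonneg hθ.le (sub_nonneg.2 a4))
        ((div_le_one (by positivity)).2 (by nlinarith))
    exact abs_le.2 ⟨by linarith, by linarith⟩
  · have a1 := (k1 m).2 hm
    have a2 := (k2 m).1
    have a3 := r0 m
    generalize dist (prj (f m)) q = r at *
    have : (r ^ 2)⁻¹ < (a ^ 2)⁻¹ := lt_of_mul_lt_mul_left (by linarith) c0.le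
    exact (pow_lt_pow_iff_left₀ ha.le a3.le two_ne_zero).1
      ((inv_lt_inv₀ (by positivity) (by positivity)).1 this)

end Pool.Agent.P.MP_a07190_gt.Gr

end

section

open scoped Manifold ContDiff RealInnerProductSpace Topology
open Set MeasureTheory Filter Metric

namespace Pool.Agent.P.MP_a07190_gt.Gr

open Wk

namespace BconA

theorem right_nonneg {g : ℝ → ℝ} {g' : ℝ} (h : HasDerivWithinAt g g' (Ici 0) 0) (h0 : g 0 = 0)
    (h1 : ∀ t, 0 ≤ g t) : 0 ≤ g' := by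
  refine ge_of_tendsto ((hasDerivWithinAt_iff_tendsto_slope' (by simp)).1 h.Ioi_of_Ici) ?_
  filter_upwards [self_mem_nhdsWithin] with t ht
  rw [slope_def_field, h0, sub_zero, sub_zero]
  exact div_nonneg (h1 t) (le_of_lt ht)

theorem barrier {d z a θ σ : ℝ} (ha : 0 < a) (hθ : 0 < θ) (h : |z| ≤ θ * (d - a)) (hσ : |σ| ≤ 1) :
    0 ≤ θ * (d ^ 2 - a ^ 2) - 2 * a * (σ * z) := by
  have h2 : σ * z ≤ θ * (d - a) := (le_abs_self _).trans (by
    rw [abs_mul]; exact (mul_le_of_le_one_left (abs_nonneg _) hσ).trans h)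
  nlinarith [mul_le_mul_of_nonneg_left h2 ha.le, mul_nonneg hθ.le (sq_nonneg (d - a))]

theorem inner2 (u v : E2) : ⟪u, v⟫ = u 0 * v 0 + u 1 * v 1 := by
  simp [PiLp.inner_apply, Fin.sum_univ_two]; ring

theorem dist_sq2 (y q : E2) : dist y q ^ 2 = (y 0 - q 0) ^ 2 + (y 1 - q 1) ^ 2 := by
  rw [dist_eq_norm, EuclideanSpace.real_norm_sq_eq, Fin.sum_univ_two]; rfl

theorem alg {F0 F1 F2 n0 n1 n2 w0 w1 l δ a θ : ℝ} (ha : 0 < a) (hθ : 0 < θ)
    (hw : a ^ 2 = w0 ^ 2 + w1 ^ 2) (hn : n0 ^ 2 + n1 ^ 2 + n2 ^ 2 = 1) (hδ : δ ≠ 0)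
    (c0 : -(F2 * (l * w0)) = δ * n0) (c1 : -(F2 * (l * w1)) = δ * n1)
    (c2 : l * (F0 * w0 + F1 * w1) = δ * n2) (hb : a * |F2| ≤ θ * -(F0 * w0 + F1 * w1)) :
    n2 ≠ 0 ∧ F0 * w0 + F1 * w1 < 0 ∧ |w0 * n0 + w1 * n1| ≤ θ * a * |n2| ∧
      1 - n2 ^ 2 ≤ θ ^ 2 * n2 ^ 2 := by
  generalize F0 * w0 + F1 * w1 = B at *
  have k : δ * n0 = 0 → δ * n1 = 0 → δ * n2 ≠ 0 := fun a0 a1 a2 => by
    rw [(mul_eq_zero.1 a0).resolve_left hδ, (mul_eq_zero.1 a1).resolve_left hδ,
      (mul_eq_zero.1 a2).resolve_left hδ] at hn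
    norm_num at hn
  have h0 : 0 ≤ -B := (mul_nonneg_iff_of_pos_left hθ).1 ((by positivity : 0 ≤ a * |F2|).trans hb)
  have h1 : B ≠ 0 := by
    rintro rfl
    have : F2 = 0 := abs_nonpos_iff.1 (nonpos_of_mul_nonpos_right (by simpa using hb) ha)
    exact k (by rw [← c0, this]; ring) (by rw [← c1, this]; ring) (by rw [← c2, mul_zero])
  have h2 : l ≠ 0 := by
    rintro rfl
    exact k (by rw [← c0]; ring) (by rw [← c1]; ring) (by rw [← c2, zero_mul])
  have h3 : 0 < -B := lt_of_le_of_ne h0 (neg_ne_zero.2 h1).symm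
  have e1 : (w0 * n0 + w1 * n1) * -B = n2 * F2 * a ^ 2 := mul_left_cancel₀ hδ (by
    linear_combination B * w0 * c0 + B * w1 * c1 + F2 * a ^ 2 * c2 - F2 * l * B * hw)
  have e2 : n0 * w1 = n1 * w0 := mul_left_cancel₀ hδ (by linear_combination w0 * c1 - w1 * c0)
  have e3 : |w0 * n0 + w1 * n1| ≤ θ * a * |n2| := le_of_mul_le_mul_right (by
    rw [← abs_of_pos h3, ← abs_mul, e1, abs_mul, abs_mul, abs_of_pos h3, abs_of_pos (pow_pos ha 2)]
    nlinarith [mul_le_mul_of_nonneg_left hb (mul_nonneg ha.le (abs_nonneg n2))]) h3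
  refine ⟨fun e => mul_ne_zero h2 h1 (by rw [c2, e, mul_zero]), neg_pos.1 h3, e3,
    le_of_mul_le_mul_right ?_ (pow_pos ha 2)⟩
  have e4 := pow_le_pow_left₀ (abs_nonneg _) e3 2
  rw [sq_abs, mul_pow, mul_pow, sq_abs] at e4
  have e5 : (1 - n2 ^ 2) * a ^ 2 = (w0 * n0 + w1 * n1) ^ 2 := by
    linear_combination (1 - n2 ^ 2) * hw - (w0 ^ 2 + w1 ^ 2) * hn + (n0 * w1 - n1 * w0) * e2
  linarith

theorem bcore {θ a D c u z d r P : ℝ} (ha : 0 < a) (hθ : 0 < θ) (c1 : c ≤ 1) (c2 : 1 - c ≤ θ ^ 2)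
    (hu : |u| ≤ θ * a) (hz : |z| ≤ θ * (d - a)) (hP : 2 * P = d ^ 2 - a ^ 2 - r) (h0 : 0 ≤ r)
    (hr : r ≤ D) : c * P + z * u - (1 + θ ^ 2) * P ≤ θ ^ 2 * D := by
  have h1 : 0 ≤ d - a := (mul_nonneg_iff_of_pos_left hθ).1 ((abs_nonneg z).trans hz)
  have h2 : z * u ≤ θ * (d - a) * (θ * a) := (le_abs_self _).trans (by
    rw [abs_mul]; exact mul_le_mul hz hu (abs_nonneg _) (by positivity))
  have h3 : θ ^ 2 * (2 * a * (d - a)) ≤ (1 + θ ^ 2 - c) * (d ^ 2 - a ^ 2) :=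
    mul_le_mul (by linarith) (by nlinarith) (by positivity) (by nlinarith)
  have h4 : (1 + θ ^ 2 - c) * r ≤ 2 * θ ^ 2 * D :=
    mul_le_mul (by linarith) hr h0 (by positivity)
  have h5 : (1 + θ ^ 2 - c) * (2 * P) = (1 + θ ^ 2 - c) * (d ^ 2 - a ^ 2 - r) := by rw [hP]
  nlinarith

end BconA

open BconA

theorem p_BCON : S_BCON := by
  intro M _ _ _ f hf x v q a θ hv ha hθ hd hb hz
  have h1 : HasDerivAt (fun t : ℝ => pt (t, v)) (ev 0) 0 := by
    rw [← pt_10]
    exact pt.hasFDerivAt.comp_hasDerivAt 0 ((hasDerivAt_id 0).prodMk (hasDerivAt_const 0 v))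
  have h2 : HasDerivWithinAt (fun t : ℝ => f ((ch x).symm (pt (t, v))))
      (chartDif f x (pt (0, v)) (ev 0)) (Ici 0) 0 :=
    HasFDerivWithinAt.comp_hasDerivWithinAt (l := f ∘ (ch x).symm) 0 (hasFD_ch hf hv)
      h1.hasDerivWithinAt fun t (ht : 0 ≤ t) => by rw [range_I]; simpa using ht
  have h3 := prjL.hasFDerivAt.comp_hasDerivWithinAt 0 h2
  rw [dist_eq_norm] at hd
  simp only [dist_eq_norm] at hb
  refine ⟨tau_2 hf hz hv, ?_, ?_, h3⟩
  · have h4 := ((prjL.hasFDerivAt.comp_hasDerivAt v (hasDerivAt_gam hf hv)).sub_const q).norm_sq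
    have h5 := IsLocalMin.hasDerivAt_eq_zero (Eventually.of_forall fun w => by
      have := barrier ha hθ (hb (gam x w)) (abs_zero.trans_le zero_le_one)
      simp only [Function.comp_apply, prjL_apply, hd]
      nlinarith) h4
    simp only [Function.comp_apply, prjL_apply] at h5
    rw [← neg_sub, inner_neg_right, real_inner_comm]
    linarith
  · have k : ∀ σ : ℝ, |σ| ≤ 1 → a * (σ * chartDif f x (pt (0, v)) (ev 0) 2)
        ≤ θ * -⟪prj (chartDif f x (pt (0, v)) (ev 0)), q - prj (f (gam x v))⟫ := fun σ hσ => by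
      have h4 := ((((h3.sub_const q).norm_sq.sub_const (a ^ 2)).const_mul θ).fun_sub
        ((((EuclideanSpace.proj 2 : E3 →L[ℝ] ℝ).hasFDerivAt.comp_hasDerivWithinAt 0
          h2).const_mul σ).const_mul (2 * a)))
      have h5 := right_nonneg h4 (by
        change θ * (‖prj (f (gam x v)) - q‖ ^ 2 - a ^ 2) - 2 * a * (σ * f (gam x v) 2) = 0
        rw [hd, hz _ (gam_mem hv)]
        ring) fun t => barrier ha hθ (hb _) hσ
      rw [← neg_sub (prj _) q, inner_neg_right, real_inner_comm, neg_neg]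
      change 0 ≤ θ * (2 * ⟪prj (f (gam x v)) - q, prj _⟫)
        - 2 * a * (σ * chartDif f x (pt (0, v)) (ev 0) 2) at h5
      linarith
    rcases abs_cases (chartDif f x (pt (0, v)) (ev 0) 2) with e | e <;> rw [e.1]
    · simpa using k 1 (by simp)
    · simpa using k (-1) (by simp)

theorem p_ALGB : S_ALGB := by
  intro L n p q a θ hL hn hp ha hθ _ hd h2 ht hb
  have hδ := den_ne_zero hL hn hp
  obtain ⟨c0, c1, c2⟩ := cross_eq hn (hp (ev 0)) (hp (ev 1))
  have hw : a ^ 2 = (q 0 - p 0) ^ 2 + (q 1 - p 1) ^ 2 := by rw [← hd, dist_comm, dist_sq2]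
  have hτ := norm_sq3 (L (ev 1))
  simp only [inner2, prj_0, prj_1, PiLp.sub_apply, den] at hδ ht hb ⊢
  generalize det3 (L (ev 0)) (L (ev 1)) n = δ at *
  generalize L (ev 0) = F at *
  generalize L (ev 1) = τ at *
  obtain ⟨l, t0, t1⟩ : ∃ l, τ 0 = -(l * (q 1 - p 1)) ∧ τ 1 = l * (q 0 - p 0) := by
    refine ⟨(τ 1 * (q 0 - p 0) - τ 0 * (q 1 - p 1)) / a ^ 2, ?_, ?_⟩ <;> field_simp
    · linear_combination τ 0 * hw + (q 0 - p 0) * ht
    · linear_combination τ 1 * hw + (q 1 - p 1) * ht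
  rw [h2, t1] at c0
  rw [h2, t0] at c1
  rw [t0, t1] at c2
  have d2 : l * (F 0 * (q 0 - p 0) + F 1 * (q 1 - p 1)) = δ * n 2 := by linear_combination c2
  obtain ⟨a1, a2, a3, a4⟩ := alg ha hθ hw (unit3 hn) hδ (l := l) (by linear_combination c0)
    (by linear_combination c1) d2 hb
  refine ⟨a1, a2, fun ε s D Q hε h1 hs h3 hD hQ hz => ?_⟩
  have s2 : s ^ 2 = 1 := by rw [← sq_abs, hs, one_pow]
  have e2 : ε ^ 2 = 1 := by rw [← sq_abs, hε, one_pow]
  have m0 : 0 < -(ε * s * l) := by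
    have := mul_pos h1 h3
    refine (mul_pos_iff_of_pos_right (neg_pos.2 a2)).1 ?_
    linear_combination this - ε * s * d2
  have n1 : n 2 ^ 2 ≤ 1 := by nlinarith [unit3 hn, sq_nonneg (n 0), sq_nonneg (n 1)]
  have n2 : |n 2| ≤ 1 := (sq_le_one_iff_abs_le_one _).1 n1
  have n3 : s * n 2 ≤ 1 := (le_abs_self _).trans (by rwa [abs_mul, hs, one_mul])
  have n4 : (s * n 2) ^ 2 = n 2 ^ 2 := by rw [mul_pow, s2, one_mul]
  have k := bcore (D := D) (c := s * n 2) (u := s * ((q 0 - p 0) * n 0 + (q 1 - p 1) * n 1))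
    (P := (p 0 - Q 0) * (q 0 - p 0) + (p 1 - Q 1) * (q 1 - p 1))
    (r := (p 0 - Q 0) ^ 2 + (p 1 - Q 1) ^ 2) ha hθ n3
    (by nlinarith [mul_le_mul_of_nonneg_left n1 (sq_nonneg θ)])
    (by rw [abs_mul, hs, one_mul]; exact a3.trans (mul_le_of_le_one_right (by positivity) n2)) hz
    (by rw [dist_sq2, hw, prj_0, prj_1]; ring) (by positivity) (by
      rw [norm_sq3] at hQ
      simp only [PiLp.sub_apply, toP_0, toP_1] at hQ
      linarith [sq_nonneg (toP p 2 - Q 2)])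
  have e3' : ‖τ‖ = -(ε * s * l) * a := by
    refine (pow_left_inj₀ (norm_nonneg _) (by positivity) two_ne_zero).1 ?_
    rw [hτ, h2, t0, t1]
    linear_combination (-l ^ 2) * hw - l ^ 2 * a ^ 2 * s ^ 2 * e2 - l ^ 2 * a ^ 2 * s2
  rw [e3', ← mul_assoc, mul_right_comm, div_mul_cancel₀ _ ha.ne']
  refine le_trans (le_of_eq ?_) ((mul_le_mul_of_nonneg_left k
    (mul_pos m0 (inv_pos.2 hD)).le).trans (le_of_eq (by field_simp)))
  simp only [inner3, PiLp.sub_apply, PiLp.smul_apply, crossR_0, crossR_1, crossR_2, smul_eq_mul,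
    toP_0, toP_1, toP_2, h2, t0, t1, show e3 2 0 = 0 by simp, show e3 2 1 = 0 by simp,
    show e3 2 2 = 1 by simp]
  linear_combination ε * l * D⁻¹ * (n 2 * ((p 0 - Q 0) * (q 0 - p 0) + (p 1 - Q 1) * (q 1 - p 1))
    + Q 2 * ((q 0 - p 0) * n 0 + (q 1 - p 1) * n 1)) * s2

end Pool.Agent.P.MP_a07190_gt.Gr

end

section

/-!
The one-sided Stokes bound for a field that is continuous up to the boundary.
-/

open scoped Manifold ContDiff RealInnerProductSpace Topology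
open Set MeasureTheory Filter Metric

namespace Pool.Agent.P.MP_a07190_gt.Gr

open Wk

namespace StkpA

theorem ofReal_le (g : ℝ → ℝ) : ENNReal.ofReal (∫ v, g v) ≤ ∫⁻ v, ENNReal.ofReal (g v) := by
  by_cases hg : Integrable g
  · rw [integral_eq_lintegral_pos_part_sub_lintegral_neg_part hg]
    exact (ENNReal.ofReal_le_ofReal (sub_le_self _ ENNReal.toReal_nonneg)).trans
      ENNReal.ofReal_toReal_le
  · rw [integral_undef hg, ENNReal.ofReal_zero]
    exact zero_le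

variable {M : Type*} [TopologicalSpace M] [ChartedSpace (EuclideanHalfSpace 2) M]
  {f N : M → E3} {H : ℝ}

theorem smooth_e {e : M → ℝ} (he : IsLocallyConstant e) : ContMDiff (𝓡∂ 2) 𝓘(ℝ, ℝ) 1 e :=
  fun m => contMDiffAt_const.congr_of_eventuallyEq (he.eventually_eq m)

variable [IsManifold (𝓡∂ 2) ∞ M]

theorem curl_e {e : M → ℝ} (he : IsLocallyConstant e) {W : M → E3}
    (hW : ContMDiffOn (𝓡∂ 2) 𝓘(ℝ, E3) 1 W (Inn M)) {m : M} (hm : m ∈ Inn M) :
    curlM f N (fun m => e m • W m) m = e m * curlM f N W m := by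
  have s1 : ContMDiffOn (𝓡∂ 2) 𝓘(ℝ, E3) 1 (fun m => e m • W m) (Inn M) :=
    (smooth_e he).contMDiffOn.smul hW
  have h0 : ∀ᶠ y in 𝓝 (ch m m), e ((ch m).symm y) = e m := by
    have h1 : ContinuousAt (ch m).symm (ch m m) := continuousAt_extChartAt_symm m
    have h2 : ∀ᶠ m' in 𝓝 ((ch m).symm (ch m m)), e m' = e m := by
      rw [extChartAt_to_inv]; exact he.eventually_eq m
    exact h1.eventually h2
  have h1 : dif (fun m => e m • W m) m = e m • dif W m := by
    refine (hasFD_int s1 hm).unique (((hasFD_int hW hm).const_smul (e m)).congr_of_eventuallyEq ?_)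
    filter_upwards [h0] with y hy
    simp only [Function.comp_apply, Pi.smul_apply, hy]
  simp only [curlM, h1, num, smul_apply, real_inner_smul_left]
  ring

theorem sgn_bd (h : IsCMC1 f N H) {x : M} {U : Set M} {ε : ℝ} (hU : Sgn f N x U ε) {v : ℝ}
    (hv : v ∈ Vb x) (hm : gam x v ∈ U) :
    0 < ε * den (chartDif f x (pt (0, v))) (N (gam x v)) := by
  have c1 := continuousOn_chartDif h.c1 x
  have c0 := continuousOn_extChartAt_symm (I := 𝓡∂ 2) x
  have hc : ContinuousOn (fun y => den (chartDif f x y) (N ((ch x).symm y))) (ch x).target := by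
    have k : Continuous fun z : E3 × E3 × E3 => det3 z.1 z.2.1 z.2.2 := by
      unfold det3
      fun_prop
    exact k.comp_continuousOn ((c1.clm_apply continuousOn_const).prodMk
      ((c1.clm_apply continuousOn_const).prodMk (h.cont.comp_continuousOn c0)))
  have t0 : Tendsto (fun t : ℝ => pt (t, v)) (𝓝[>] 0) (𝓝 (pt (0, v))) :=
    (Continuous.tendsto (by fun_prop) 0).mono_left nhdsWithin_le_nhds
  have t1 : Tendsto (fun t : ℝ => pt (t, v)) (𝓝[>] 0) (𝓝[range (𝓡∂ 2)] (pt (0, v))) := by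
    refine tendsto_nhdsWithin_iff.2 ⟨t0, ?_⟩
    filter_upwards [self_mem_nhdsWithin] with t (ht : 0 < t)
    rw [range_I]; simpa using ht.le
  have e1 : ∀ᶠ t : ℝ in 𝓝[>] 0, pt (t, v) ∈ (ch x).target := t1 (tgt_mem hv)
  have t2 : Tendsto (fun t : ℝ => pt (t, v)) (𝓝[>] 0) (𝓝[(ch x).target] (pt (0, v))) :=
    tendsto_nhdsWithin_iff.2 ⟨t0, e1⟩
  have e2 : ∀ᶠ t : ℝ in 𝓝[>] 0, (ch x).symm (pt (t, v)) ∈ U :=
    ((c0 _ hv).tendsto.comp t2) (hU.op.mem_nhds hm)
  have e3 : jac (chartDif f x (pt (0, v)))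
      = ε * den (chartDif f x (pt (0, v))) (N (gam x v)) := by
    refine tendsto_nhds_unique_of_eventuallyEq ((continuousOn_jac h.c1 x _ hv).tendsto.comp t2)
      (((hc _ hv).tendsto.comp t2).const_mul ε) ?_
    filter_upwards [e1, e2, self_mem_nhdsWithin] with t h1 h2 (h3 : 0 < t)
    exact hU.eq _ ⟨h1, by simpa using h3⟩ h2
  rw [← e3]
  exact jac_pos (h.inj_ch hv)

end StkpA

theorem p_STKP (hNUL : S_NUL) (hSGN : S_SGN) (hCRL : S_CRL) (hSCH : S_SCH) (hSB : S_SB)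
    (hTV : S_TV) : S_STKP := by
  intro M _ _ _ _ _ _ _ f N H h1 Γ hΓ hfin φ ψ e c hφ hψ he hc hb
  have h := h1.w
  set W1 : M → E3 := fun m => ∑ i, φ i (f m) • crossR (e3 i) (N m) with hW1
  set W2 : M → E3 := fun m => ∑ i, ψ i (f m) • e3 i with hW2
  set W : M → E3 := fun m => W1 m + e m • W2 m with hWd
  have a1 := fun i => (hCRL M f N H h (φ i) (hφ i) (e3 i)).1
  have a2 := fun i => (hCRL M f N H h (ψ i) (hψ i) (e3 i)).2
  have s1 : ContMDiffOn (𝓡∂ 2) 𝓘(ℝ, E3) 1 W1 (Inn M) :=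
    contMDiffOn_finsetSum fun i _ => (a1 i).1.c1
  have s2 : ContMDiffOn (𝓡∂ 2) 𝓘(ℝ, E3) 1 W2 (Inn M) :=
    contMDiffOn_finsetSum fun i _ => (a2 i).1.c1
  have s3 : ContMDiffOn (𝓡∂ 2) 𝓘(ℝ, E3) 1 (fun m => e m • W2 m) (Inn M) :=
    (StkpA.smooth_e he).contMDiffOn.smul s2
  have s4 : ContMDiffOn (𝓡∂ 2) 𝓘(ℝ, E3) 1 W (Inn M) := s1.add s3
  have hfc : Continuous f := ContMDiff.continuous h.c1
  have hN := h1.cont
  have hec := he.continuous
  have hWc : Continuous W := by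
    refine (continuous_finsetSum _ fun i _ => ?_).add (hec.smul (continuous_finsetSum _ fun i _ => ?_))
    · exact ((hφ i).continuous.comp hfc).smul ((crossR (e3 i)).continuous.comp hN)
    · exact ((hψ i).continuous.comp hfc).smul continuous_const
  set D : M → ℝ := fun m =>
    ∑ i, fvd H (φ i) (e3 i) (f m, N m) + e m * ∑ i, std (ψ i) (e3 i) (f m, N m) with hD
  have hDc : Continuous D :=
    (continuous_finsetSum _ fun i _ => (continuous_fvd H (hφ i) _).comp (hfc.prodMk hN)).add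
      (hec.mul (continuous_finsetSum _ fun i _ => (continuous_std (hψ i) _).comp (hfc.prodMk hN)))
  have hcurl : ∀ m ∈ Inn M, curlM f N W m = D m := fun m hm => by
    rw [curlM_sum_int (W := W) (Wi := ![W1, fun m => e m • W2 m]) s4
      (fun i => by fin_cases i <;> assumption) (fun m => by simp [hWd]) hm, Fin.sum_univ_two]
    change curlM f N W1 m + curlM f N (fun m => e m • W2 m) m = _
    rw [StkpA.curl_e he s2 hm, curlM_sum_int s1 (fun i => (a1 i).1.c1) (fun _ => rfl) hm,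
      curlM_sum_int s2 (fun i => (a2 i).1.c1) (fun _ => rfl) hm,
      Finset.sum_congr rfl fun i _ => ((a1 i).2 m hm).1,
      Finset.sum_congr rfl fun i _ => (a2 i).2 m hm]
  have hW : Fld f N W := by
    obtain ⟨C, hC⟩ := isCompact_univ.exists_bound_of_continuousOn
      (f := fun m => ‖W m‖ + |D m|) (hWc.norm.add hDc.abs).continuousOn
    refine ⟨s4, C, fun m hm => ?_⟩
    have := (le_abs_self _).trans (hC m (mem_univ m))
    rw [hcurl m hm]
    constructor <;> linarith [norm_nonneg (W m), abs_nonneg (D m)]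
  choose U ε hUx hU using hSGN M f N H h
  obtain ⟨t, ht⟩ := isCompact_univ.elim_finite_subcover U (fun x => (hU x).op)
    (fun x _ => mem_iUnion.2 ⟨x, hUx x⟩)
  obtain ⟨ρ, hρ⟩ := SmoothPartitionOfUnity.exists_isSubordinate (𝓡∂ 2) isClosed_univ
    (fun i : t => U i) (fun i => (hU i).op) (fun x hx => by
      obtain ⟨i, hi, hx⟩ := mem_iUnion₂.1 (ht hx)
      exact mem_iUnion.2 ⟨⟨i, hi⟩, hx⟩)
  have hs1 : ∀ m, ∑ i, ρ i m = 1 := fun m => by
    rw [← finsum_eq_sum_of_fintype]; exact ρ.sum_eq_one (mem_univ m)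
  have hr : ∀ i, ContMDiff (𝓡∂ 2) 𝓘(ℝ, ℝ) 1 (ρ i) := fun i => (ρ i).contMDiff.of_le (by simp)
  have hae : D =ᵐ[area f] fun m => ∑ i, curlM f N (fun m => ρ i m • W m) m := by
    have h0 : ∀ᵐ m ∂(area f), m ∉ Bdy M := measure_eq_zero_iff_ae_notMem.1 (hNUL M f h.c1)
    filter_upwards [h0] with m hm
    rw [← hcurl m (int_iff_not_bdy.2 hm)]
    exact curlM_sum_int (Wi := fun i m => ρ i m • W m) s4 (fun i => (hr i).contMDiffOn.smul s4)
      (fun m => by rw [← Finset.sum_smul, hs1, one_smul]) (int_iff_not_bdy.2 hm)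
  have hI : ∀ i : t, Integrable (curlM f N fun m => ρ i m • W m) (area f) := fun i =>
    (hSCH M f N H h i (U i) (ε i) (hU i) W _ hW (hr i) (hρ i)).1
  rw [integral_congr_ae hae, integral_finsetSum _ fun i _ => hI i]
  have key : ∀ i : t, ENNReal.ofReal (∫ m, curlM f N (fun m => ρ i m • W m) m ∂(area f))
      ≤ ENNReal.ofReal c * ∫⁻ v in Vb (i : M),
        ENNReal.ofReal (ρ i (gam (i : M) v) * ‖tau f (i : M) v‖) := by
    intro i
    rw [(hSB M f N H h i (U i) (ε i) (hU i) W _ hW (hr i) (hρ i)).2 hWc, ← integral_const_mul,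
      ← lintegral_const_mul' _ _ ENNReal.ofReal_ne_top,
      ← lintegral_indicator (isOpen_Vb _).measurableSet]
    refine (StkpA.ofReal_le _).trans (lintegral_mono fun v => ?_)
    by_cases hv : v ∈ Vb (i : M)
    · rw [indicator_of_mem hv, bd_of_mem hv, ← ENNReal.ofReal_mul hc, real_inner_smul_left]
      refine ENNReal.ofReal_le_ofReal ?_
      by_cases h0 : ρ i (gam (i : M) v) = 0
      · simp [h0]
      · have h2 := mul_le_mul_of_nonneg_left (hb i v (ε i) hv (hU i).abs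
          (StkpA.sgn_bd h1 (hU i) hv (hρ i (subset_tsupport _ h0)))) (ρ.nonneg i (gam (i : M) v))
        exact (le_of_eq (by ring)).trans (h2.trans (le_of_eq (by ring)))
    · rw [indicator_of_notMem hv, bd_of_notMem hv, mul_zero, ENNReal.ofReal_zero]
  have k1 : ENNReal.ofReal (∑ i : t, ∫ m, curlM f N (fun m => ρ i m • W m) m ∂(area f))
      ≤ ∑ i : t, ENNReal.ofReal (∫ m, curlM f N (fun m => ρ i m • W m) m ∂(area f)) :=
    Finset.le_sum_of_subadditive ENNReal.ofReal ENNReal.ofReal_zero.le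
      (fun _ _ => ENNReal.ofReal_add_le) _ _
  have k2 := k1.trans (Finset.sum_le_sum fun i _ => key i)
  rw [← Finset.mul_sum] at k2
  have k3 := k2.trans (mul_le_mul_right (hTV M f h.c1 Γ hΓ t (fun i => (i : M))
    (fun i m => ρ i m) (fun i => (ρ i).contMDiff.continuous) ρ.nonneg hs1) _)
  have e' : (2 : ENNReal) * μH[1] Γ = ENNReal.ofReal (2 * (μH[1] Γ).toReal) := by
    rw [ENNReal.ofReal_mul (by norm_num), ENNReal.ofReal_toReal hfin, ENNReal.ofReal_ofNat]
  rwa [e', ← ENNReal.ofReal_mul hc, ENNReal.ofReal_le_ofReal_iff (by positivity)] at k3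

end Pool.Agent.P.MP_a07190_gt.Gr

end

section

/-!
The kernel and the density of the surface at an interior point.
-/

open scoped Manifold ContDiff RealInnerProductSpace Topology
open Set MeasureTheory Filter Metric

namespace Pool.Agent.P.MP_a07190_gt.Gr

open Wk

namespace DenA

theorem int1 : Integrable fun u : E2 => 2 / (‖u‖ ^ 2 + 1) ^ 2 := by
  have h := integrable_rpow_neg_one_add_norm_sq (E := E2) (μ := volume) (r := 4) (by
    rw [finrank_euclideanSpace_fin]; norm_num)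
  refine (h.const_mul 2).congr (Eventually.of_forall fun u => ?_)
  have e : (-4 / 2 : ℝ) = -((2 : ℕ) : ℝ) := by norm_num
  simp only
  rw [e, Real.rpow_neg (by positivity), Real.rpow_natCast, add_comm, div_eq_mul_inv]

theorem ball_ge (hKER : S_KER) {δ s : ℝ} (hs : 0 < s) (h : 6 * s ≤ δ) :
    8 / 9 * kI ≤ ∫ u in closedBall (0 : E2) δ, 2 * s ^ 2 / (‖u‖ ^ 2 + s ^ 2) ^ 2 := by
  have hδ : 0 < δ := by linarith
  obtain ⟨a1, a2⟩ := hKER.2 0 s hs
  obtain ⟨b1, b2⟩ := hKER.2 0 δ hδ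
  simp only [sub_zero] at a1 a2 b1 b2
  rw [← integral_indicator measurableSet_closedBall]
  refine le_trans (le_of_eq ?_) (integral_mono (a1.sub (b1.const_mul (1 / 9)))
    (a1.indicator measurableSet_closedBall) fun u => ?_)
  · rw [integral_sub' a1 (b1.const_mul _), integral_const_mul, a2, b2]
    ring
  · simp only [Pi.sub_apply]
    by_cases hu : u ∈ closedBall (0 : E2) δ
    · rw [indicator_of_mem hu]
      exact sub_le_self _ (by positivity)
    · rw [indicator_of_notMem hu, sub_nonpos, ← mul_div_assoc,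
        div_le_div_iff₀ (by positivity) (by positivity)]
      have h1 : δ ^ 2 ≤ ‖u‖ ^ 2 := pow_le_pow_left₀ hδ.le (le_of_lt (by simpa using hu)) 2
      have h2 : (‖u‖ ^ 2 + δ ^ 2) ^ 2 ≤ (2 * (‖u‖ ^ 2 + s ^ 2)) ^ 2 :=
        pow_le_pow_left₀ (by positivity) (by nlinarith [sq_nonneg s]) 2
      have h3 : (6 * s) ^ 2 ≤ δ ^ 2 := pow_le_pow_left₀ (by positivity) h 2
      have h4 := mul_le_mul h3 h2 (by positivity) (by positivity)
      nlinarith

theorem lint_ge {M : Type*} [TopologicalSpace M] [ChartedSpace (EuclideanHalfSpace 2) M]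
    [IsManifold (𝓡∂ 2) ∞ M] [MeasurableSpace M] [BorelSpace M] {f : M → E3}
    (hf : ContMDiff (𝓡∂ 2) 𝓘(ℝ, E3) 1 f) (x : M) {V : Set M} (hV : MeasurableSet V)
    {G : M → ENNReal} (hG : Measurable G) {S : Set E2} (hS : MeasurableSet S)
    (h : S ⊆ (ch x).symm ⁻¹' V ∩ (ch x).target) :
    ∫⁻ y in S, ENNReal.ofReal (jac (chartDif f x y)) * G ((ch x).symm y)
      ≤ ∫⁻ m in V, G m ∂(area f) := by
  refine le_trans ?_ (lintegral_mono' (Measure.restrict_mono le_rfl (le_iSup (chartArea f) x))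
    le_rfl)
  rw [← lintegral_indicator hV, chartArea,
    lintegral_map' (hG.indicator hV).aemeasurable (aemeas_symm x _),
    lintegral_withDensity_eq_lintegral_mul_non_measurable₀ _
      ((continuousOn_jac hf x).aemeasurable (measurableSet_tgt x)).ennreal_ofReal
      (Eventually.of_forall fun y => ENNReal.ofReal_lt_top)]
  refine le_trans (setLIntegral_mono' hS fun y hy => le_of_eq ?_)
    (lintegral_mono_set fun y hy => (h hy).2)
  rw [Pi.mul_apply, indicator_of_mem (mem_preimage.1 (h hy).1)]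

end DenA

theorem p_KER : S_KER := by
  refine ⟨?_, fun y s hs => ?_⟩
  · refine (integral_pos_iff_support_of_nonneg (fun u => by positivity) DenA.int1).2 ?_
    have : (Function.support fun u : E2 => 2 / (‖u‖ ^ 2 + 1) ^ 2) = univ :=
      eq_univ_of_forall fun u => by
        rw [Function.mem_support]
        positivity
    rw [this]
    exact isOpen_univ.measure_pos _ univ_nonempty
  · have e : (fun u : E2 => 2 * s ^ 2 / (‖u - y‖ ^ 2 + s ^ 2) ^ 2) =
        fun u => (s ^ 2)⁻¹ * (2 / (‖s⁻¹ • (u - y)‖ ^ 2 + 1) ^ 2) := funext fun u => by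
      rw [norm_smul, norm_inv, Real.norm_of_nonneg hs.le]
      field_simp
    rw [e]
    refine ⟨((DenA.int1.comp_smul (inv_ne_zero hs.ne')).comp_sub_right y).const_mul _, ?_⟩
    rw [integral_const_mul,
      integral_sub_right_eq_self (fun u : E2 => 2 / (‖s⁻¹ • u‖ ^ 2 + 1) ^ 2) y,
      Measure.integral_comp_inv_smul volume (fun u : E2 => 2 / (‖u‖ ^ 2 + 1) ^ 2) s,
      finrank_euclideanSpace_fin, abs_of_pos (by positivity), smul_eq_mul, ← mul_assoc,
      inv_mul_cancel₀ (by positivity), one_mul, kI]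

theorem p_DEN2 (hKER : S_KER) : S_DEN2 := by
  intro M _ _ _ _ _ _ _ f hf x hx hi V hV hxV
  have := finite_area hf
  have hy := mem_Tp (mem_extChartAt_source x) hx
  have hT := tgt_mem_nhds hy.1 hy.2
  rw [dif_eq hf] at hi
  obtain ⟨B, hB, hdet⟩ := exists_gs hi
  set L := chartDif f x (ch x x) with hL
  have hJ : 0 < jac L := jac_pos hi
  have hA : ∀ u, HasFDerivAt (fun u => ch x x + B u) B u := fun u => B.hasFDerivAt.const_add _
  have hA0 : Tendsto (fun u => ch x x + B u) (𝓝 0) (𝓝 (ch x x)) := by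
    simpa using (hA 0).continuousAt.tendsto
  have hF : HasFDerivAt (f ∘ (ch x).symm) L (ch x x + B 0) := by
    rw [map_zero, add_zero]
    exact (hasFD_ch hf hy.1).hasFDerivAt (range_mem_nhds hy.2)
  have hG := (hF.comp 0 (hA 0)).isLittleO.bound (c := 1 / 20) (by norm_num)
  have hJc : ∀ᶠ y in 𝓝 (ch x x), 19 / 20 * jac L < jac (chartDif f x y) :=
    ((continuousOn_jac hf x).continuousAt hT).eventually (lt_mem_nhds (by linarith))
  have hVn : ∀ᶠ y in 𝓝 (ch x x), (ch x).symm y ∈ V :=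
    (continuousAt_extChartAt_symm x).eventually (hV.mem_nhds (by rwa [extChartAt_to_inv]))
  obtain ⟨δ, hδ, hball⟩ := nhds_basis_closedBall.eventually_iff.1
    (hG.and ((hA0.eventually hJc).and ((hA0.eventually hVn).and (hA0.eventually hT))))
  filter_upwards [Ioo_mem_nhdsGT (show (0 : ℝ) < δ / 6 by positivity)] with σ hσ
  have s0 := hσ.1
  have hc : Continuous fun m => 2 * σ ^ 2 / (‖f m - f x‖ ^ 2 + σ ^ 2) ^ 2 :=
    continuous_const.div (by have := hf.continuous; fun_prop) fun m => by positivity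
  have hint : IntegrableOn (fun m => 2 * σ ^ 2 / (‖f m - f x‖ ^ 2 + σ ^ 2) ^ 2) V (area f) :=
    (hc.integrable_of_hasCompactSupport (HasCompactSupport.of_compactSpace _)).integrableOn
  have hinj : Function.Injective fun u => ch x x + B u := fun u v e => by
    have h1 := hB (u - v)
    rw [map_sub, add_left_cancel e, sub_self, map_zero, norm_zero] at h1
    exact sub_eq_zero.1 (norm_eq_zero.1 h1.symm)
  have k1 := DenA.lint_ge hf x hV.measurableSet hc.measurable.ennreal_ofReal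
    (S := (fun u => ch x x + B u) '' closedBall 0 δ)
    ((isCompact_closedBall _ _).image (by fun_prop)).measurableSet
    (by rintro _ ⟨u, hu, rfl⟩; exact (hball hu).2.2)
  rw [lintegral_image_eq_lintegral_abs_det_fderiv_mul volume measurableSet_closedBall
    (fun u _ => (hA u).hasFDerivWithinAt) hinj.injOn,
    ← ofReal_integral_eq_lintegral_ofReal hint (Eventually.of_forall fun m => by positivity)] at k1
  have k2 := DenA.ball_ge hKER (s := 20 / 21 * σ) (δ := δ) (by positivity) (by linarith [hσ.2])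
  have k3 := (hKER.2 0 (20 / 21 * σ) (by positivity)).1
  simp only [sub_zero] at k3
  have k4 := ofReal_integral_eq_lintegral_ofReal
    ((k3.integrableOn (s := closedBall 0 δ)).const_mul (27 / 32))
    (Eventually.of_forall fun u => by positivity)
  rw [integral_const_mul] at k4
  refine (ENNReal.ofReal_le_ofReal_iff (integral_nonneg fun m => by positivity)).1
    (le_trans ?_ k1)
  refine le_trans (ENNReal.ofReal_le_ofReal (by linarith)) (k4.le.trans
    (setLIntegral_mono' measurableSet_closedBall fun u hu => ?_))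
  rw [← ENNReal.ofReal_mul (jac_nonneg _), ← ENNReal.ofReal_mul (abs_nonneg _), det2_eq]
  refine ENNReal.ofReal_le_ofReal ?_
  have h1 := (hball hu).1
  simp only [Function.comp_apply, map_zero, add_zero, extChartAt_to_inv, sub_zero,
    ContinuousLinearMap.comp_apply] at h1
  have h2 := norm_add_le (f ((ch x).symm (ch x x + B u)) - f x - L (B u)) (L (B u))
  rw [sub_add_cancel, hB] at h2
  have h3 : ‖f ((ch x).symm (ch x x + B u)) - f x‖ ^ 2 ≤ (21 / 20 * ‖u‖) ^ 2 :=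
    pow_le_pow_left₀ (norm_nonneg _) (by linarith) 2
  have h4 : 2 * σ ^ 2 / ((21 / 20 * ‖u‖) ^ 2 + σ ^ 2) ^ 2
      ≤ 2 * σ ^ 2 / (‖f ((ch x).symm (ch x x + B u)) - f x‖ ^ 2 + σ ^ 2) ^ 2 := by gcongr
  have h5 := mul_le_mul_of_nonneg_left
    (mul_le_mul (hball hu).2.1.le h4 (by positivity) (jac_nonneg _)) (abs_nonneg (det2 B))
  refine le_trans ?_ h5
  rw [← mul_assoc |det2 B|, mul_left_comm |det2 B|, hdet]
  have e : 2 * σ ^ 2 / ((21 / 20 * ‖u‖) ^ 2 + σ ^ 2) ^ 2 = 400 / 441 *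
      (2 * (20 / 21 * σ) ^ 2 / (‖u‖ ^ 2 + (20 / 21 * σ) ^ 2) ^ 2) := by
    field_simp
    ring
  have : 0 ≤ 2 * (20 / 21 * σ) ^ 2 / (‖u‖ ^ 2 + (20 / 21 * σ) ^ 2) ^ 2 := by positivity
  rw [e]
  linarith

end Pool.Agent.P.MP_a07190_gt.Gr

end

section

open scoped Manifold ContDiff RealInnerProductSpace Topology
open Set MeasureTheory Filter Metric

namespace Pool.Agent.P.MP_a07190_gt.Gr

open Wk

namespace LyA

/-- the projection to the horizontal plane -/
noncomputable def flat : E3 →L[ℝ] E3 :=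
  ContinuousLinearMap.id ℝ E3 - (EuclideanSpace.proj (2 : Fin 3) : E3 →L[ℝ] ℝ).smulRight (e3 2)

@[simp] theorem flat_0 (p : E3) : flat p 0 = p 0 := by simp [flat]
@[simp] theorem flat_1 (p : E3) : flat p 1 = p 1 := by simp [flat]
@[simp] theorem flat_2 (p : E3) : flat p 2 = 0 := by simp [flat]

/-- the rotated horizontal field -/
noncomputable def psi (c σ : ℝ) (Q : E3) : Fin 3 → E3 → ℝ :=
  ![fun p => c * rad (fun _ => 1) σ Q 1 (flat p), fun p => -c * rad (fun _ => 1) σ Q 0 (flat p),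
    fun _ => 0]

theorem contDiff_psi (c : ℝ) {σ : ℝ} (hσ : 0 < σ) (Q : E3) (i : Fin 3) :
    ContDiff ℝ 1 (psi c σ Q i) := by
  fin_cases i
  · exact contDiff_const.mul ((contDiff_rad C1.one hσ Q 1).comp flat.contDiff)
  · exact contDiff_const.mul ((contDiff_rad C1.one hσ Q 0).comp flat.contDiff)
  · exact contDiff_const

theorem fd (c : ℝ) {σ : ℝ} (hσ : 0 < σ) (Q : E3) (i : Fin 3) (p u : E3) :
    fderiv ℝ (fun p => c * rad (fun _ => 1) σ Q i (flat p)) p u =
      c * fderiv ℝ (rad (fun _ => 1) σ Q i) (flat p) (flat u) := by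
  have h := ((((contDiff_rad C1.one hσ Q i).differentiable one_ne_zero) (flat p)).hasFDerivAt.comp p
    flat.hasFDerivAt).const_mul c
  exact congrArg (fun L : E3 →L[ℝ] ℝ => L u) h.fderiv

theorem sum_std (c : ℝ) {σ s : ℝ} (hσ : 0 < σ) (Q : E3) (hs : s ^ 2 = Q 2 ^ 2 + σ ^ 2)
    (z : E3 × E3) : ∑ i, std (psi c σ Q i) (e3 i) z =
      -c * (2 * s ^ 2 / (‖prj z.1 - prj Q‖ ^ 2 + s ^ 2) ^ 2 * z.2 2) := by
  have e : ‖prj z.1 - prj Q‖ ^ 2 + s ^ 2 = sq3 Q (flat z.1) + σ ^ 2 := by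
    rw [← prj_sub, norm_prj_sq, hs]; simp [sq3]; ring
  have e2 : s ^ 2 = sq3 Q (flat z.1) + σ ^ 2 - (z.1 0 - Q 0) ^ 2 - (z.1 1 - Q 1) ^ 2 := by
    rw [hs]; simp [sq3]; ring
  have hD : sq3 Q (flat z.1) + σ ^ 2 ≠ 0 := by have := sq3_nonneg Q (flat z.1); positivity
  rw [e, e2, Fin.sum_univ_three]
  simp only [std, psi, Matrix.cons_val_zero, Matrix.cons_val_one, Matrix.cons_val,
    fd _ hσ, fderiv_rad C1.one hσ]
  simp
  field_simp
  ring

theorem sum_fvd (H : ℝ) {σ : ℝ} (hσ : 0 < σ) (Q : E3) (z : E3 × E3) (hu : ‖z.2‖ = 1) :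
    2 * σ ^ 2 / (‖z.1 - Q‖ ^ 2 + σ ^ 2) ^ 2 - H ^ 2 / 2 ≤
      ∑ i, fvd H (rad (fun _ => 1) σ Q i) (e3 i) z := by
  have u := unit3 hu
  have hd : ‖z.1 - Q‖ ^ 2 = sq3 Q z.1 := by rw [← dist_eq_norm]; exact dist_sq3 _ _
  set s := sq3 Q z.1 with hs
  set t := (z.1 0 - Q 0) * z.2 0 + (z.1 1 - Q 1) * z.2 1 + (z.1 2 - Q 2) * z.2 2 with ht
  have h0 : s = (z.1 0 - Q 0) ^ 2 + (z.1 1 - Q 1) ^ 2 + (z.1 2 - Q 2) ^ 2 := hs
  have e : ∑ i, fvd H (rad (fun _ => 1) σ Q i) (e3 i) z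
      = (0 / (s + σ ^ 2) - 1 / (s + σ ^ 2) ^ 2) * (2 * (s - t ^ 2))
        + 2 * (1 / (s + σ ^ 2)) + 2 * H * (1 / (s + σ ^ 2)) * t := by
    simp only [fvd]
    simp only [fderiv_rad C1.one hσ]
    simp only [Fin.sum_univ_three, rad, ← hs, inner3, e3_apply, Fin.isValue, Fin.reduceEq,
      ↓reduceIte]
    linear_combination (-(1 / (s + σ ^ 2))) * u
      - 2 * (0 / (s + σ ^ 2) - 1 / (s + σ ^ 2) ^ 2) * h0
  have hts : t ^ 2 ≤ s := by
    rw [h0, ← mul_one (_ + _ + _), ← u, ht]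
    nlinarith [sq_nonneg ((z.1 0 - Q 0) * z.2 1 - (z.1 1 - Q 1) * z.2 0),
      sq_nonneg ((z.1 0 - Q 0) * z.2 2 - (z.1 2 - Q 2) * z.2 0),
      sq_nonneg ((z.1 1 - Q 1) * z.2 2 - (z.1 2 - Q 2) * z.2 1)]
  have := mono_pt (c := 1) (c' := 0) (K := 0) (H := H) hσ zero_le_one le_rfl (by simp) hts
  rw [e, hd]
  simp only [mul_one, mul_zero, zero_add] at this
  linarith

theorem field (c s σ : ℝ) (Q p n : E3) (hp : p 2 = 0) :
    ∑ i, rad (fun _ => 1) σ Q i p • crossR (e3 i) n + s • ∑ i, psi c σ Q i p • e3 i =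
      crossR ((sq3 Q p + σ ^ 2)⁻¹ • (toP (prj p) - Q)) n
        - (c * s) • crossR ((sq3 Q p + σ ^ 2)⁻¹ • (toP (prj p) - Q)) (e3 2) := by
  have e : flat p = p := by ext i; fin_cases i <;> simp [hp]
  ext i
  fin_cases i <;> simp [Fin.sum_univ_three, psi, rad, e, hp] <;> ring

end LyA

open LyA in
theorem p_LY (hSTKP : S_STKP) (hBCON : S_BCON) (hALGB : S_ALGB) (hKER : S_KER) (hDEN2 : S_DEN2)
    (hNU : S_NU) : S_LY := by
  intro M _ _ _ _ _ _ _ f N H h Γ hb hΓ a θ e ha hθ hθ1 hbar he hbe hdeg hsm m1 h1 m2 h2 h12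
  by_contra hne
  have := finite_area h.c1
  obtain ⟨V1, V2, o1, o2, i1, i2, hV⟩ := t2_separation hne
  obtain ⟨σ, ⟨d1, d2⟩, hσ⟩ := (((hDEN2 M f h.c1 m1 h1 (h.immersion m1) V1 o1 i1).and
    (hDEN2 M f h.c1 m2 h2 (h.immersion m2) V2 o2 i2)).and self_mem_nhdsWithin).exists
  replace hσ : 0 < σ := hσ
  rw [← h12] at d2
  obtain ⟨Q, hQ⟩ : ∃ Q, Q = f m1 := ⟨_, rfl⟩
  rw [← hQ] at d1 d2
  have hs0 : 0 < √(Q 2 ^ 2 + σ ^ 2) := Real.sqrt_pos.2 (by positivity)
  have hs : √(Q 2 ^ 2 + σ ^ 2) ^ 2 = Q 2 ^ 2 + σ ^ 2 := Real.sq_sqrt (by positivity)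
  generalize √(Q 2 ^ 2 + σ ^ 2) = s at hs0 hs
  have hφ := contDiff_rad C1.one hσ Q
  have key := hSTKP M f N H h Γ hb hΓ _ _ e (θ ^ 2 / a) hφ (contDiff_psi (1 + θ ^ 2) hσ Q) he
    (by positivity) fun x v ε hv hε hd => by
      have hm := gam_mem hv
      obtain ⟨q, q1, q2⟩ := hbar _ (bij_mem hb hm)
      obtain ⟨b1, b2, b3, -⟩ := hBCON M f h.c1 x v q a θ hv ha hθ q1 q2 fun m hm => bij_z hb hm
      rw [field _ _ _ _ _ _ (bij_z hb hm)]
      refine (hALGB (chartDif f x (pt (0, v))) (N (gam x v)) _ q a θ (h.inj_ch hv) (h.unit _)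
        (h.perp_ch hv) ha hθ hθ1 q1 b1 b2 b3).2.2 ε _ _ Q hε hd (hbe _ hm).1 (hbe _ hm).2
        (by have := sq3_nonneg Q (f (gam x v)); positivity) ?_ (hQ ▸ q2 m1)
      rw [norm_sq3]
      simp [sq3, bij_z hb hm, sq_nonneg]
  obtain ⟨g1, g2⟩ := hKER.2 (prj Q) s hs0
  have hg : Continuous fun u : E2 => 2 * s ^ 2 / (‖u - prj Q‖ ^ 2 + s ^ 2) ^ 2 :=
    continuous_const.div (by fun_prop) fun u => by positivity
  have d3 := hdeg _ hg g1 fun y => by positivity
  rw [g2] at d3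
  have hf := h.c1.continuous
  have hN := h.cont
  have hI := ((hNU M f N H h.w).2.1 · · |>.1)
  have j1 : Integrable (fun m => 2 * σ ^ 2 / (‖f m - Q‖ ^ 2 + σ ^ 2) ^ 2) (area f) :=
    integrable_cont h.c1 (continuous_const.div (by fun_prop) fun u => by positivity)
  have j2 : Integrable (fun m => e m * (2 * s ^ 2 / (‖prj (f m) - prj Q‖ ^ 2 + s ^ 2) ^ 2 * N m 2))
      (area f) :=
    integrable_cont h.c1 (he.continuous.mul ((hg.comp (cont_prj.comp hf)).mul (by fun_prop)))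
  have j3 : Integrable (fun m => ∑ i, fvd H (rad (fun _ => 1) σ Q i) (e3 i) (f m, N m)) (area f) :=
    integrable_finsetSum _ fun i _ => hI _ (continuous_fvd H (hφ i) _)
  have k1 : ∫ m, (2 * σ ^ 2 / (‖f m - Q‖ ^ 2 + σ ^ 2) ^ 2 - H ^ 2 / 2) ∂(area f) ≤
      ∫ m, ∑ i, fvd H (rad (fun _ => 1) σ Q i) (e3 i) (f m, N m) ∂(area f) :=
    integral_mono (j1.sub (integrable_const _)) j3 fun m => sum_fvd H hσ Q (f m, N m) (h.unit m)
  rw [integral_sub j1 (integrable_const _), integral_const, smul_eq_mul] at k1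
  have k2 := setIntegral_le_integral (s := V1 ∪ V2) j1 (Eventually.of_forall fun m => by positivity)
  rw [setIntegral_union hV o2.measurableSet j1.integrableOn j1.integrableOn] at k2
  simp only [sum_std _ hσ Q hs, mul_left_comm (e _) (-(1 + θ ^ 2))] at key
  rw [integral_add j3 (j2.const_mul _), integral_const_mul] at key
  have k3 := mul_le_mul_of_nonneg_left d3 (show 0 ≤ 1 + θ ^ 2 by positivity)
  linarith

end Pool.Agent.P.MP_a07190_gt.Gr

end

section

/-!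
Plane geometry: the projection is onto, and exterior discs at boundary points.
-/

open scoped Manifold ContDiff RealInnerProductSpace Topology
open Set MeasureTheory Filter Metric

namespace Pool.Agent.P.MP_a07190_gt.Gr

open Wk

namespace SurjA

theorem der_nonneg {g : ℝ → ℝ} {g' : ℝ} (h : HasDerivWithinAt g g' (Ici 0) 0)
    (hg : ∀ t, g 0 ≤ g t) : 0 ≤ g' := by
  rw [hasDerivWithinAt_iff_tendsto_slope, Ici_sdiff_left] at h
  refine ge_of_tendsto h (eventually_mem_nhdsWithin.mono fun t ht => ?_)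
  rw [slope_def_field, sub_zero]
  exact div_nonneg (sub_nonneg.2 (hg t)) (le_of_lt ht)

theorem ray {K : Set E2} {y z q : E2} {a : ℝ} (ha : 0 < a) (hδ : 0 < dist y z)
    (hK : closedBall y (dist y z) ⊆ K) (hq : dist z q = a) (h : ∀ x ∈ K, a ≤ dist x q) :
    ∃ r : ℝ, 0 < r ∧ r • (q - z) = z - y := by
  have h1 : dist y z < ‖q - y‖ := by
    by_contra h1
    have := h q (hK (mem_closedBall_iff_norm.2 (not_lt.1 h1)))
    rw [dist_self] at this
    linarith
  have h0 : 0 < ‖q - y‖ := hδ.trans h1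
  have h2 := h (y + (dist y z / ‖q - y‖) • (q - y)) (hK (by
    rw [mem_closedBall_iff_norm, add_sub_cancel_left, norm_smul, Real.norm_of_nonneg (by positivity),
      div_mul_cancel₀ _ h0.ne']))
  have e : q - (y + (dist y z / ‖q - y‖) • (q - y)) = (1 - dist y z / ‖q - y‖) • (q - y) := by
    rw [sub_smul, one_smul]
    abel
  rw [dist_comm, dist_eq_norm, e, norm_smul,
    Real.norm_of_nonneg (sub_nonneg.2 ((div_le_one h0).2 h1.le)), sub_mul, one_mul,
    div_mul_cancel₀ _ h0.ne'] at h2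
  have e1 : ‖q - z‖ = a := by rw [← dist_eq_norm, dist_comm, hq]
  have e2 : ‖z - y‖ = dist y z := by rw [← dist_eq_norm, dist_comm]
  have h3 : SameRay ℝ (q - z) (z - y) := by
    refine sameRay_iff_norm_add.2 (le_antisymm (norm_add_le _ _) ?_)
    rw [sub_add_sub_cancel, e1, e2]
    linarith
  exact h3.exists_pos_left (norm_pos_iff.1 (e1 ▸ ha)) (norm_pos_iff.1 (e2 ▸ hδ))

end SurjA

theorem p_SURJ : S_SURJ := by
  intro K T a hK hT ha hF hN hB y hy
  by_contra hyT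
  obtain ⟨z, hz, e⟩ := hT.exists_infDist_eq_dist
    ((nonempty_frontier_iff.2 ⟨⟨y, hy⟩, hK.ne_univ⟩).mono hF) y
  have hδ : 0 < dist y z := dist_pos.2 fun h => hyT (h ▸ hz)
  have h1 : ∀ x ∈ T, dist y z ≤ dist y x := fun x hx => e ▸ infDist_le_dist_of_mem hx
  have h2 : ∀ x ∈ ball y (dist y z), x ∉ T := fun x hx h =>
    (h1 x h).not_gt (mem_ball'.1 hx)
  have h3 : ∀ x ∈ K, x ∉ T → x ∈ interior K := fun x hx h => by
    by_contra h'
    exact h (hF ⟨subset_closure hx, h'⟩)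
  have h4 : ball y (dist y z) ⊆ interior K :=
    (convex_ball y _).isPreconnected.subset_left_of_subset_union isOpen_interior
      hK.isClosed.isOpen_compl (disjoint_compl_right.mono_left interior_subset)
      (fun x hx => (em (x ∈ K)).imp (fun h => h3 x h (h2 x hx)) id)
      ⟨y, mem_ball_self hδ, h3 y hy hyT⟩
  have h5 : closedBall y (dist y z) ⊆ K := by
    rw [← closure_ball y hδ.ne']
    exact closure_minimal (h4.trans interior_subset) hK.isClosed
  have h6 : z ∈ frontier K := by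
    by_contra h
    have : z ∈ closure (ball y (dist y z)) := by
      rw [closure_ball y hδ.ne']
      exact mem_closedBall'.2 le_rfl
    obtain ⟨x, hx, hx'⟩ := mem_closure_iff_nhds.1 this T (hN z hz h)
    exact h2 x hx' hx
  obtain ⟨q, u, c, hq, hq', c0, hc, hcT, hu⟩ := hB z h6
  obtain ⟨r, hr, er⟩ := SurjA.ray ha hδ h5 hq hq'
  have h7 := SurjA.der_nonneg (hc.sub_const y).norm_sq fun t => by
    refine pow_le_pow_left₀ (norm_nonneg _) ?_ 2
    rw [c0, ← dist_eq_norm, ← dist_eq_norm, dist_comm z, dist_comm (c t)]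
    exact h1 _ (hcT t)
  rw [c0, ← er, inner_smul_left, real_inner_comm] at h7
  have := mul_neg_of_pos_of_neg hr hu
  simp only [conj_trivial] at h7
  linarith

theorem p_EXT : S_EXT := by
  intro K a hK ha h p hp
  have hQ : IsClosed {q : E2 | ∀ x ∈ K, a ≤ dist x q} := by
    simp only [ofPred_forall]
    exact isClosed_iInter fun x => isClosed_iInter fun _ =>
      isClosed_le continuous_const (by fun_prop)
  have h1 : ∀ ε > 0, ∃ q ∈ {q : E2 | ∀ x ∈ K, a ≤ dist x q}, dist p q ≤ a + ε := fun ε hε => by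
    rw [frontier_eq_closure_inter_closure] at hp
    obtain ⟨y, hy, hy'⟩ := Metric.mem_closure_iff.1 hp.2 ε hε
    obtain ⟨q, h2, h3⟩ := h y hy
    refine ⟨q, fun x hx => not_lt.1 fun h4 => disjoint_left.1 h3 (mem_ball.2 h4) hx, ?_⟩
    linarith [dist_triangle p y q]
  obtain ⟨q, hq, e⟩ := hQ.exists_infDist_eq_dist ((h1 1 one_pos).imp fun _ h => h.1) p
  refine ⟨q, le_antisymm (le_of_forall_pos_le_add fun ε hε => ?_)
    (hq p (hK.frontier_subset hp)), hq⟩
  obtain ⟨q', h2, h3⟩ := h1 ε hε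
  exact e ▸ (infDist_le_dist_of_mem h2).trans h3

end Pool.Agent.P.MP_a07190_gt.Gr

end
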