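import Pool.Agent.P.MP_a07190_gt.Gr.Iface

section

/-! The winding function of a cycle relative to a planar set. -/

open scoped Manifold ContDiff RealInnerProductSpace Topology
open Set MeasureTheory Filter Metric

namespace Pool.Agent.P.MP_a07190_gt.Gr

open Wk

namespace WexA

variable {a b : ℝ} {A A' A1 A1' : ℝ → ℝ}

theorem mem_of_d (h : Stp a b A A') {t : ℝ} (e : A' t ≠ 0) : t ∈ Icc a b := by
  by_contra h'; exact e (h.dz t h')

theorem mem_of_ne (h : Stp a b A A') (h1 : Stp a b A1 A1') {t : ℝ} (e : A t - A1 t ≠ 0) :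
    t ∈ Icc a b :=
  ⟨not_lt.1 fun k => e (by rw [h.zero t k.le, h1.zero t k.le, sub_self]),
    not_lt.1 fun k => e (by rw [h.one t k.le, h1.one t k.le, sub_self])⟩

theorem mono (h : Stp a b A A') {a' b' : ℝ} (ha : a' ≤ a) (hb : b ≤ b') : Stp a' b' A A' :=
  ⟨h.c1, h.c2, fun t k => h.zero t (k.trans ha), fun t k => h.one t (hb.trans k),
    fun t k => h.dz t fun k' => k ⟨ha.trans k'.1, k'.2.trans hb⟩⟩

theorem ex (h : a < b) : ∃ A A', Stp a b A A' :=
  let ⟨S, S', S'', _, k⟩ := exists_step h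
  ⟨S, S', k.c1, ⟨S'', k.c2⟩, k.zero, k.one, k.dz⟩

theorem intg {ν : Measure (E3 × E3)} (h : Bd ν) {f g k : ℝ → ℝ} (hf : Continuous f)
    (hg : Continuous g) (hk : Continuous k) :
    Integrable (fun z : E3 × E3 => f (z.1 0) * g (z.1 1) * k (z.1 2) * z.2 2) ν :=
  h.integrable (by fun_prop)

theorem sq {Γ : Set E2} (h : IsClosed Γ) {y : E2} (hy : y ∉ Γ) :
    ∃ ρ : ℝ, 0 < ρ ∧ ∀ q ∈ Γ, ρ < |q 0 - y 0| ∨ ρ < |q 1 - y 1| := by
  obtain ⟨ε, h0, h1⟩ := Metric.isOpen_iff.1 h.isOpen_compl y hy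
  refine ⟨ε / 2, half_pos h0, fun q hq => ?_⟩
  by_contra hh
  push Not at hh
  refine h1 (mem_ball.2 ?_) hq
  rw [EuclideanSpace.dist_eq, Fin.sum_univ_two, Real.dist_eq, Real.dist_eq]
  refine (Real.sqrt_lt' h0).2 ?_
  nlinarith [hh.1, hh.2, abs_nonneg (q 0 - y 0), abs_nonneg (q 1 - y 1)]

theorem thin {Γ : Set E2} {S : Set E3} (hΓ : IsClosed Γ) (h : IsCompact S) {Y : E3}
    (hY : prj Y ∉ Γ) {g : ℝ → ℝ} (hg : Continuous g)
    (h1 : ∀ p ∈ S, prj p = prj Y → 0 < g (p 2)) :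
    ∃ ρ : ℝ, 0 < ρ ∧ (∀ q ∈ Γ, ρ < |q 0 - Y 0| ∨ ρ < |q 1 - Y 1|) ∧
      ∀ p ∈ S, p 0 ∈ Icc (Y 0 - ρ) (Y 0 + ρ) → p 1 ∈ Icc (Y 1 - ρ) (Y 1 + ρ) → ρ < g (p 2) := by
  obtain ⟨r, r0, r1⟩ := sq hΓ hY
  obtain ⟨s, s0, s1⟩ := h.exists_forall_le' (a := (0 : ℝ))
    (f := fun p => max (max |p 0 - Y 0| |p 1 - Y 1|) (g (p 2))) (by fun_prop) fun p hp => by
      by_contra hh
      simp only [not_lt, max_le_iff, abs_nonpos_iff, sub_eq_zero] at hh
      exact (h1 p hp (ext2 (by simpa using hh.1.1) (by simpa using hh.1.2))).not_ge hh.2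
  have m1 := min_le_left r (s / 2)
  have m2 := min_le_right r (s / 2)
  refine ⟨min r (s / 2), lt_min r0 (half_pos s0), fun q hq => ?_, fun p hp k0 k1 => ?_⟩
  · simpa using (r1 q hq).imp m1.trans_lt m1.trans_lt
  · have := s1 p hp
    have b0 : |p 0 - Y 0| < s := abs_lt.2 ⟨by linarith [k0.1], by linarith [k0.2]⟩
    have b1 : |p 1 - Y 1| < s := abs_lt.2 ⟨by linarith [k1.1], by linarith [k1.2]⟩
    simp only [le_max_iff, b0.not_ge, b1.not_ge, false_or] at this
    linarith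

theorem miss {Γ : Set E2} {c0 c1 ρ : ℝ} (h : ∀ q ∈ Γ, ρ < |q 0 - c0| ∨ ρ < |q 1 - c1|) :
    ∀ q ∈ Γ, ¬(q 0 ∈ Icc (c0 - ρ) (c0 + ρ) ∧ q 1 ∈ Icc (c1 - ρ) (c1 + ρ)) := fun q hq k =>
  (h q hq).elim (abs_le.2 ⟨by linarith [k.1.1], by linarith [k.1.2]⟩).not_gt
    (abs_le.2 ⟨by linarith [k.2.1], by linarith [k.2.2]⟩).not_gt

/-- `c` is the value of the integral for all admissible boxes around `Y` -/
def Val (Γ : Set E2) (S : Set E3) (ν : Measure (E3 × E3)) (Y : E3) (c : ℝ) : Prop :=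
  ∀ a0 b0 a1 b1 a2 b2 : ℝ, (∀ q ∈ Γ, ¬(q 0 ∈ Icc a0 b0 ∧ q 1 ∈ Icc a1 b1)) →
    (∀ p ∈ S, ¬(p 0 ∈ Icc a0 b0 ∧ p 1 ∈ Icc a1 b1 ∧ p 2 ∈ Icc a2 b2)) →
    Y 0 ∈ Ioo a0 b0 → Y 1 ∈ Ioo a1 b1 → Y 2 ∈ Ioo a2 b2 →
    ∀ A A' B B' C C' : ℝ → ℝ, Stp a0 b0 A A' → Stp a1 b1 B B' → Stp a2 b2 C C' →
    ∫ z, A' (z.1 0) * B' (z.1 1) * C (z.1 2) * z.2 2 ∂ν = c

theorem val (hCHG : S_CHG) {Γ : Set E2} {S : Set E3} {ν : Measure (E3 × E3)} (hb : Bd ν)
    (hz : Sz Γ ν) (hS : ∀ᵐ z ∂ν, z.1 ∈ S) (Y : E3) : ∃ c, Val Γ S ν Y c := by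
  by_contra hh
  simp only [not_exists, Val, not_forall] at hh
  obtain ⟨a0, b0, a1, b1, a2, b2, g, s, y0, y1, y2, A, A', B, B', C, C', hA, hB, hC, -⟩ := hh 0
  obtain ⟨c0, d0, c1, d1, c2, d2, g', s', x0, x1, x2, P, P', Q, Q', R, R', hP, hQ, hR, e⟩ :=
    hh (∫ z, A' (z.1 0) * B' (z.1 1) * C (z.1 2) * z.2 2 ∂ν)
  obtain ⟨U, U', hU⟩ := ex ((max_lt y0.1 x0.1).trans (lt_min y0.2 x0.2))
  obtain ⟨V, V', hV⟩ := ex ((max_lt y1.1 x1.1).trans (lt_min y1.2 x1.2))
  obtain ⟨W, W', hW⟩ := ex ((max_lt y2.1 x2.1).trans (lt_min y2.2 x2.2))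
  exact e ((hCHG Γ S ν hb hz hS _ _ _ _ _ _ g' s' _ _ _ _ _ _ _ _ _ _ _ _ hP hQ hR
    (mono hU (le_max_right _ _) (min_le_right _ _)) (mono hV (le_max_right _ _) (min_le_right _ _))
    (mono hW (le_max_right _ _) (min_le_right _ _))).trans
    (hCHG Γ S ν hb hz hS _ _ _ _ _ _ g s _ _ _ _ _ _ _ _ _ _ _ _ hA hB hC
    (mono hU (le_max_left _ _) (min_le_left _ _)) (mono hV (le_max_left _ _) (min_le_left _ _))
    (mono hW (le_max_left _ _) (min_le_left _ _))).symm)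

theorem mid {c ρ : ℝ} (h : 0 < ρ) : c ∈ Ioo (c - ρ) (c + ρ) := ⟨by linarith, by linarith⟩

end WexA

open WexA

theorem p_CHG : S_CHG := by
  intro Γ S ν hb hz hS a0 b0 a1 b1 a2 b2 hΓ hbox A A' B B' C C' A1 A1' B1 B1' C1 C1' hA hB hC
    hA1 hB1 hC1
  obtain ⟨B'', hB''⟩ := hB.c2
  obtain ⟨A'', hA''⟩ := hA1.c2
  have e1 : ∫ z, A' (z.1 0) * B' (z.1 1) * C (z.1 2) * z.2 2 ∂ν
      = ∫ z, A' (z.1 0) * B' (z.1 1) * C1 (z.1 2) * z.2 2 ∂ν := by
    refine integral_congr_ae (hS.mono fun z hz => ?_)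
    have : A' (z.1 0) * B' (z.1 1) * (C (z.1 2) - C1 (z.1 2)) = 0 := by
      by_contra hh
      simp only [mul_eq_zero, not_or] at hh
      exact hbox _ hz ⟨mem_of_d hA hh.1.1, mem_of_d hB hh.1.2, mem_of_ne hC hC1 hh.2⟩
    linear_combination z.2 2 * this
  have e2 := hz _ (contDiff_prod3 (hA.c1.sub hA1.c1) hB'' hC1.c1) (e3 1) fun q hq => by
    by_contra hh
    simp only [prod3, mul_eq_zero, not_or, toP_0, toP_1] at hh
    exact hΓ q hq ⟨mem_of_ne hA hA1 hh.1.1, mem_of_d hB hh.1.2⟩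
  have e3' := hz _ (contDiff_prod3 hA'' (hB.c1.sub hB1.c1) hC1.c1) (e3 0) fun q hq => by
    by_contra hh
    simp only [prod3, mul_eq_zero, not_or, toP_0, toP_1] at hh
    exact hΓ q hq ⟨mem_of_d hA1 hh.1.1, mem_of_ne hB hB1 hh.1.2⟩
  have i1 := intg hb hA.c1.hc hB.c1.hc hC1.c1.cont
  have i2 := intg hb hA1.c1.hc hB.c1.hc hC1.c1.cont
  have i3 := intg hb hA1.c1.hc hB1.c1.hc hC1.c1.cont
  rw [e1]
  trans ∫ z, A1' (z.1 0) * B' (z.1 1) * C1 (z.1 2) * z.2 2 ∂ν
  · rw [← sub_eq_zero, ← integral_sub i1 i2, ← e2]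
    refine integral_congr_ae (hS.mono fun z hz => ?_)
    have : (A (z.1 0) - A1 (z.1 0)) * B' (z.1 1) * C1' (z.1 2) = 0 := by
      by_contra hh
      simp only [mul_eq_zero, not_or] at hh
      exact hbox _ hz ⟨mem_of_ne hA hA1 hh.1.1, mem_of_d hB hh.1.2, mem_of_d hC1 hh.2⟩
    simp only [std, fderiv_prod3 (hA.c1.sub hA1.c1) hB'' hC1.c1, this]
    simp
    ring
  · symm
    rw [← sub_eq_zero, ← integral_sub i3 i2, ← e3']
    refine integral_congr_ae (hS.mono fun z hz => ?_)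
    have : A1' (z.1 0) * (B (z.1 1) - B1 (z.1 1)) * C1' (z.1 2) = 0 := by
      by_contra hh
      simp only [mul_eq_zero, not_or] at hh
      exact hbox _ hz ⟨mem_of_d hA1 hh.1.1, mem_of_ne hB hB1 hh.1.2, mem_of_d hC1 hh.2⟩
    simp only [std, fderiv_prod3 hA'' (hB.c1.sub hB1.c1) hC1.c1, this]
    simp
    ring

theorem p_WEX (hCHG : S_CHG) : S_WEX := by
  intro Γ S ν hΓ hc hb hz hS
  choose w hw using val hCHG hb hz hS
  obtain ⟨R, hR⟩ := hc.exists_bound_of_continuousOn (f := fun p : E3 => p 2) (by fun_prop)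
  have hR' : ∀ p ∈ S, -R ≤ p 2 := fun p hp => (abs_le.1 (hR p hp)).1
  let L : E2 → E3 := fun y => toP y - (R + 2) • e3 2
  have L0 : ∀ y, L y 0 = y 0 := fun y => by simp [L]
  have L1 : ∀ y, L y 1 = y 1 := fun y => by simp [L]
  have L2 : ∀ y, L y 2 = -R - 2 := fun y => by simp [L]; ring
  have hL : Continuous L := by
    refine Continuous.sub ?_ continuous_const
    unfold toP
    fun_prop
  have hD : Dfor Γ ν fun y => w (L y) := fun y ρ h0 h1 A A' B B' hA hB => by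
    obtain ⟨C, C', hC⟩ := ex (show -R - 3 < -R - 1 by linarith)
    beta_reduce
    rw [← hw (L y) _ _ _ _ _ _ (miss h1) (fun p hp k => by linarith [hR' p hp, k.2.2.2])
      (L0 y ▸ mid h0) (L1 y ▸ mid h0) (L2 y ▸ ⟨by linarith, by linarith⟩) _ _ _ _ _ _ hA hB hC]
    exact integral_congr_ae (hS.mono fun z hz => by
      simp only [hC.one _ (by linarith [hR' _ hz] : -R - 1 ≤ z.1 2), mul_one])
  have hl : ∀ Y ∉ S, prj Y ∉ Γ → ∀ᶠ Y' in 𝓝 Y, w Y' = w Y := fun Y h1 h2 => by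
    obtain ⟨ρ, r0, r1, r2⟩ := thin hΓ hc h2 (g := fun t => |t - Y 2|) (by fun_prop)
      fun p hp e => abs_pos.2 (sub_ne_zero.2 fun e' => h1 (ext3 e e' ▸ hp))
    obtain ⟨A, A', hA⟩ := ex ((mid (c := Y 0) r0).1.trans (mid r0).2)
    obtain ⟨B, B', hB⟩ := ex ((mid (c := Y 1) r0).1.trans (mid r0).2)
    obtain ⟨C, C', hC⟩ := ex ((mid (c := Y 2) r0).1.trans (mid r0).2)
    have k := fun Y' => hw Y' _ _ _ _ (Y 2 - ρ) (Y 2 + ρ) (miss r1) fun p hp k =>
      (r2 p hp k.1 k.2.1).not_ge (abs_le.2 ⟨by linarith [k.2.2.1], by linarith [k.2.2.2]⟩)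
    have n : ∀ i, ∀ᶠ Y' : E3 in 𝓝 Y, Y' i ∈ Ioo (Y i - ρ) (Y i + ρ) := fun i =>
      (contDiff_coord i).continuous.continuousAt.eventually (isOpen_Ioo.mem_nhds (mid r0))
    filter_upwards [n 0, n 1, n 2] with Y' n0 n1 n2
    rw [← k Y' n0 n1 n2 _ _ _ _ _ _ hA hB hC, k Y (mid r0) (mid r0) (mid r0) _ _ _ _ _ _ hA hB hC]
  refine ⟨fun y => w (L y), w, ⟨fun y hy => ?_, hl, fun Y h1 h2 => ?_, fun Y h1 h2 => ?_⟩, hD⟩
  · exact hL.continuousAt.eventually (hl (L y) (fun k => by linarith [hR' _ k, L2 y])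
      (by rwa [show prj (L y) = y from ext2 (by simp [L0]) (by simp [L1])]))
  · obtain ⟨ρ, r0, r1, r2⟩ := thin hΓ hc h1 (g := fun t => Y 2 - t) (by fun_prop)
      fun p hp e => not_le.1 fun k => h2 (p 2 - Y 2) (by linarith) (by
        rwa [← ext3 (p := p) (q := Y + (p 2 - Y 2) • e3 2) (e.trans (ext2 (by simp) (by simp))) (by simp)])
    obtain ⟨A, A', hA⟩ := ex ((mid (c := Y 0) r0).1.trans (mid r0).2)
    obtain ⟨B, B', hB⟩ := ex ((mid (c := Y 1) r0).1.trans (mid r0).2)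
    obtain ⟨C, C', hC⟩ := ex ((mid (c := Y 2) r0).1.trans (mid r0).2)
    rw [← hw Y _ _ _ _ _ _ (miss r1) (fun p hp k => by linarith [r2 p hp k.1 k.2.1, k.2.2.1])
      (mid r0) (mid r0) (mid r0) _ _ _ _ _ _ hA hB hC]
    refine integral_eq_zero_of_ae (hS.mono fun z hz => ?_)
    by_contra hh
    simp only [Pi.zero_apply, mul_eq_zero, not_or] at hh
    exact hh.1.2 (hC.zero _ (by
      linarith [r2 _ hz (mem_of_d hA hh.1.1.1) (mem_of_d hB hh.1.1.2)]))
  · obtain ⟨ρ, r0, r1, r2⟩ := thin hΓ hc h1 (g := fun t => t - Y 2) (by fun_prop)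
      fun p hp e => not_le.1 fun k => h2 (Y 2 - p 2) (by linarith) (by
        rwa [← ext3 (p := p) (q := Y - (Y 2 - p 2) • e3 2) (e.trans (ext2 (by simp) (by simp))) (by simp)])
    obtain ⟨A, A', hA⟩ := ex ((mid (c := Y 0) r0).1.trans (mid r0).2)
    obtain ⟨B, B', hB⟩ := ex ((mid (c := Y 1) r0).1.trans (mid r0).2)
    obtain ⟨C, C', hC⟩ := ex ((mid (c := Y 2) r0).1.trans (mid r0).2)
    rw [← hw Y _ _ _ _ _ _ (miss r1) (fun p hp k => by linarith [r2 p hp k.1 k.2.1, k.2.2.2])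
      (mid r0) (mid r0) (mid r0) _ _ _ _ _ _ hA hB hC]
    refine (integral_congr_ae (hS.mono fun z hz => ?_)).trans
      (hD (prj Y) ρ r0 (by simpa using r1) A A' B B' (by simpa using hA) (by simpa using hB))
    by_cases hh : A' (z.1 0) * B' (z.1 1) = 0
    · simp only [hh, zero_mul]
    · rw [mul_eq_zero, not_or] at hh
      simp only [hC.one _ (by linarith [r2 _ hz (mem_of_d hA hh.1) (mem_of_d hB hh.2)] :
        Y 2 + ρ ≤ z.1 2), mul_one]

end Pool.Agent.P.MP_a07190_gt.Gr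

end

section

/-!
The degree formula for continuous test functions.
-/

open scoped Manifold ContDiff RealInnerProductSpace Topology
open Set MeasureTheory Filter Metric

namespace Pool.Agent.P.MP_a07190_gt.Gr

open Wk

namespace TgA

theorem scale {g g' : ℝ → ℝ} (h : C1 g g') (a b c : ℝ) :
    C1 (fun t => g (a * (t - c)) * b) (fun t => g' (a * (t - c)) * a * b) :=
  ⟨fun t => by
    have := ((h.hd (a * (t - c))).comp t (((hasDerivAt_id t).sub_const c).const_mul a)).mul_const b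
    rw [mul_one] at this
    exact this,
    ((h.hc.comp (by fun_prop)).mul continuous_const).mul continuous_const⟩

variable {S S' S'' : ℝ → ℝ} {K : ℝ}

theorem stp (h : Step (-1) 1 S S' S'' K) {r : ℝ} (hr : 0 < r) (c : ℝ) :
    Stp (c - r) (c + r) (fun t => S (r⁻¹ * (t - c))) fun t => S' (r⁻¹ * (t - c)) * r⁻¹ where
  c1 := by simpa using scale h.c1 r⁻¹ 1 c
  c2 := ⟨_, scale h.c2 r⁻¹ r⁻¹ c⟩
  zero t ht := h.zero _ (by rw [inv_mul_le_iff₀ hr]; linarith)
  one t ht := h.one _ (by rw [le_inv_mul_iff₀ hr]; linarith)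
  dz t ht := by
    rw [h.dz _ fun e => ht ?_, zero_mul]
    have e1 := (le_inv_mul_iff₀ hr).1 e.1
    have e2 := (inv_mul_le_iff₀ hr).1 e.2
    exact ⟨by linarith, by linarith⟩

theorem int_one (h : Step (-1) 1 S S' S'' K) : ∫ u : E2, S' (u 0) * S' (u 1) = 1 := by
  have e : ∫ t, S' t = 1 := by
    rw [← intervalIntegral.integral_eq_integral_of_support_subset (a := -2) (b := 1)
      (fun t ht => by
        have : t ∈ Icc (-1 : ℝ) 1 := by_contra fun e => ht (h.dz t e)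
        exact ⟨by linarith [this.1], this.2⟩),
      intervalIntegral.integral_eq_sub_of_hasDerivAt (fun t _ => h.c1.hd t)
        (h.c1.hc.intervalIntegrable _ _), h.one 1 le_rfl, h.zero (-2) (by norm_num), sub_zero]
  rw [← ptE_mp.integral_comp' fun u : E2 => S' (u 0) * S' (u 1)]
  simp only [ptE_eq, pt_0, pt_1]
  rw [Measure.volume_eq_prod, integral_prod_mul, e, mul_one]

theorem chg (G k : E2 → ℝ) {r : ℝ} (hr : 0 < r) (x : E2) :
    ∫ y, G y * (k (r⁻¹ • (x - y)) * r⁻¹ ^ 2) = ∫ u, G (x - r • u) * k u := by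
  have e : ∀ y, G y * (k (r⁻¹ • (x - y)) * r⁻¹ ^ 2)
      = (fun w => (fun u => G (x - r • u) * k u) (r⁻¹ • w)) (x - y) * r⁻¹ ^ 2 := fun y => by
    simp only [smul_inv_smul₀ hr.ne', sub_sub_cancel, mul_assoc]
  simp only [e]
  rw [integral_mul_const, integral_sub_left_eq_self
    (fun w => (fun u => G (x - r • u) * k u) (r⁻¹ • w)) volume x,
    Measure.integral_comp_inv_smul_of_nonneg volume (fun u => G (x - r • u) * k u) hr.le,
    finrank_euclideanSpace_fin, smul_eq_mul]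
  field_simp

end TgA

theorem p_TG : S_TG := by
  intro Γ ν d hΓ hB _ hD G hG hc hs
  have := hB.fin
  obtain ⟨S, S', S'', K, h⟩ := exists_step (show (-1 : ℝ) < 1 by norm_num)
  set k : E2 → ℝ := fun u => S' (u 0) * S' (u 1) with hk
  have k1 : ∫ u, k u = 1 := TgA.int_one h
  have ki : Integrable k := Integrable.of_integral_ne_zero (k1.trans_ne one_ne_zero)
  have kc : Continuous k := (h.c1.hc.comp (by fun_prop)).mul (h.c1.hc.comp (by fun_prop))
  have kb : ∀ u, ‖k u‖ ≤ K * K := fun u => (norm_mul _ _).trans_le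
    (mul_le_mul (h.b1 _) (h.b1 _) (norm_nonneg _) ((abs_nonneg _).trans (h.b1 0)))
  obtain ⟨C, hC⟩ := hG.bounded_above_of_compact_support hc
  have gb : ∀ (p : ℝ × E2) (u : E2), ‖G (p.2 - p.1 • u) * k u‖ ≤ C * ‖k u‖ := fun p u =>
    (norm_mul _ _).trans_le (mul_le_mul_of_nonneg_right (hC _) (norm_nonneg _))
  have gc : Continuous fun p : ℝ × E2 => ∫ u, G (p.2 - p.1 • u) * k u :=
    continuous_of_dominated (fun p => Continuous.aestronglyMeasurable (by fun_prop))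
      (fun p => Eventually.of_forall (gb p)) (ki.norm.const_mul C)
      (Eventually.of_forall fun u => by fun_prop)
  have pc : Continuous fun z : E3 × E3 => prj z.1 := cont_prj.comp continuous_fst
  have Fc : Continuous fun r : ℝ => ∫ z, (∫ u, G (prj z.1 - r • u) * k u) * z.2 2 ∂ν :=
    continuous_of_dominated (bound := fun z => (∫ u, C * ‖k u‖) * ‖z.2 2‖)
      (fun r => ((gc.comp (continuous_const.prodMk pc)).mul (by fun_prop)).aestronglyMeasurable)
      (fun r => Eventually.of_forall fun z => (norm_mul _ _).trans_le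
        (mul_le_mul_of_nonneg_right (norm_integral_le_of_norm_le (ki.norm.const_mul C)
          (Eventually.of_forall (gb (r, prj z.1)))) (norm_nonneg _)))
      (hB.integrable (by fun_prop))
      (Eventually.of_forall fun z => (gc.comp (continuous_id.prodMk continuous_const)).mul
        continuous_const)
  obtain ⟨δ, hδ, hT⟩ := hc.isCompact.exists_cthickening_subset_open hΓ.isOpen_compl hs
  have key : ∀ r ∈ Ioo (0 : ℝ) (δ / 2),
      ∫ z, (∫ u, G (prj z.1 - r • u) * k u) * z.2 2 ∂ν = ∫ y, G y * d y := fun r hr => by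
    have e1 : ∀ y, G y * d y
        = ∫ z, G y * (k (r⁻¹ • (prj z.1 - y)) * r⁻¹ ^ 2) * z.2 2 ∂ν := fun y => by
      by_cases hy : y ∈ tsupport G
      · rw [← hD y r hr.1 (fun q hq => ?_) _ _ _ _ (TgA.stp h hr.1 _) (TgA.stp h hr.1 _),
          ← integral_const_mul]
        · refine integral_congr_ae (Eventually.of_forall fun z => ?_)
          simp only [hk, PiLp.smul_apply, PiLp.sub_apply, prj_0, prj_1, smul_eq_mul]
          ring
        · by_contra e
          push Not at e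
          refine hT (mem_cthickening_of_dist_le q y δ _ hy ?_) hq
          refine (abs_le_of_sq_le_sq' ?_ hδ.le).2
          rw [dist_eq_norm, EuclideanSpace.real_norm_sq_eq, Fin.sum_univ_two, PiLp.sub_apply,
            PiLp.sub_apply]
          nlinarith [sq_le_sq' (abs_le.1 e.1).1 (abs_le.1 e.1).2,
            sq_le_sq' (abs_le.1 e.2).1 (abs_le.1 e.2).2, hr.1, hr.2]
      · simp only [image_eq_zero_of_notMem_tsupport hy, zero_mul, integral_zero]
    simp only [e1]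
    rw [integral_integral_swap]
    · refine integral_congr_ae (Eventually.of_forall fun z => ?_)
      simp only
      rw [integral_mul_const, TgA.chg G k hr.1]
    · have c1 : Continuous fun p : E2 × E3 × E3 => prj p.2.1 := pc.comp continuous_snd
      refine (((hG.integrable_of_hasCompactSupport hc).norm.mul_prod (hB.integrable
        (F := fun z => K * K * ‖r⁻¹ ^ 2‖ * ‖z.2 2‖) (by fun_prop)))).mono'
        (Continuous.aestronglyMeasurable (by unfold Function.uncurry; fun_prop))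
        (Eventually.of_forall fun p => ?_)
      simp only [Function.uncurry, norm_mul, mul_assoc]
      rw [← mul_assoc K]
      gcongr
      exact kb _
  have l1 := Fc.continuousAt.tendsto.mono_left (nhdsWithin_le_nhds (a := (0 : ℝ)) (s := Ioi 0))
  have l2 := tendsto_nhds_unique l1 (tendsto_const_nhds.congr' (by
    filter_upwards [Ioo_mem_nhdsGT (half_pos hδ)] with r hr using (key r hr).symm))
  simpa only [zero_smul, sub_zero, integral_const_mul, k1, mul_one] using l2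

end Pool.Agent.P.MP_a07190_gt.Gr

end

section

open scoped Manifold ContDiff RealInnerProductSpace Topology
open Set MeasureTheory Filter Metric

namespace Pool.Agent.P.MP_a07190_gt.Gr

open Wk

namespace GphA

/-- the numerator of the mean curvature -/
noncomputable def mcn (D L : E2 →L[ℝ] E3) : ℝ :=
  (-⟪D (ev 0), L (ev 0)⟫) * ⟪L (ev 1), L (ev 1)⟫
    - (-(⟪D (ev 0), L (ev 1)⟫ + ⟪D (ev 1), L (ev 0)⟫)) * ⟪L (ev 0), L (ev 1)⟫
    + (-⟪D (ev 1), L (ev 1)⟫) * ⟪L (ev 0), L (ev 0)⟫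

theorem mcn_comp (D L : E2 →L[ℝ] E3) (B : E2 →L[ℝ] E2) :
    mcn (D.comp B) (L.comp B) = det2 B ^ 2 * mcn D L := by
  simp only [mcn, det2, ContinuousLinearMap.comp_apply, map_decomp L (B _), map_decomp D (B _),
    inner_add_left, inner_add_right, inner_smul_left, inner_smul_right, conj_trivial,
    real_inner_comm (L (ev 0)) (L (ev 1))]
  ring

theorem coord3 {P : E2 → E3} {L : E2 →L[ℝ] E3} {z : E2} (h : HasFDerivAt P L z) (i : Fin 3) :
    HasFDerivAt (fun z => P z i) ((EuclideanSpace.proj i : E3 →L[ℝ] ℝ).comp L) z :=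
  (EuclideanSpace.proj i : E3 →L[ℝ] ℝ).hasFDerivAt.comp z h

theorem pde_of {O : Set E2} (hO : IsOpen O) {P n : E2 → E3} {L D : E2 → E2 →L[ℝ] E3} {s H : ℝ}
    (hs : |s| = 1) (hu : ContDiffOn ℝ 2 (fun z => P z 2) O)
    (hP : ∀ z ∈ O, HasFDerivAt P (L z) z) (hn : ∀ z ∈ O, HasFDerivAt n (D z) z)
    (hp : ∀ z ∈ O, prj (P z) = z) (h1 : ∀ z ∈ O, ‖n z‖ = 1)
    (hperp : ∀ z ∈ O, ∀ v, ⟪n z, L z v⟫ = 0) (hpos : ∀ z ∈ O, 0 < s * n z 2)
    (hH : ∀ z ∈ O, mcn (D z) (L z) = 2 * H * gram (L z)) {z : E2} (hz : z ∈ O) :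
    n z 0 = -(d1 (fun z => P z 2) z 0) * n z 2 ∧ n z 1 = -(d1 (fun z => P z 2) z 1) * n z 2 ∧
      Pde (s * H) (fun z => P z 2) z := by
  set u : E2 → ℝ := fun z => P z 2 with hud
  have hL : ∀ z ∈ O, ∀ v, L z v 0 = v 0 ∧ L z v 1 = v 1 ∧ L z v 2 = fderiv ℝ u z v := by
    intro z hz v
    have a : HasFDerivAt (fun z => prjL (P z)) (prjL.comp (L z)) z :=
      prjL.hasFDerivAt.comp z (hP z hz)
    have b : HasFDerivAt (fun z => prjL (P z)) (ContinuousLinearMap.id ℝ E2) z :=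
      (hasFDerivAt_id z).congr_of_eventuallyEq
        (by filter_upwards [hO.mem_nhds hz] with y hy using hp y hy)
    have c : prj (L z v) = v := congrArg (fun A : E2 →L[ℝ] E2 => A v) (a.unique b)
    refine ⟨by simpa using congrArg (fun w : E2 => w 0) c,
      by simpa using congrArg (fun w : E2 => w 1) c, ?_⟩
    rw [(coord3 (hP z hz) 2).fderiv]; rfl
  have k0 : ∀ z ∈ O, n z 0 + n z 2 * fderiv ℝ u z (ev 0) = 0 := fun z hz => by
    have := hperp z hz (ev 0)
    obtain ⟨a, b, c⟩ := hL z hz (ev 0)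
    rw [inner3, a, b, c] at this
    simpa using this
  have k1 : ∀ z ∈ O, n z 1 + n z 2 * fderiv ℝ u z (ev 1) = 0 := fun z hz => by
    have := hperp z hz (ev 1)
    obtain ⟨a, b, c⟩ := hL z hz (ev 1)
    rw [inner3, a, b, c] at this
    simpa using this
  have hu2 : ContDiffAt ℝ 2 u z := hu.contDiffAt (hO.mem_nhds hz)
  have hd : HasFDerivAt (fderiv ℝ u) (fderiv ℝ (fderiv ℝ u) z) z :=
    ((hu2.fderiv_right (m := 1) le_rfl).differentiableAt one_ne_zero).hasFDerivAt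
  have dd : ∀ (j : Fin 3) (w : E2), (∀ z ∈ O, n z j + n z 2 * fderiv ℝ u z w = 0) → ∀ v,
      D z v j + (n z 2 * fderiv ℝ (fderiv ℝ u) z v w + fderiv ℝ u z w * D z v 2) = 0 := by
    intro j w hw v
    have a := (coord3 (hn z hz) j).add ((coord3 (hn z hz) 2).mul
      ((ContinuousLinearMap.apply ℝ ℝ w).hasFDerivAt.comp z hd))
    have b : HasFDerivAt (fun z => n z j + n z 2 * fderiv ℝ u z w) (0 : E2 →L[ℝ] ℝ) z :=
      (hasFDerivAt_const (0 : ℝ) z).congr_of_eventuallyEq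
        (by filter_upwards [hO.mem_nhds hz] with y hy using hw y hy)
    exact congrArg (fun A : E2 →L[ℝ] ℝ => A v) (a.unique b)
  have sy : d2 u z 1 0 = d2 u z 0 1 :=
    (hu2.isSymmSndFDerivAt (by simp)).eq _ _
  have e00 := dd 0 _ k0 (ev 0)
  have e10 := dd 0 _ k0 (ev 1)
  have e01 := dd 1 _ k1 (ev 0)
  have e11 := dd 1 _ k1 (ev 1)
  have n0 := k0 z hz
  have n1 := k1 z hz
  have hH' := hH z hz
  have un := unit3 (h1 z hz)
  have ps := hpos z hz
  obtain ⟨a0, a1, a2⟩ := hL z hz (ev 0)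
  obtain ⟨b0, b1, b2⟩ := hL z hz (ev 1)
  simp only [mcn, gram, inner3, a0, a1, a2, b0, b1, b2, ev_00, ev_01, ev_10, ev_11] at hH'
  simp only [d2] at sy
  rw [sy] at e10
  refine ⟨by simp only [d1]; linarith, by simp only [d1]; linarith, ?_⟩
  simp only [Pde, d1, d2]
  set p := fderiv ℝ u z (ev 0)
  set q := fderiv ℝ u z (ev 1)
  set r00 := fderiv ℝ (fderiv ℝ u) z (ev 0) (ev 0)
  set r01 := fderiv ℝ (fderiv ℝ u) z (ev 0) (ev 1)
  set r11 := fderiv ℝ (fderiv ℝ u) z (ev 1) (ev 1)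
  set W := √(1 + p ^ 2 + q ^ 2) with hW
  have W0 : 0 ≤ W := Real.sqrt_nonneg _
  have W2 : W ^ 2 = 1 + p ^ 2 + q ^ 2 := Real.sq_sqrt (by positivity)
  have s2 : s ^ 2 = 1 := by rw [← sq_abs, hs]; norm_num
  have nW2 : (s * n z 2 * W) ^ 2 = 1 := by
    have e0 : n z 0 = -(n z 2 * p) := by linarith
    have e1 : n z 1 = -(n z 2 * q) := by linarith
    rw [e0, e1] at un
    rw [mul_pow, mul_pow, W2, s2]
    linear_combination un
  have nW : s * n z 2 * W = 1 := by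
    have : 0 ≤ s * n z 2 * W := mul_nonneg ps.le W0
    nlinarith
  have key : n z 2 * ((1 + q ^ 2) * r00 - 2 * (p * q) * r01 + (1 + p ^ 2) * r11)
      = 2 * H * W ^ 2 := by
    rw [W2]
    linear_combination hH' + (1 + q ^ 2) * e00 - p * q * e01 - p * q * e10 + (1 + p ^ 2) * e11
  linear_combination s * W * key
    - ((1 + q ^ 2) * r00 - 2 * (p * q) * r01 + (1 + p ^ 2) * r11) * nW

end GphA

open GphA

theorem p_GPH : S_GPH := by
  intro M _ _ _ f N H h m hm hN V0 hV0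
  have h1 : ContMDiffOn (𝓡∂ 2) 𝓘(ℝ, E3) 1 f (Inn M) := ContMDiff.contMDiffOn h.c1
  have hy0 : ch m m ∈ Tp m := mem_Tp (mem_extChartAt_source m) hm
  have hF : ContDiffOn ℝ 2 (f ∘ (ch m).symm) (Tp m) := contDiffOn_Tp2 h.c2 m
  have hG : ContDiffAt ℝ 2 (fun y => prjL ((f ∘ (ch m).symm) y)) (ch m m) :=
    prjL.contDiff.contDiffAt.comp _ (hF.contDiffAt ((isOpen_Tp m).mem_nhds hy0))
  have hdet : (prjL.comp (dif f m)).det ≠ 0 := by
    rw [det2_eq]
    have a := (cross_eq (h.unit m hm) (h.perp m hm (ev 0)) (h.perp m hm (ev 1))).2.2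
    have b := den_ne_zero (h.immersion m hm) (h.unit m hm) (h.perp m hm)
    have c : det2 (prjL.comp (dif f m)) = den (dif f m) (N m) * N m 2 := by
      rw [den, ← a]; simp [det2, mul_comm]
    rw [c]; exact mul_ne_zero b hN
  have hG' : HasFDerivAt (fun y => prjL ((f ∘ (ch m).symm) y))
      (((prjL.comp (dif f m)).toContinuousLinearEquivOfDetNeZero hdet : E2 ≃L[ℝ] E2) :
        E2 →L[ℝ] E2) (ch m m) := prjL.hasFDerivAt.comp _ (hasFD_int h1 hm)
  have hne : (2 : WithTop ℕ∞) ≠ 0 := two_ne_zero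
  obtain ⟨Φ, hΦ, hsrc, hψ⟩ : ∃ Φ : OpenPartialHomeomorph E2 E2,
      (∀ y, Φ y = prj (f ((ch m).symm y))) ∧ ch m m ∈ Φ.source ∧
      ContDiffAt ℝ 2 Φ.symm (Φ (ch m m)) :=
    ⟨hG.toOpenPartialHomeomorph _ hG' hne, fun _ => rfl,
      hG.mem_toOpenPartialHomeomorph_source hG' hne, hG.to_localInverse hG' hne⟩
  have e0 : Φ (ch m m) = prj (f m) := by rw [hΦ, extChartAt_to_inv]
  obtain ⟨s, hs, hsN⟩ : ∃ s : ℝ, |s| = 1 ∧ 0 < s * N m 2 := by
    rcases hN.lt_or_gt with a | a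
    · exact ⟨-1, by simp, by linarith⟩
    · exact ⟨1, by simp, by linarith⟩
  have t1 : Tendsto Φ.symm (𝓝 (prj (f m))) (𝓝 (ch m m)) := by
    have := hψ.continuousAt.tendsto
    rwa [Φ.left_inv hsrc, e0] at this
  have t2 : Tendsto (ch m).symm (𝓝 (ch m m)) (𝓝 m) := by
    have := (continuousAt_extChartAt_symm (I := 𝓡∂ 2) m).tendsto
    rwa [extChartAt_to_inv] at this
  have t3 : ∀ᶠ m' in 𝓝 m, 0 < s * N m' 2 := by
    have a : ContinuousAt N m := h.normal_c1.continuousOn.continuousAt (isOpen_Inn.mem_nhds hm)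
    have b : ContinuousAt (fun m' => s * N m' 2) m := by fun_prop
    exact b.eventually (lt_mem_nhds hsN)
  have ev1 : ∀ᶠ z in 𝓝 (prj (f m)), z ∈ Φ.target ∧ ContDiffAt ℝ 2 Φ.symm z ∧ Φ.symm z ∈ Tp m ∧
      (ch m).symm (Φ.symm z) ∈ V0 ∧ 0 < s * N ((ch m).symm (Φ.symm z)) 2 := by
    rw [e0] at hψ
    refine (Filter.Eventually.and ?_ ((hψ.eventually (by simp)).and
      ((t1.eventually ((isOpen_Tp m).mem_nhds hy0)).and
        (((t2.comp t1).eventually hV0).and ((t2.comp t1).eventually t3)))))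
    exact Φ.open_target.mem_nhds (e0 ▸ Φ.map_source hsrc)
  obtain ⟨ρ, hρ, hb⟩ := Metric.eventually_nhds_iff_ball.1 ev1
  set V : Set M := (ch m).source ∩ ch m ⁻¹' (Φ.source ∩ Φ ⁻¹' ball (prj (f m)) ρ) with hV
  have hVm : ∀ m' ∈ V, prj (f m') ∈ ball (prj (f m)) ρ ∧ Φ.symm (prj (f m')) = ch m m' ∧
      (ch m).symm (Φ.symm (prj (f m'))) = m' := by
    rintro m' ⟨a, b, c⟩
    have e : Φ (ch m m') = prj (f m') := by rw [hΦ, (ch m).left_inv a]
    have e' : Φ.symm (prj (f m')) = ch m m' := by rw [← e, Φ.left_inv b]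
    exact ⟨e ▸ c, e', by rw [e', (ch m).left_inv a]⟩
  have hc2 : ContDiffOn ℝ 2 (fun z => ((f ∘ (ch m).symm) ∘ Φ.symm) z 2) (ball (prj (f m)) ρ) :=
    fun z hz => ((EuclideanSpace.proj (2 : Fin 3) : E3 →L[ℝ] ℝ).contDiff.contDiffAt.comp z
      ((hF.contDiffAt ((isOpen_Tp m).mem_nhds (hb z hz).2.2.1)).comp z
        (hb z hz).2.1)).contDiffWithinAt
  have hdψ : ∀ z ∈ ball (prj (f m)) ρ, HasFDerivAt Φ.symm (fderiv ℝ Φ.symm z) z := fun z hz =>
    ((hb z hz).2.1.differentiableAt two_ne_zero).hasFDerivAt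
  have main := fun z (hz : z ∈ ball (prj (f m)) ρ) => pde_of (H := H) isOpen_ball
    (P := (f ∘ (ch m).symm) ∘ Φ.symm) (n := (N ∘ (ch m).symm) ∘ Φ.symm)
    (L := fun z => (dif f ((ch m).symm (Φ.symm z))).comp
      ((chA m (Φ.symm z)).comp (fderiv ℝ Φ.symm z)))
    (D := fun z => (dif N ((ch m).symm (Φ.symm z))).comp
      ((chA m (Φ.symm z)).comp (fderiv ℝ Φ.symm z))) hs hc2
    (fun z hz => (hasFD_Tp h1 (hb z hz).2.2.1).comp z (hdψ z hz))
    (fun z hz => (hasFD_Tp h.normal_c1 (hb z hz).2.2.1).comp z (hdψ z hz))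
    (fun z hz => (hΦ _).symm.trans (Φ.right_inv (hb z hz).1))
    (fun z hz => h.unit _ (symm_mem (hb z hz).2.2.1))
    (fun z hz v => h.perp _ (symm_mem (hb z hz).2.2.1) _)
    (fun z hz => (hb z hz).2.2.2.2)
    (fun z hz => by
      have a := symm_mem (hb z hz).2.2.1
      have b : mcn (dif N ((ch m).symm (Φ.symm z))) (dif f ((ch m).symm (Φ.symm z)))
        / (2 * gram (dif f ((ch m).symm (Φ.symm z)))) = H := h.cmc _ a
      rw [div_eq_iff (mul_ne_zero two_ne_zero (gram_pos (h.immersion _ a)).ne')] at b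
      rw [mcn_comp, gram_comp, b]
      ring) hz
  refine ⟨V, ρ, fun z => ((f ∘ (ch m).symm) ∘ Φ.symm) z 2, s, fun m' hm' => ?_,
    (continuousOn_extChartAt m).isOpen_inter_preimage (isOpen_extChartAt_source m)
      (Φ.isOpen_inter_preimage isOpen_ball),
    ⟨mem_extChartAt_source m, hsrc, by rw [mem_preimage, e0]; exact mem_ball_self hρ⟩,
    fun m' hm' => ?_, hρ, hs, hc2, ⟨fun m' hm' => (hVm m' hm').1, fun a ha b hb' e => ?_,
      fun z hz => ?_⟩, fun m' hm' => ?_, fun m' hm' => ?_, fun z hz => (main z hz).2.2⟩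
  · obtain ⟨a, -, c⟩ := hVm m' hm'
    exact c ▸ (hb _ a).2.2.2.1
  · obtain ⟨a, -, c⟩ := hVm m' hm'
    exact c ▸ symm_mem (hb _ a).2.2.1
  · have e' : prj (f a) = prj (f b) := e
    rw [← (hVm a ha).2.2, e', (hVm b hb').2.2]
  · obtain ⟨a, -, c, -⟩ := hb z hz
    refine ⟨(ch m).symm (Φ.symm z), ⟨(ch m).map_target c.1, ?_⟩,
      (hΦ _).symm.trans (Φ.right_inv a)⟩
    rw [mem_preimage, (ch m).right_inv c.1]
    exact ⟨Φ.map_target a, by rw [mem_preimage, Φ.right_inv a]; exact hz⟩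
  · simp only [Function.comp_apply, (hVm m' hm').2.2]
  · obtain ⟨a, -, c⟩ := hVm m' hm'
    have k := main _ a
    have k' := (hb _ a).2.2.2.2
    simp only [Function.comp_apply, c] at k k' ⊢
    exact ⟨k', k.1, k.2.1⟩

end Pool.Agent.P.MP_a07190_gt.Gr

end

section

/-! Steps BINJ and LDEG. -/

open scoped Manifold ContDiff RealInnerProductSpace Topology
open Set MeasureTheory Filter Metric

namespace Pool.Agent.P.MP_a07190_gt.Gr

open Wk

namespace BinjA

theorem ker_bot {L : E2 →L[ℝ] E3} {n : E3} (h : Function.Injective L) (hp : ∀ u, ⟪n, L u⟫ = 0)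
    (hn : n 2 ≠ 0) : LinearMap.ker (prjL.comp L : E2 →ₗ[ℝ] E2) = ⊥ := by
  rw [LinearMap.ker_eq_bot']
  intro u hu
  have h0 : prj (L u) = prj 0 := hu.trans prjL.map_zero.symm
  have h1 : L u 0 = 0 := by simpa using congrArg (fun v : E2 => v 0) h0
  have h2 : L u 1 = 0 := by simpa using congrArg (fun v : E2 => v 1) h0
  have h3 := hp u
  rw [inner3, h1, h2, mul_zero, mul_zero, add_zero, zero_add, mul_eq_zero] at h3
  exact h ((ext3 h0 (h3.resolve_left hn)).trans L.map_zero.symm)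

theorem sgn {s t : ℝ} (hs : |s| = 1) (h : 0 < s * t) : s * |t| = t := by
  have h1 : |t| = s * t := by rw [← abs_of_pos h, abs_mul, hs, one_mul]
  have h2 : s * s = 1 := by rw [← abs_mul_abs_self, hs, one_mul]
  rw [h1, ← mul_assoc, h2, one_mul]

theorem jac_det {L : E2 →L[ℝ] E3} {n : E3} {s : ℝ} (hn : ‖n‖ = 1) (hp : ∀ u, ⟪n, L u⟫ = 0)
    (hs : |s| = 1) (h : 0 < s * n 2) : jac L * n 2 = s * |(prjL.comp L).det| := by
  have e : (prjL.comp L).det = den L n * n 2 := by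
    rw [det2_eq, den, ← (cross_eq hn (hp (ev 0)) (hp (ev 1))).2.2]
    simp only [det2, ContinuousLinearMap.comp_apply, prjL_apply, prj_0, prj_1]
    ring
  rw [e, abs_mul, abs_den hn hp, mul_left_comm, sgn hs h]

end BinjA

theorem p_BINJ : S_BINJ := by
  intro M _ _ _ _ f N H h x hN hx
  have hy0 := mem_extChartAt_target (I := 𝓡∂ 2) x
  have hk := BinjA.ker_bot (h.inj_ch hy0) (h.perp_ch hy0) (by rwa [extChartAt_to_inv])
  obtain ⟨K, hK, hA⟩ := LinearMap.exists_antilipschitzWith _ hk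
  have hK' : (0 : ℝ) < K := hK
  have hc : ContinuousOn (fun y => prjL.comp (chartDif f x y)) (ch x).target :=
    continuousOn_const.clm_comp (continuousOn_chartDif h.c1 x)
  have h1 : ∀ᶠ y in 𝓝[(ch x).target] (ch x x), y ∈ (ch x).target ∧
      dist (prjL.comp (chartDif f x y)) (prjL.comp (chartDif f x (ch x x))) < 1 / (2 * K) :=
    eventually_mem_nhdsWithin.and (Metric.tendsto_nhds.1 (hc _ hy0) _ (by positivity))
  rw [nhdsWithin_extChartAt_target_eq] at h1
  obtain ⟨ε, hε, h2⟩ := Metric.mem_nhdsWithin_iff.1 h1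
  have hcv : Convex ℝ (ball (ch x x) ε ∩ range (𝓡∂ 2)) :=
    (convex_ball _ _).inter (𝓡∂ 2).convex_range
  have hinj : InjOn (prjL ∘ f ∘ (ch x).symm) (ball (ch x x) ε ∩ range (𝓡∂ 2)) := by
    intro a ha b hb e
    have h3 := hcv.norm_image_sub_le_of_norm_hasFDerivWithin_le' (C := 1 / (2 * K))
      (φ := prjL.comp (chartDif f x (ch x x)))
      (fun y hy => prjL.hasFDerivAt.comp_hasFDerivWithinAt y
        ((hasFD_ch h.c1 (h2 hy).1).mono inter_subset_right))
      (fun y hy => by rw [← dist_eq_norm]; exact (h2 hy).2.le) ha hb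
    rw [e, sub_self, zero_sub, norm_neg] at h3
    have h4 : ‖b - a‖ ≤ K * ‖prjL.comp (chartDif f x (ch x x)) (b - a)‖ :=
      ZeroHomClass.bound_of_antilipschitz _ hA (b - a)
    have h5 := mul_le_mul_of_nonneg_left h3 hK'.le
    have h6 : (K : ℝ) * (1 / (2 * K) * ‖b - a‖) = ‖b - a‖ / 2 := by field_simp
    exact (sub_eq_zero.1 (norm_le_zero_iff.1 (by linarith))).symm
  have hcN : Continuous fun m => N m 2 * N x 2 := by
    have := h.cont
    fun_prop
  have hV : {m | m ∈ (ch x).source ∧ ch x m ∈ ball (ch x x) ε ∧ 0 < N m 2 * N x 2} ∈ 𝓝 x :=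
    inter_mem (extChartAt_source_mem_nhds x) (inter_mem
      ((continuousAt_extChartAt x).preimage_mem_nhds (ball_mem_nhds _ hε))
      ((isOpen_lt continuous_const hcN).mem_nhds (mul_self_pos.2 hN)))
  obtain ⟨V, hV1, hV2, hV3⟩ := _root_.mem_nhds_iff.1 hV
  have hcl : IsClosed ((fun m => prj (f m)) '' Vᶜ) :=
    (hV2.isClosed_compl.isCompact.image (cont_prj.comp h.c1.continuous)).isClosed
  have hin : ∀ m, prj (f m) ∈ ((fun m => prj (f m)) '' Vᶜ)ᶜ → m ∈ V := fun m hm => by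
    by_contra h0
    exact hm ⟨m, h0, rfl⟩
  refine ⟨_, hcl.isOpen_compl, fun ⟨m, h0, e⟩ => h0 (hx m e ▸ hV3), fun a ha b hb e => ?_,
    fun m hm => (hV1 (hin m hm)).2.2⟩
  obtain ⟨a1, a2, -⟩ := hV1 (hin a ha)
  obtain ⟨b1, b2, -⟩ := hV1 (hin b hb)
  refine (ch x).injOn a1 b1 (hinj ⟨a2, tgt_sub x ((ch x).map_source a1)⟩
    ⟨b2, tgt_sub x ((ch x).map_source b1)⟩ ?_)
  simpa only [Function.comp_apply, (ch x).left_inv a1, (ch x).left_inv b1, prjL_apply] using e

theorem p_LDEG (hGPH : S_GPH) (hNU : S_NU) (hINT : S_INT) : S_LDEG := by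
  intro M _ _ _ _ _ _ _ f N H h Γ d hΓ hd hD m hm hmΓ s hs hsN U hU hinj
  obtain ⟨V, ρ, u, s', hV, G⟩ := hGPH M f N H h m hm (right_ne_zero_of_mul hsN.ne') _
    (extChartAt_source_mem_nhds (I := 𝓡∂ 2) m)
  have es : s' = s := mul_right_cancel₀ (abs_ne_zero.2 (right_ne_zero_of_mul hsN.ne'))
    ((BinjA.sgn G.abs (G.nrm m G.mem).1).trans (BinjA.sgn hs hsN).symm)
  subst es
  obtain ⟨g, g1, g2, g3, g4, g5⟩ := exists_contDiff_tsupport_subset (n := 0)
    (inter_mem (inter_mem (ball_mem_nhds (prj (f m)) G.pos) hU)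
      (inter_mem (hΓ.isOpen_compl.mem_nhds hmΓ) (hd _ hmΓ)))
  have gc := g3.continuous
  have gs : ∀ y, g y ≠ 0 → y ∈ tsupport g := fun y hy => subset_tsupport g hy
  have hpos : 0 < ∫ y, g y := gc.integral_pos_of_hasCompactSupport_nonneg_nonzero g2
    (fun y => (g4 (mem_range_self y)).1) (x := prj (f m)) (by rw [g5]; exact one_ne_zero)
  have e1 := hD g gc g2 fun y hy => (g1 hy).2.1
  have e2 : ∫ y, g y * d y = (∫ y, g y) * d (prj (f m)) := by
    rw [← integral_mul_const]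
    refine integral_congr_ae (Eventually.of_forall fun y => ?_)
    by_cases h0 : g y = 0
    · simp only [h0, zero_mul]
    · exact congrArg (g y * ·) (g1 (gs y h0)).2.2
  have hF : Continuous fun z : E3 × E3 => g (prj z.1) * z.2 2 :=
    (gc.comp (cont_prj.comp continuous_fst)).mul (by fun_prop)
  have e3 := ((hNU M f N H h).2.1 _ hF).2
  have hin : ∀ m', g (prj (f m')) ≠ 0 → m' ∈ V := fun m' h0 => by
    obtain ⟨⟨h1, h2⟩, -⟩ := g1 (gs _ h0)
    obtain ⟨v, hv, e⟩ := G.bij.surjOn h1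
    have e' : prj (f v) = prj (f m') := e
    exact hinj (show prj (f v) ∈ U from e' ▸ h2) h2 e ▸ hv
  have hS : MeasurableSet (Tp m ∩ (ch m).symm ⁻¹' V) :=
    (((continuousOn_extChartAt_symm m).mono fun _ hy => hy.1).isOpen_inter_preimage (isOpen_Tp m)
      G.op).measurableSet
  have hder : ∀ y ∈ Tp m ∩ (ch m).symm ⁻¹' V, HasFDerivWithinAt (prjL ∘ f ∘ (ch m).symm)
      (prjL.comp (chartDif f m y)) (Tp m ∩ (ch m).symm ⁻¹' V) y := fun y hy =>
    (prjL.hasFDerivAt.comp y (hasFD_Tp' h.c1.contMDiffOn hy.1)).hasFDerivWithinAt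
  have hi : InjOn (prjL ∘ f ∘ (ch m).symm) (Tp m ∩ (ch m).symm ⁻¹' V) := fun a ha b hb e =>
    (ch m).symm.injOn ha.1.1 hb.1.1 (G.bij.injOn ha.2 hb.2 e)
  have him : (prjL ∘ f ∘ (ch m).symm) '' (Tp m ∩ (ch m).symm ⁻¹' V) = ball (prj (f m)) ρ := by
    refine Subset.antisymm ?_ fun y hy => ?_
    · rintro _ ⟨y, hy, rfl⟩
      exact G.bij.mapsTo hy.2
    · obtain ⟨v, hv, rfl⟩ := G.bij.surjOn hy
      have e := (ch m).left_inv (hV hv)
      exact ⟨ch m v, ⟨mem_Tp (hV hv) (G.sub hv), by rwa [mem_preimage, e]⟩, by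
        simp only [Function.comp_apply, e, prjL_apply]⟩
  have e4 := integral_image_eq_integral_abs_det_fderiv_smul volume hS hder hi g
  have i4 := (integrableOn_image_iff_integrableOn_abs_det_fderiv_smul volume hS hder hi g).1
    (gc.integrable_of_hasCompactSupport g2).integrableOn
  rw [him, setIntegral_eq_integral_of_forall_compl_eq_zero fun y hy => by
    by_contra h0
    exact hy (g1 (gs y h0)).1.1] at e4
  have hon : EqOn (fun y => s' * (|(prjL.comp (chartDif f m y)).det| •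
      g ((prjL ∘ f ∘ (ch m).symm) y))) (fun y => jac (chartDif f m y) *
      (g (prj (f ((ch m).symm y))) * N ((ch m).symm y) 2)) (Tp m ∩ (ch m).symm ⁻¹' V) :=
    fun y hy => by
      have := BinjA.jac_det (h.unit _ (symm_mem hy.1)) (h.perp_ch hy.1) hs (G.nrm _ hy.2).1
      simp only [Function.comp_apply, prjL_apply, smul_eq_mul]
      linear_combination (-g (prj (f ((ch m).symm y)))) * this
  have hoff : ∀ y ∈ Tp m \ (Tp m ∩ (ch m).symm ⁻¹' V), jac (chartDif f m y) *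
      (g (prj (f ((ch m).symm y))) * N ((ch m).symm y) 2) = 0 := fun y hy => by
    by_cases h0 : g (prj (f ((ch m).symm y))) = 0
    · rw [h0, zero_mul, mul_zero]
    · exact (hy.2 ⟨hy.1, hin _ h0⟩).elim
  have c5 : ContinuousOn (fun m' => g (prj (f m')) * N m' 2) (Inn M) :=
    (gc.comp (cont_prj.comp h.c1.continuous)).continuousOn.mul
      ((show Continuous fun p : E3 => p 2 by fun_prop).comp_continuousOn h.normal_c1.continuousOn)
  have i5 := (IntegrableOn.congr_fun (i4.const_mul s') hon hS).of_forall_sdiff_eq_zero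
    (isOpen_Tp m).measurableSet hoff
  have e5 := (hINT M f h.c1 m (fun m' => g (prj (f m')) * N m' 2) c5 (fun m' _ h1 => by
      by_contra h0
      exact h1 (hV (hin m' (left_ne_zero_of_mul h0)))) i5).2
  rw [setIntegral_eq_of_subset_of_forall_sdiff_eq_zero (isOpen_Tp m).measurableSet
    inter_subset_left hoff, ← setIntegral_congr_fun hS hon, integral_const_mul, ← e4] at e5
  exact mul_left_cancel₀ hpos.ne' (by rw [← e2, ← e1, e3, e5, mul_comm])

end Pool.Agent.P.MP_a07190_gt.Gr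

end

section

/-!
The degree is at most one in absolute value, and the sign function of the surface.
-/

open scoped Manifold ContDiff RealInnerProductSpace Topology
open Set MeasureTheory Filter Metric

namespace Pool.Agent.P.MP_a07190_gt.Gr

open Wk

theorem p_DLE : S_DLE := by
  intro Γ T d hΓ hT h1 h2 h3
  have hc : IsClopen {y | y ∉ Γ ∧ 1 < |d y|} := by
    refine ⟨isOpen_compl_iff.1 (isOpen_iff_mem_nhds.2 fun y hy => ?_),
      isOpen_iff_mem_nhds.2 fun y hy => ?_⟩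
    · by_cases e : y ∈ Γ
      · filter_upwards [h3 y e] with z hz h using (hz h.1).not_gt h.2
      · filter_upwards [h1 y e] with z hz h using hy ⟨e, hz ▸ h.2⟩
    · filter_upwards [h1 y hy.1, hΓ.isClosed.isOpen_compl.mem_nhds hy.1] with z hz hz'
      exact ⟨hz', hz ▸ hy.2⟩
  rcases isClopen_iff.1 hc with e | e
  · exact fun y hy => not_lt.1 fun h => (e ▸ (⟨hy, h⟩ : y ∈ {y | y ∉ Γ ∧ 1 < |d y|}) : y ∈ (∅ : Set E2))
  · obtain ⟨y, hy⟩ := (ne_univ_iff_exists_notMem _).1 (hΓ.union hT).ne_univ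
    rw [mem_union, not_or] at hy
    have := (e ▸ mem_univ y : y ∈ {y | y ∉ Γ ∧ 1 < |d y|}).2
    rw [h2 y hy.1 hy.2, abs_zero] at this
    linarith

namespace EpsA

/-- the sign, with values `1` and `-1` -/
noncomputable def sg (t : ℝ) : ℝ := if 0 < t then 1 else -1

theorem abs_sg (t : ℝ) : |sg t| = 1 := by unfold sg; split_ifs <;> simp

theorem sg_mul {a b : ℝ} (h : 0 < a * b) : 0 < sg b * a ∧ sg a = sg b := by
  rcases pos_and_pos_or_neg_and_neg_of_mul_pos h with ⟨h1, h2⟩ | ⟨h1, h2⟩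
  · simp [sg, h1, h2]
  · simp [sg, h1.not_gt, h2.not_gt, h1]

end EpsA

open EpsA Classical in
theorem p_EPS (hDLE : S_DLE) (hBINJ : S_BINJ) (hLDEG : S_LDEG) : S_EPS := by
  intro M _ _ _ _ _ _ _ f N H h hN Γ d w hΓ hb hS hD hI hB
  have hF : Continuous fun m => prj (f m) := cont_prj.comp h.c1.continuous
  have hbd : ∀ {m : M}, m ∉ Inn M → m ∈ Bdy M := fun hm => not_not.1 (mt int_iff_not_bdy.2 hm)
  have key : ∀ x ∈ Bdy M, ∃ U : Set E2, IsOpen U ∧ prj (f x) ∈ U ∧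
      InjOn (fun m => prj (f m)) {m | prj (f m) ∈ U} ∧ ∀ m, prj (f m) ∈ U →
        0 < N m 2 * N x 2 ∧ (m ∈ Inn M → d (prj (f m)) = sg (N x 2)) := fun x hx => by
    obtain ⟨U, h1, h2, h3, h4⟩ := hBINJ M f N H h x (hB x hx) fun m e =>
      bij_inj hb (hbd fun hm => hI m hm (e ▸ bij_mem hb hx)) hx e
    exact ⟨U, h1, h2, h3, fun m hm => ⟨h4 m hm, fun hm' => hLDEG M f N H h.w Γ d hΓ.isClosed
      hS.dloc hD m hm' (hI m hm') _ (abs_sg _) (sg_mul (h4 m hm)).1 U (h1.mem_nhds hm) h3⟩⟩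
  have h0 : ∀ y ∉ Γ, y ∉ range (fun m => prj (f m)) → d y = 0 := fun y hy hT => by
    have e0 : prj (e3 2) = 0 := ext2 (by simp) (by simp)
    have e1 : prj (toP y) ∉ Γ := by rwa [prj_toP]
    rw [← prj_toP y, ← hS.wdn _ e1, hS.wup _ e1]
    · rintro t - ⟨m, e⟩
      exact hT ⟨m, by simp only [e, prj_add, prj_smul, e0, prj_toP, smul_zero, add_zero]⟩
    · rintro t - ⟨m, e⟩
      exact hT ⟨m, by simp only [e, prj_sub, prj_smul, e0, prj_toP, smul_zero, sub_zero]⟩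
  refine ⟨hDLE Γ _ d hΓ (isCompact_range hF) hS.dloc h0 fun p hp => ?_, ?_⟩
  · obtain ⟨x, hx, rfl⟩ := bij_surj hb hp
    obtain ⟨U, h1, h2, -, h4⟩ := key x hx
    filter_upwards [h1.mem_nhds h2] with y hy hy'
    by_cases e : y ∈ range fun m => prj (f m)
    · obtain ⟨m, rfl⟩ := e
      rw [(h4 m hy).2 (not_not.1 fun hm => hy' (bij_mem hb (hbd hm))), abs_sg]
    · simp [h0 y hy' e]
  obtain ⟨e, he⟩ : ∃ e : M → ℝ, ∀ m, e m = if m ∈ Inn M then d (prj (f m)) else sg (N m 2) :=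
    ⟨_, fun _ => rfl⟩
  have hx : ∀ x ∈ Bdy M, ∀ᶠ m in 𝓝 x, e m = sg (N x 2) ∧ 0 < N m 2 * N x 2 ∧
      ∀ m', prj (f m') = prj (f m) → m' = m := fun x hx => by
    obtain ⟨U, h1, h2, h3, h4⟩ := key x hx
    filter_upwards [(h1.preimage hF).mem_nhds h2] with m hm
    refine ⟨?_, (h4 m hm).1, fun m' e => h3 (show prj (f m') ∈ U from e ▸ hm) hm e⟩
    rw [he]
    split_ifs with hm'
    exacts [(h4 m hm).2 hm', (sg_mul (h4 m hm).1).2]
  have hl : IsLocallyConstant e := (IsLocallyConstant.iff_eventually_eq e).2 fun m => by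
    by_cases hm : m ∈ Inn M
    · filter_upwards [isOpen_Inn.mem_nhds hm, hF.continuousAt.eventually (hS.dloc _ (hI m hm))]
        with m' h1 h2
      rw [he, he, if_pos h1, if_pos hm, h2]
    · filter_upwards [hx m (hbd hm)] with m' h1
      rw [h1.1, he, if_neg hm]
  refine ⟨e, hl, fun m hm => by rw [he, if_pos hm], fun m => ?_, fun x h => ?_⟩
  · have := hN _ ((hl.comp abs).isClopen_fiber 1).compl fun m hm => not_not.1 fun hm' =>
      hm (show |e m| = 1 by rw [he, if_neg hm', abs_sg])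
    exact not_not.1 fun h => (this ▸ h : m ∈ (∅ : Set M))
  · filter_upwards [hx x h] with m hm
    exact ⟨hm.1 ▸ (sg_mul hm.2.1).1, hm.2.2⟩

end Pool.Agent.P.MP_a07190_gt.Gr

end

section

/-!
A bound for the signed projected area from the degree formula.
-/

open scoped Manifold ContDiff RealInnerProductSpace Topology
open Set MeasureTheory Filter Metric

namespace Pool.Agent.P.MP_a07190_gt.Gr

open Wk

namespace DbdA

theorem exists_cut {Γ : Set E2} (hΓ : IsClosed Γ) : ∃ χ : ℕ → E2 → ℝ,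
    (∀ k, Continuous (χ k) ∧ HasCompactSupport (χ k) ∧ tsupport (χ k) ⊆ Γᶜ ∧
      ∀ y, 0 ≤ χ k y ∧ χ k y ≤ 1) ∧ ∀ y ∉ Γ, ∀ᶠ k in atTop, χ k y = 1 := by
  obtain ⟨p, hp, hc, hr⟩ := hΓ.isOpen_compl.exists_contDiff_support_eq (n := 0)
  have hc0 : Continuous p := hc.continuous
  have hr' : ∀ y, 0 ≤ p y ∧ p y ≤ 1 := fun y => hr ⟨y, rfl⟩
  have hq : Continuous fun y : E2 => p y / (1 + ‖y‖) :=
    hc0.div (by fun_prop) fun y => by positivity
  refine ⟨fun k y => min 1 (max 0 (k * (p y / (1 + ‖y‖)) - 1)), fun k => ?_, fun y hy => ?_⟩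
  · have hcl : IsClosed {y : E2 | 1 ≤ k * (p y / (1 + ‖y‖))} :=
      isClosed_le continuous_const (by fun_prop)
    have hsub : tsupport (fun y : E2 => min 1 (max 0 (k * (p y / (1 + ‖y‖)) - 1)))
        ⊆ {y : E2 | 1 ≤ k * (p y / (1 + ‖y‖))} := by
      refine closure_minimal (fun y hy => ?_) hcl
      by_contra h
      apply hy
      have h' : k * (p y / (1 + ‖y‖)) < 1 := not_le.1 h
      show min 1 (max 0 (k * (p y / (1 + ‖y‖)) - 1)) = 0
      rw [max_eq_left (by linarith)]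
      simp
    refine ⟨by fun_prop, ?_, fun y hy hyΓ => ?_, fun y => ⟨?_, min_le_left _ _⟩⟩
    · refine (isCompact_closedBall (0 : E2) k).of_isClosed_subset (isClosed_tsupport _)
        fun y hy => ?_
      have h1 : 1 ≤ k * (p y / (1 + ‖y‖)) := hsub hy
      have h2 : (0 : ℝ) < 1 + ‖y‖ := by positivity
      rw [← mul_div_assoc, le_div_iff₀ h2] at h1
      have h3 : (k : ℝ) * p y ≤ k * 1 := mul_le_mul_of_nonneg_left (hr' y).2 (Nat.cast_nonneg k)
      simp only [mem_closedBall, dist_zero_right]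
      linarith
    · have h1 : 1 ≤ k * (p y / (1 + ‖y‖)) := hsub hy
      have h0 : p y = 0 := by
        by_contra h
        have : y ∈ Function.support p := h
        rw [hp] at this
        exact this hyΓ
      rw [h0] at h1
      norm_num at h1
    · exact le_min zero_le_one (le_max_left _ _)
  · have h0 : 0 < p y := lt_of_le_of_ne (hr' y).1 (Ne.symm (by
      have : y ∈ Function.support p := by rw [hp]; exact hy
      exact this))
    have h1 : 0 < p y / (1 + ‖y‖) := by positivity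
    have h2 : Tendsto (fun k : ℕ => (k : ℝ) * (p y / (1 + ‖y‖))) atTop atTop :=
      tendsto_natCast_atTop_atTop.atTop_mul_const h1
    filter_upwards [h2.eventually_ge_atTop 2] with k hk
    rw [max_eq_right (by linarith), min_eq_left (by linarith)]

end DbdA

open DbdA in
theorem p_DBD (hNUL : S_NUL) (hNU : S_NU) : S_DBD := by
  intro M _ _ _ _ _ _ _ f N H h Γ d e hΓ hd hD hd1 he g hg hgi hg0
  obtain ⟨χ, hχ, hχ1⟩ := exists_cut hΓ
  obtain ⟨-, hF, -⟩ := hNU M f N H h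
  have hae : ∀ᵐ m ∂(area f), m ∈ Inn M := by
    have := hNUL M f h.c1
    refine measure_mono_null (fun m hm => ?_) this
    by_contra h'
    exact hm (int_iff_not_bdy.2 h')
  have hsup : ∀ k, tsupport (fun y => g y * d y * χ k y) ⊆ tsupport (χ k) := fun k =>
    tsupport_mul_subset_right
  have hGc : ∀ k, Continuous fun y => g y * d y * χ k y := fun k => by
    refine continuous_of_tsupport fun y hy => ?_
    have h1 : y ∉ Γ := (hχ k).2.2.1 (hsup k hy)
    have h2 : ContinuousAt d y := (continuousAt_const (y := d y)).congr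
      ((hd y h1).mono fun y' hy' => hy'.symm)
    exact (hg.continuousAt.mul h2).mul (hχ k).1.continuousAt
  have hFc : ∀ G : E2 → ℝ, Continuous G → Continuous fun z : E3 × E3 => G (prj z.1) * z.2 2 :=
    fun G hG => (hG.comp (cont_prj.comp continuous_fst)).mul (by fun_prop)
  have hle : ∀ k, ∫ m, (g (prj (f m)) * d (prj (f m)) * χ k (prj (f m))) * N m 2 ∂(area f)
      ≤ ∫ y, g y := fun k => by
    have h1 := hD _ (hGc k) ((hχ k).2.1.mul_left (f := fun y => g y * d y))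
      ((hsup k).trans (hχ k).2.2.1)
    rw [(hF _ (hFc _ (hGc k))).2] at h1
    simp only at h1
    rw [h1]
    have hb : ∀ y, 0 ≤ g y * d y * χ k y * d y ∧ g y * d y * χ k y * d y ≤ g y := fun y => by
      have e1 : g y * d y * χ k y * d y = g y * (χ k y * d y ^ 2) := by ring
      have h0 := ((hχ k).2.2.2 y).1
      have h2 := ((hχ k).2.2.2 y).2
      rw [e1]
      refine ⟨mul_nonneg (hg0 y) (by positivity), mul_le_of_le_one_right (hg0 y) ?_⟩
      by_cases hy : y ∈ Γ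
      · have : χ k y = 0 := image_eq_zero_of_notMem_tsupport fun h' => (hχ k).2.2.1 h' hy
        rw [this]; simp
      · have h3 : d y ^ 2 ≤ 1 := by
          rw [← sq_abs]
          exact pow_le_one₀ (abs_nonneg _) (hd1 y hy)
        exact mul_le_one₀ h2 (sq_nonneg _) h3
    exact integral_mono_of_nonneg (Eventually.of_forall fun y => (hb y).1) hgi
      (Eventually.of_forall fun y => (hb y).2)
  have hlim : Tendsto
      (fun k => ∫ m, (g (prj (f m)) * d (prj (f m)) * χ k (prj (f m))) * N m 2 ∂(area f)) atTop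
      (𝓝 (∫ m, e m * (g (prj (f m)) * N m 2) ∂(area f))) := by
    refine tendsto_integral_of_dominated_convergence (fun m => ‖g (prj (f m)) * N m 2‖)
      (fun k => (hF _ (hFc _ (hGc k))).1.aestronglyMeasurable) (hF _ (hFc _ hg)).1.norm
      (fun k => ?_) ?_
    · filter_upwards [hae] with m hm
      have h1 := hd1 _ (he m hm).1
      have h0 := ((hχ k).2.2.2 (prj (f m))).1
      have h2 := ((hχ k).2.2.2 (prj (f m))).2
      have e1 : g (prj (f m)) * d (prj (f m)) * χ k (prj (f m)) * N m 2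
          = (d (prj (f m)) * χ k (prj (f m))) * (g (prj (f m)) * N m 2) := by ring
      rw [e1, norm_mul]
      refine mul_le_of_le_one_left (norm_nonneg _) ?_
      rw [Real.norm_eq_abs, abs_mul, abs_of_nonneg h0]
      exact mul_le_one₀ h1 h0 h2
    · filter_upwards [hae] with m hm
      refine tendsto_const_nhds.congr' ?_
      filter_upwards [hχ1 _ (he m hm).1] with k hk
      rw [hk, (he m hm).2]
      ring
  exact le_of_tendsto' hlim hle

end Pool.Agent.P.MP_a07190_gt.Gr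

end
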