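import Pool.Agent.P.MP_a07190_gt.Gr.Iface

section

/-!
The quantitative strong maximum principle.
-/

open scoped Manifold ContDiff RealInnerProductSpace Topology
open Set MeasureTheory Filter Metric

namespace Pool.Agent.P.MP_a07190_gt.Gr

open Wk

namespace HopfA

/-- the second derivative test -/
theorem second {φ φ' : ℝ → ℝ} {q : ℝ} (h1 : ∀ᶠ t in 𝓝 (0 : ℝ), HasDerivAt φ (φ' t) t)
    (h2 : HasDerivAt φ' q 0) (hm : IsLocalMin φ 0) : φ' 0 = 0 ∧ 0 ≤ q := by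
  have e1 : deriv φ =ᶠ[𝓝 0] φ' := h1.mono fun t ht => ht.deriv
  have e0 : deriv φ 0 = 0 := hm.deriv_eq_zero
  have e2 : deriv (deriv φ) 0 = q := e1.deriv_eq.trans h2.deriv
  refine ⟨e1.self_of_nhds.symm.trans e0, not_lt.1 fun hq => ?_⟩
  have hM := isLocalMax_of_deriv_deriv_neg (e2 ▸ hq) e0 h1.self_of_nhds.continuousAt
  have e3 : φ =ᶠ[𝓝 0] fun _ => φ 0 := (hM.and hm).mono fun t ht => le_antisymm ht.1 ht.2
  have e4 := e3.deriv.deriv_eq
  rw [e2] at e4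
  simp [e4] at hq

/-- derivatives along a line -/
theorem line {h : E2 → ℝ} {y : E2} (hh : ContDiffAt ℝ 2 h y) (ξ : E2) :
    (∀ᶠ t in 𝓝 (0 : ℝ), HasDerivAt (fun t : ℝ => h (y + t • ξ)) (fderiv ℝ h (y + t • ξ) ξ) t) ∧
      HasDerivAt (fun t : ℝ => fderiv ℝ h (y + t • ξ) ξ) (fderiv ℝ (fderiv ℝ h) y ξ ξ) 0 := by
  have hl : ∀ t : ℝ, HasDerivAt (fun t : ℝ => y + t • ξ) ξ t := fun t => by
    simpa using ((hasDerivAt_id t).smul_const ξ).const_add y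
  have h0 : y + (0 : ℝ) • ξ = y := by simp
  have ht : Tendsto (fun t : ℝ => y + t • ξ) (𝓝 0) (𝓝 y) := by
    simpa using (hl 0).continuousAt.tendsto
  refine ⟨(ht.eventually (hh.eventually (by simp))).mono fun t a =>
    (a.differentiableAt (by simp)).hasFDerivAt.comp_hasDerivAt t (hl t), ?_⟩
  have h1 : DifferentiableAt ℝ (fderiv ℝ h) y :=
    (hh.fderiv_right (m := 1) (by norm_num)).differentiableAt (by simp)
  have h2 := h1.hasFDerivAt.comp_hasDerivAt_of_eq (0 : ℝ) (hl 0) h0.symm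
  simpa using h2.clm_apply (hasDerivAt_const (0 : ℝ) ξ)

/-- the first and second order conditions at a minimum of `h - μ * exp (-α |y - c|²)` -/
theorem cond {h : E2 → ℝ} {y c : E2} {μ α : ℝ} (hh : ContDiffAt ℝ 2 h y)
    (hm : IsLocalMin (fun y => h y - μ * Real.exp (-α * ‖y - c‖ ^ 2)) y) (ξ : E2) :
    fderiv ℝ h y ξ = μ * Real.exp (-α * ‖y - c‖ ^ 2) * (-α * (2 * ⟪y - c, ξ⟫)) ∧
      μ * Real.exp (-α * ‖y - c‖ ^ 2) * (4 * α ^ 2 * ⟪y - c, ξ⟫ ^ 2 - 2 * α * ‖ξ‖ ^ 2) ≤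
        fderiv ℝ (fderiv ℝ h) y ξ ξ := by
  obtain ⟨h1, h2⟩ := line hh ξ
  set A := ‖y - c‖ ^ 2 with hA
  set B := ⟪y - c, ξ⟫ with hB
  set D := ‖ξ‖ ^ 2 with hD
  have e : ∀ t : ℝ, ‖y + t • ξ - c‖ ^ 2 = A + 2 * B * t + D * t ^ 2 := fun t => by
    rw [add_sub_right_comm, norm_add_sq_real, inner_smul_right, norm_smul, mul_pow,
      Real.norm_eq_abs, sq_abs]
    ring
  have d1 : ∀ t : ℝ, HasDerivAt (fun t : ℝ => -α * (A + 2 * B * t + D * t ^ 2))
      (-α * (2 * B + 2 * D * t)) t := fun t => by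
    have := ((((hasDerivAt_id t).const_mul (2 * B)).const_add A).add
      ((hasDerivAt_pow 2 t).const_mul D)).const_mul (-α)
    refine this.congr_deriv ?_
    rw [Nat.add_one_sub_one, pow_one, Nat.cast_ofNat]
    ring
  have d2 : HasDerivAt (fun t : ℝ => -α * (2 * B + 2 * D * t)) (-α * (2 * D)) 0 := by
    simpa using (((hasDerivAt_id (0 : ℝ)).const_mul (2 * D)).const_add (2 * B)).const_mul (-α)
  have m : IsLocalMin (fun t : ℝ =>
      h (y + t • ξ) - μ * Real.exp (-α * (A + 2 * B * t + D * t ^ 2))) 0 := by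
    have h0 : y + (0 : ℝ) • ξ = y := by simp
    have := IsLocalMin.comp_continuous (g := fun t : ℝ => y + t • ξ) (b := 0)
      (by simpa only [h0] using hm) (by fun_prop)
    simpa only [Function.comp_def, e] using this
  have := second (h1.mono fun t a => a.sub ((d1 t).exp.const_mul μ))
    (h2.sub (((d1 0).exp.mul d2).const_mul μ)) m
  simp only [zero_smul, add_zero, mul_zero, ne_eq, OfNat.ofNat_ne_zero, not_false_eq_true,
    zero_pow] at this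
  exact ⟨by linarith [this.1], by linarith [this.2]⟩

theorem trace {a0 a1 a2 g0 g1 g2 : ℝ}
    (ha : ∀ ξ η : ℝ, ξ ^ 2 + η ^ 2 ≤ a0 * ξ ^ 2 + 2 * a1 * (ξ * η) + a2 * η ^ 2)
    (hg : ∀ s t : ℝ, 0 ≤ s ^ 2 * g0 + 2 * (s * t) * g1 + t ^ 2 * g2) :
    0 ≤ a0 * g0 + 2 * a1 * g1 + a2 * g2 := by
  have h0 : 0 < a0 := by have := ha 1 0; linarith
  have h1 : 0 ≤ a0 * a2 - a1 ^ 2 := by
    refine le_of_mul_le_mul_left ?_ h0
    nlinarith [ha (-a1) a0, sq_nonneg a1, sq_nonneg a0]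
  have h2 : 0 ≤ g2 := by have := hg 0 1; linarith
  refine le_of_mul_le_mul_left ?_ h0
  nlinarith [hg a0 a1, mul_nonneg h1 h2]

end HopfA

open HopfA

theorem p_HOPF : S_HOPF := by
  intro Λ C r ρ c x hr hρ hx
  obtain ⟨α, hα0, hα⟩ : ∃ α : ℝ, 0 < α ∧ |Λ| + |C| * ρ < 2 * α * r ^ 2 := by
    refine ⟨(|Λ| + |C| * ρ + 1) / (2 * r ^ 2), by have := hr.trans hρ; positivity, ?_⟩
    have : 2 * ((|Λ| + |C| * ρ + 1) / (2 * r ^ 2)) * r ^ 2 = |Λ| + |C| * ρ + 1 := by field_simp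
    linarith
  refine ⟨Real.exp (-α * ‖x - c‖ ^ 2) - Real.exp (-α * ρ ^ 2), ?_, fun h a0 a1 a2 μ hμ H hb => ?_⟩
  · rw [dist_eq_norm] at hx
    have := pow_lt_pow_left₀ hx (norm_nonneg _) two_ne_zero
    exact sub_pos.2 (Real.exp_lt_exp.2 (by nlinarith))
  by_contra hn
  have hc : ContinuousOn (fun y => h y - μ * Real.exp (-α * ‖y - c‖ ^ 2)) (closedBall c ρ) :=
    ContinuousOn.sub (fun y hy => (H y hy).1.continuousAt.continuousWithinAt) (by fun_prop)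
  obtain ⟨y, hy, hm⟩ := (isCompact_closedBall c ρ).exists_isMinOn ⟨x, hx.le⟩ hc
  obtain ⟨h2, h0, ha, hΛ, hL⟩ := H y hy
  have hlt : h y < μ * (Real.exp (-α * ‖y - c‖ ^ 2) - Real.exp (-α * ρ ^ 2)) := by
    have : h y - μ * Real.exp (-α * ‖y - c‖ ^ 2) ≤ h x - μ * Real.exp (-α * ‖x - c‖ ^ 2) :=
      hm hx.le
    linarith [not_le.1 hn]
  rw [mem_closedBall, dist_eq_norm] at hy
  have hμ0 : 0 < μ := hμ.lt_of_ne fun e => by rw [← e] at hlt; linarith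
  have hyρ : ‖y - c‖ < ρ := hy.lt_of_ne fun e => by rw [e] at hlt; linarith
  have hyr : r < ‖y - c‖ := not_le.1 fun e => by
    have a1 := hb y (by rwa [mem_closedBall, dist_eq_norm])
    have a2 : Real.exp (-α * ‖y - c‖ ^ 2) ≤ 1 :=
      Real.exp_le_one_iff.2 (by nlinarith [sq_nonneg ‖y - c‖])
    nlinarith [Real.exp_pos (-α * ρ ^ 2)]
  have K := cond h2 (hm.isLocalMin (closedBall_mem_nhds_of_mem (by rwa [mem_ball, dist_eq_norm])))
  set E := μ * Real.exp (-α * ‖y - c‖ ^ 2) with hE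
  have E0 : 0 < E := mul_pos hμ0 (Real.exp_pos _)
  clear_value E
  have n1 : ‖fderiv ℝ h y‖ ≤ E * (2 * α * ρ) := by
    refine ContinuousLinearMap.opNorm_le_bound _ (by have := hr.trans hρ; positivity) fun ξ => ?_
    have a1 := (abs_real_inner_le_norm (y - c) ξ).trans
      (mul_le_mul_of_nonneg_right hy (norm_nonneg ξ))
    rw [(K ξ).1, Real.norm_eq_abs, abs_mul, abs_mul, abs_mul, abs_neg, abs_of_pos E0,
      abs_of_pos hα0, abs_two]
    nlinarith [mul_le_mul_of_nonneg_left a1 (mul_pos E0 hα0).le]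
  have sy : d2 h y 1 0 = d2 h y 0 1 := (h2.isSymmSndFDerivAt (by simp)).eq _ _
  have nz : ‖y - c‖ ^ 2 = (y - c) 0 ^ 2 + (y - c) 1 ^ 2 := by
    rw [EuclideanSpace.real_norm_sq_eq, Fin.sum_univ_two]
  have T := trace (g0 := d2 h y 0 0 - E * (4 * α ^ 2 * (y - c) 0 ^ 2 - 2 * α))
    (g1 := d2 h y 0 1 - E * (4 * α ^ 2 * ((y - c) 0 * (y - c) 1)))
    (g2 := d2 h y 1 1 - E * (4 * α ^ 2 * (y - c) 1 ^ 2 - 2 * α)) ha fun s t => by
    have a1 := (K (s • ev 0 + t • ev 1)).2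
    have a2 : ⟪y - c, s • ev 0 + t • ev 1⟫ = s * (y - c) 0 + t * (y - c) 1 := by
      simp [inner_add_right, inner_smul_right, ev, EuclideanSpace.inner_single_right]
    have a3 : ‖s • ev 0 + t • ev 1‖ ^ 2 = s ^ 2 + t ^ 2 := by
      rw [EuclideanSpace.real_norm_sq_eq, Fin.sum_univ_two]
      simp
    have a4 : fderiv ℝ (fderiv ℝ h) y (s • ev 0 + t • ev 1) (s • ev 0 + t • ev 1) =
        s * (s * d2 h y 0 0 + t * d2 h y 1 0) + t * (s * d2 h y 0 1 + t * d2 h y 1 1) := by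
      simp only [map_add, map_smul, add_apply, smul_apply, smul_eq_mul, d2]
    rw [a2, a3, a4, sy] at a1
    linarith
  have a1 := mul_le_mul_of_nonneg_left (ha ((y - c) 0) ((y - c) 1))
    (by positivity : 0 ≤ E * (4 * α ^ 2))
  have a2 := mul_le_mul_of_nonneg_left (hΛ.trans (le_abs_self Λ)) (by positivity : 0 ≤ E * (2 * α))
  have a3 : C * ‖fderiv ℝ h y‖ ≤ |C| * (E * (2 * α * ρ)) :=
    mul_le_mul (le_abs_self C) n1 (norm_nonneg _) (abs_nonneg C)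
  have a4 := mul_lt_mul_of_pos_left hα (by positivity : 0 < E * (2 * α))
  have a5 := mul_le_mul_of_nonneg_left (pow_le_pow_left₀ hr.le hyr.le 2)
    (by positivity : 0 ≤ E * (4 * α ^ 2))
  rw [nz] at a5
  linarith

end Pool.Agent.P.MP_a07190_gt.Gr

end

section

/-!
Comparison and touching principle for graphs of constant mean curvature.
-/

open scoped Manifold ContDiff RealInnerProductSpace Topology
open Set MeasureTheory Filter Metric

namespace Pool.Agent.P.MP_a07190_gt.Gr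

open Wk

namespace CmpA

theorem mul_le {a b A B : ℝ} (h : |a| ≤ A) (h' : |b| ≤ B) : |a * b| ≤ A * B := by
  rw [abs_mul]
  exact mul_le_mul h h' (abs_nonneg _) ((abs_nonneg _).trans h)

theorem prod_le {p q p' q' P n : ℝ} (h1 : |p| ≤ P) (h2 : |q'| ≤ P) (h3 : |p' - p| ≤ n)
    (h4 : |q' - q| ≤ n) : |p' * q' - p * q| ≤ 2 * P * n := by
  rw [show p' * q' - p * q = p * (q' - q) + q' * (p' - p) by ring]
  linarith [abs_add_le (p * (q' - q)) (q' * (p' - p)), mul_le h1 h4, mul_le h2 h3]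

theorem cube_le {S S' K D : ℝ} (h1 : 1 ≤ S) (h2 : 1 ≤ S') (h3 : S ≤ K) (h4 : S' ≤ K)
    (h : |S' - S| ≤ D) : |√S' ^ 3 - √S ^ 3| ≤ D * (3 * K) := by
  have a := Real.one_le_sqrt.2 h1
  have b := Real.one_le_sqrt.2 h2
  have c := Real.sq_sqrt (zero_le_one.trans h1)
  have d := Real.sq_sqrt (zero_le_one.trans h2)
  generalize √S = W at *
  generalize √S' = W' at *
  rw [show W' ^ 3 - W ^ 3 = (W' - W) * (W' ^ 2 + W' * W + W ^ 2) by ring]
  refine mul_le (le_trans ?_ h) ?_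
  · rw [← c, ← d, show W' ^ 2 - W ^ 2 = (W' - W) * (W' + W) by ring, abs_mul]
    exact le_mul_of_one_le_right (abs_nonneg _) (le_trans (by linarith) (le_abs_self _))
  · rw [abs_of_nonneg (by positivity)]
    nlinarith [sq_nonneg (W' - W)]

theorem alg {p q p' q' A B C A' B' C' P H n : ℝ} (a1 : |p| ≤ P) (a2 : |q| ≤ P) (a3 : |p'| ≤ P)
    (a4 : |q'| ≤ P) (b1 : |A| ≤ P) (b2 : |B| ≤ P) (b3 : |C| ≤ P) (c1 : |p' - p| ≤ n)
    (c2 : |q' - q| ≤ n)
    (e : (1 + q ^ 2) * A - 2 * (p * q) * B + (1 + p ^ 2) * C = 2 * H * √(1 + p ^ 2 + q ^ 2) ^ 3)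
    (e' : (1 + q' ^ 2) * A' - 2 * (p' * q') * B' + (1 + p' ^ 2) * C'
      = 2 * H * √(1 + p' ^ 2 + q' ^ 2) ^ 3) :
    (1 + q' ^ 2) * (A' - A) + 2 * -(p' * q') * (B' - B) + (1 + p' ^ 2) * (C' - C)
      ≤ (24 * |H| * P * (1 + 2 * P ^ 2) + 8 * P ^ 2) * n := by
  have k1 := prod_le a1 a3 c1 c1
  have k2 := prod_le a2 a4 c2 c2
  have k3 := prod_le a1 a4 c1 c2
  have s : ∀ {x : ℝ}, |x| ≤ P → x ^ 2 ≤ P ^ 2 := fun h => sq_le_sq' (abs_le.1 h).1 (abs_le.1 h).2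
  have k4 := mul_le (le_refl |H|) (cube_le (S := 1 + p ^ 2 + q ^ 2) (S' := 1 + p' ^ 2 + q' ^ 2)
    (K := 1 + 2 * P ^ 2) (D := 4 * P * n) (by nlinarith) (by nlinarith) (by linarith [s a1, s a2])
    (by linarith [s a3, s a4])
    (abs_le.2 ⟨by linarith [abs_le.1 k1, abs_le.1 k2], by linarith [abs_le.1 k1, abs_le.1 k2]⟩))
  linarith [abs_le.1 k4, abs_le.1 (mul_le k2 b1), abs_le.1 (mul_le k3 b2), abs_le.1 (mul_le k1 b3)]

theorem norm_ev (i : Fin 2) : ‖ev i‖ = 1 := by simp [ev]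

theorem d1_le (u : E2 → ℝ) (y : E2) (i : Fin 2) : |d1 u y i| ≤ ‖fderiv ℝ u y‖ := by
  simpa [norm_ev, d1] using (fderiv ℝ u y).le_opNorm (ev i)

theorem d2_le (u : E2 → ℝ) (y : E2) (i j : Fin 2) : |d2 u y i j| ≤ ‖fderiv ℝ (fderiv ℝ u) y‖ := by
  simpa [norm_ev, d2] using (fderiv ℝ (fderiv ℝ u) y).le_opNorm₂ (ev i) (ev j)

variable {u u' : E2 → ℝ} {y : E2}

theorem fd_sub (h : ContDiffAt ℝ 2 u y) (h' : ContDiffAt ℝ 2 u' y) :
    fderiv ℝ (fun z => u' z - u z) y = fderiv ℝ u' y - fderiv ℝ u y :=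
  fderiv_fun_sub (h'.differentiableAt (by simp)) (h.differentiableAt (by simp))

theorem d2_sub (h : ContDiffAt ℝ 2 u y) (h' : ContDiffAt ℝ 2 u' y) (i j : Fin 2) :
    d2 (fun z => u' z - u z) y i j = d2 u' y i j - d2 u y i j := by
  have h1 : fderiv ℝ (fun z => u' z - u z) =ᶠ[𝓝 y] fun z => fderiv ℝ u' z - fderiv ℝ u z := by
    filter_upwards [h.eventually (by simp), h'.eventually (by simp)] with z a b using fd_sub a b
  rw [d2, h1.fderiv_eq, fderiv_fun_sub ((h'.fderiv_right (m := 1) le_rfl).differentiableAt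
    one_ne_zero) ((h.fderiv_right (m := 1) le_rfl).differentiableAt one_ne_zero)]
  rfl

theorem bdd (h : ContDiffAt ℝ 2 u y) : ∃ P, ∀ᶠ z in 𝓝 y,
    ‖fderiv ℝ u z‖ ≤ P ∧ ‖fderiv ℝ (fderiv ℝ u) z‖ ≤ P := by
  have h1 := h.fderiv_right (m := 1) le_rfl
  have h2 := h1.fderiv_right (m := 0) le_rfl
  refine ⟨max ‖fderiv ℝ u y‖ ‖fderiv ℝ (fderiv ℝ u) y‖ + 1, ?_⟩
  exact (h1.continuousAt.norm.eventually_le_const (lt_add_one _ |>.trans_le' (le_max_left _ _))).and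
    (h2.continuousAt.norm.eventually_le_const (lt_add_one _ |>.trans_le' (le_max_right _ _)))

end CmpA

open CmpA

theorem p_CMP (hHOPF : S_HOPF) : S_CMP := by
  intro P H r ρ c x hr hρ hx
  obtain ⟨κ, k0, hκ⟩ := hHOPF (2 + 2 * P ^ 2) (24 * |H| * P * (1 + 2 * P ^ 2) + 8 * P ^ 2) r ρ c x
    hr hρ hx
  refine ⟨κ, k0, fun u1 u2 μ hμ h h' => hκ (fun z => u2 z - u1 z) (fun y => 1 + d1 u2 y 1 ^ 2)
    (fun y => -(d1 u2 y 0 * d1 u2 y 1)) (fun y => 1 + d1 u2 y 0 ^ 2) μ hμ (fun y hy => ?_) h'⟩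
  obtain ⟨c1, c2, e1, e2, hle, b1, b2⟩ := h y hy
  have k : ∀ i, |d1 u2 y i - d1 u1 y i| ≤ ‖fderiv ℝ (fun z => u2 z - u1 z) y‖ := fun i => by
    have := d1_le (fun z => u2 z - u1 z) y i
    rwa [d1, fd_sub c1 c2, sub_apply, ← fd_sub c1 c2] at this
  refine ⟨c2.sub c1, sub_nonneg.2 hle, fun ξ η => ?_, ?_, ?_⟩
  · nlinarith [sq_nonneg (d1 u2 y 1 * ξ - d1 u2 y 0 * η)]
  · linarith [sq_le_sq' (abs_le.1 (b1 0).2).1 (abs_le.1 (b1 0).2).2,
      sq_le_sq' (abs_le.1 (b1 1).2).1 (abs_le.1 (b1 1).2).2]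
  · rw [d2_sub c1 c2, d2_sub c1 c2, d2_sub c1 c2]
    exact alg (b1 0).1 (b1 1).1 (b1 0).2 (b1 1).2 (b2 0 0) (b2 0 1) (b2 1 1) (k 0) (k 1) e1 e2

theorem p_TOUCH (hCMP : S_CMP) : S_TOUCH := by
  intro H u1 u2 y0 h e
  obtain ⟨P1, h1⟩ := bdd h.self_of_nhds.1
  obtain ⟨P2, h2⟩ := bdd h.self_of_nhds.2.1
  obtain ⟨ρ, r0, hρ⟩ := Metric.eventually_nhds_iff.1 (h.and (h1.and h2))
  filter_upwards [ball_mem_nhds y0 (show 0 < ρ / 4 by positivity)] with y hy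
  rw [mem_ball] at hy
  have hy' := (hρ (show dist y y0 < ρ by linarith)).1
  refine hy'.2.2.2.2.eq_or_lt.resolve_right fun hlt => ?_
  obtain ⟨r, r1, hr⟩ := Metric.eventually_nhds_iff.1
    ((hy'.2.1.sub hy'.1).continuousAt.eventually_const_le (half_lt_self (sub_pos.2 hlt)))
  obtain ⟨κ, k0, hκ⟩ := hCMP (max P1 P2) H (min (r / 2) (ρ / 4)) (ρ / 2) y y0 (by positivity)
    ((min_le_right _ _).trans_lt (by linarith)) (by rw [dist_comm]; linarith)
  have := hκ u1 u2 ((u2 y - u1 y) / 2) (by linarith) (fun z hz => ?_) fun z hz =>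
    hr ((mem_closedBall.1 hz).trans_lt ((min_le_left _ _).trans_lt (by linarith)))
  · nlinarith [mul_pos k0 (sub_pos.2 hlt)]
  · obtain ⟨⟨a1, a2, a3, a4, a5⟩, b1, b2⟩ := hρ (show dist z y0 < ρ by
      linarith [dist_triangle z y y0, mem_closedBall.1 hz])
    exact ⟨a1, a2, a3, a4, a5, fun i => ⟨(d1_le _ _ _).trans (b1.1.trans (le_max_left _ _)),
      (d1_le _ _ _).trans (b2.1.trans (le_max_right _ _))⟩,
      fun i j => (d2_le _ _ _ _).trans (b1.2.trans (le_max_left _ _))⟩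

end Pool.Agent.P.MP_a07190_gt.Gr

end

section

/-!
The sign of the difference of two graphs that do not cross, and the absence of vertical tangent
planes.
-/

open scoped Manifold ContDiff RealInnerProductSpace Topology
open Set MeasureTheory Filter Metric

namespace Pool.Agent.P.MP_a07190_gt.Gr

open Wk

namespace VertA

theorem sgn {X : Type*} [TopologicalSpace X] {s : Set X} (hs : IsPreconnected s) {F : X → ℝ}
    (hF : ContinuousOn F s) (h0 : ∀ x ∈ s, F x ≠ 0) :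
    ∃ σ : ℝ, |σ| = 1 ∧ ∀ x ∈ s, 0 < σ * F x := by
  by_cases h : ∀ x ∈ s, 0 < F x
  · exact ⟨1, abs_one, fun x hx => by simpa using h x hx⟩
  · push Not at h
    obtain ⟨a, ha, h1⟩ := h
    refine ⟨-1, by simp, fun x hx => ?_⟩
    rw [neg_one_mul, neg_pos]
    by_contra h2
    obtain ⟨z, hz, e⟩ := hs.intermediate_value ha hx hF ⟨h1, not_lt.1 h2⟩
    exact h0 z hz e

theorem mvt {u : E2 → ℝ} {y e : E2} {t : ℝ} (ht : 0 < t)
    (h : ∀ τ ∈ Icc 0 t, DifferentiableAt ℝ u (y - τ • e)) :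
    ∃ τ ∈ Ioo 0 t, u y - u (y - t • e) = t * fderiv ℝ u (y - τ • e) e := by
  have a : ∀ τ ∈ Icc 0 t,
      HasDerivAt (fun τ : ℝ => u (y - τ • e)) (-fderiv ℝ u (y - τ • e) e) τ := fun τ hτ => by
    have := (h τ hτ).hasFDerivAt.comp_hasDerivAt τ (((hasDerivAt_id' τ).smul_const e).const_sub y)
    rwa [one_smul, map_neg] at this
  obtain ⟨τ, h1, h2⟩ := exists_hasDerivAt_eq_slope _ _ ht
    (fun τ hτ => (a τ hτ).continuousAt.continuousWithinAt) fun τ hτ => a τ (Ioo_subset_Icc_self hτ)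
  refine ⟨τ, h1, ?_⟩
  rw [zero_smul, sub_zero, sub_zero, eq_div_iff ht.ne'] at h2
  linarith

/-- a solution of the equation with bounded derivatives -/
def Ok (P c : ℝ) (w : E2 → ℝ) (y : E2) : Prop :=
  ContDiffAt ℝ 2 w y ∧ Pde c w y ∧ (∀ i, |d1 w y i| ≤ P) ∧ ∀ i j, |d2 w y i j| ≤ P

theorem Ok.tr {P c : ℝ} {u : E2 → ℝ} {y a : E2} (h : Ok P c u (y - a)) :
    Ok P c (fun z => u (z - a)) y := by
  have e1 : ∀ i, d1 (fun z => u (z - a)) y i = d1 u (y - a) i := fun i => by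
    rw [d1, d1, fderiv_comp_sub]
  have e2 : ∀ i j, d2 (fun z => u (z - a)) y i j = d2 u (y - a) i j := fun i j => by
    rw [d2, d2, show fderiv ℝ (fun z => u (z - a)) = fun z => fderiv ℝ u (z - a) from
      funext fun z => fderiv_comp_sub a, fderiv_comp_sub]
  refine ⟨ContDiffAt.comp (g := u) (f := fun z => z - a) y h.1 (by fun_prop), ?_, ?_, ?_⟩
  · simpa only [Pde, e1, e2] using h.2.1
  · simpa only [e1] using h.2.2.1
  · simpa only [e2] using h.2.2.2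

theorem cmp (hCMP : S_CMP) (P c : ℝ) {r ρ σ : ℝ} {y1 y0 : E2} (hr : 0 < r) (h1 : r < ρ)
    (h2 : dist y0 y1 < ρ) (hσ : |σ| = 1) : ∃ κ : ℝ, 0 < κ ∧ ∀ (u1 u2 : E2 → ℝ) (μ : ℝ), 0 ≤ μ →
    (∀ y ∈ closedBall y1 ρ, Ok P c u1 y ∧ Ok P c u2 y ∧ 0 ≤ σ * (u1 y - u2 y)) →
    (∀ y ∈ closedBall y1 r, μ ≤ σ * (u1 y - u2 y)) → κ * μ ≤ σ * (u1 y0 - u2 y0) := by
  obtain ⟨κ, k0, hk⟩ := hCMP P c r ρ y1 y0 hr h1 h2
  refine ⟨κ, k0, fun u1 u2 μ m0 a b => ?_⟩
  rcases (abs_eq zero_le_one).1 hσ with rfl | rfl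
  · simp only [one_mul, sub_nonneg] at a b ⊢
    exact hk u2 u1 μ m0 (fun y hy => let ⟨p, q, s⟩ := a y hy
      ⟨q.1, p.1, q.2.1, p.2.1, s, fun i => ⟨q.2.2.1 i, p.2.2.1 i⟩, q.2.2.2⟩) b
  · simp only [neg_one_mul, neg_sub, sub_nonneg] at a b ⊢
    exact hk u1 u2 μ m0 (fun y hy => let ⟨p, q, s⟩ := a y hy
      ⟨p.1, q.1, p.2.1, q.2.1, s, fun i => ⟨p.2.2.1 i, q.2.2.1 i⟩, p.2.2.2⟩) b

theorem bnd {u : E2 → ℝ} {U K : Set E2} {c : ℝ} (hU : IsOpen U) (hK : IsCompact K) (hs : K ⊆ U)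
    (hu : ContDiffOn ℝ 2 u U) (hp : ∀ y ∈ U, Pde c u y) : ∃ P, ∀ y ∈ K, Ok P c u y := by
  have a : ContDiffOn ℝ 1 (fderiv ℝ u) U := hu.fderiv_of_isOpen hU (by norm_num)
  obtain ⟨P1, b1⟩ := hK.exists_bound_of_continuousOn (a.continuousOn.mono hs)
  obtain ⟨P2, b2⟩ :=
    hK.exists_bound_of_continuousOn ((a.continuousOn_fderiv_of_isOpen hU le_rfl).mono hs)
  have n : ∀ i, ‖ev i‖ = 1 := fun i => by simp [ev]
  refine ⟨max P1 P2, fun y hy =>
    ⟨hu.contDiffAt (hU.mem_nhds (hs hy)), hp y (hs hy), fun i => ?_, fun i j => ?_⟩⟩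
  · have := (fderiv ℝ u y).le_opNorm (ev i)
    rw [n, mul_one] at this
    exact this.trans ((b1 y hy).trans (le_max_left _ _))
  · have := (fderiv ℝ (fderiv ℝ u) y).le_opNorm₂ (ev i) (ev j)
    rw [n, n, mul_one, mul_one] at this
    exact this.trans ((b2 y hy).trans (le_max_right _ _))

theorem flat (hSGNH : S_SGNH) (hCMP : S_CMP) {u : E2 → ℝ} {y0 e : E2} {ρ c : ℝ} (hρ : 0 < ρ)
    (he : ‖e‖ ≤ 1) (hu : ContDiffOn ℝ 2 u (ball y0 ρ)) (hp : ∀ y ∈ ball y0 ρ, Pde c u y)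
    (h0 : fderiv ℝ u y0 e = 0)
    (hne : ∀ t : ℝ, 0 < t → ∀ y ∈ ball y0 ρ, y - t • e ∈ ball y0 ρ → u y ≠ u (y - t • e)) :
    False := by
  obtain ⟨σ, δ, s1, d0, hs⟩ := hSGNH u u y0 y0 e ρ ρ 0 0 hρ hρ hu.continuousOn hu.continuousOn
    (by rw [zero_smul, add_zero]) (by simpa only [mul_zero, add_zero] using hne)
  simp only [zero_add, mul_zero, sub_zero] at hs
  have sub : ball y0 δ ⊆ ball y0 ρ := fun y hy => (hs y hy 0 ⟨le_rfl, d0⟩).1
  have mv : ∀ (y z : E2) (τ : ℝ), 0 ≤ τ → dist (y - τ • e) z ≤ dist y z + τ := fun y z τ h => by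
    have := dist_triangle (y - τ • e) y z
    rw [dist_self_sub_left, norm_smul, Real.norm_of_nonneg h] at this
    nlinarith
  obtain ⟨P, hP⟩ := bnd isOpen_ball (isCompact_closedBall y0 (7 * δ / 8))
    ((closedBall_subset_ball (by linarith)).trans sub) hu hp
  have mt : ∀ (y : E2) (t : ℝ), 0 < t → dist y y0 + t ≤ 7 * δ / 8 →
      ∃ τ ∈ Ioo 0 t, σ * (u y - u (y - t • e)) = t * (σ * fderiv ℝ u (y - τ • e) e) :=
    fun y t ht h => by
      obtain ⟨τ, a, b⟩ := mvt (u := u) (y := y) (e := e) ht fun τ hτ =>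
        (hP _ ((mv y y0 τ hτ.1).trans (by linarith [hτ.2]))).1.differentiableAt (by norm_num)
      exact ⟨τ, a, by rw [b]; ring⟩
  have cψ : ∀ y ∈ ball y0 ρ, ContinuousAt (fun y => σ * fderiv ℝ u y e) y := fun y hy =>
    continuousAt_const.mul (((hu.continuousOn_fderiv_of_isOpen isOpen_ball
      (by norm_num)).continuousAt (isOpen_ball.mem_nhds hy)).clm_apply continuousAt_const)
  obtain ⟨τ1, t1, e1⟩ := mt y0 (δ / 4) (by linarith) (by rw [dist_self]; linarith)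
  have p1 := (hs y0 (mem_ball_self d0) (δ / 4) ⟨by linarith, by linarith⟩).2.2.2 (by linarith)
  rw [e1, mul_pos_iff_of_pos_left (by linarith)] at p1
  have q1 := mv y0 y0 τ1 t1.1.le
  rw [dist_self, zero_add] at q1
  replace q1 := q1.trans_lt t1.2
  generalize y0 - τ1 • e = y1 at p1 q1
  obtain ⟨r0, r1, r2⟩ := Metric.eventually_nhds_iff.1
    ((cψ y1 (sub (mem_ball.2 (by linarith)))).eventually (lt_mem_nhds (half_lt_self p1)))
  replace p1 := half_pos p1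
  generalize σ * fderiv ℝ u y1 e / 2 = μ at p1 r2
  obtain ⟨r, a0, a1, a2⟩ : ∃ r : ℝ, 0 < r ∧ r ≤ r0 / 3 ∧ r ≤ δ / 8 :=
    ⟨min (r0 / 3) (δ / 8), lt_min (by linarith) (by linarith), min_le_left _ _, min_le_right _ _⟩
  obtain ⟨κ, k0, hk⟩ := cmp hCMP P c (ρ := δ / 2) (y1 := y1) (y0 := y0) a0 (by linarith)
    (by rw [dist_comm]; linarith) s1
  obtain ⟨η, n1, n2⟩ := Metric.eventually_nhds_iff.1 ((cψ y0 (mem_ball_self hρ)).eventually
    (gt_mem_nhds (a := κ * μ) (by simpa only [h0, mul_zero] using mul_pos k0 p1)))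
  obtain ⟨t, b0, b1, b2⟩ : ∃ t : ℝ, 0 < t ∧ t ≤ r ∧ t ≤ η :=
    ⟨min r η, lt_min a0 n1, min_le_left _ _, min_le_right _ _⟩
  have key := hk u (fun z => u (z - t • e)) (t * μ) (mul_pos b0 p1).le (fun y hy => by
    have c1 := dist_triangle y y1 y0
    have c2 := mem_closedBall.1 hy
    exact ⟨hP y (mem_closedBall.2 (by linarith)),
      (hP _ ((mv y y0 t b0.le).trans (by linarith))).tr,
      (hs y (mem_ball.2 (by linarith)) t ⟨b0.le, by linarith⟩).2.2.1⟩) fun y hy => by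
    have c1 := dist_triangle y y1 y0
    have c2 := mem_closedBall.1 hy
    obtain ⟨τ, c3, c4⟩ := mt y t b0 (by linarith)
    rw [c4]
    exact mul_le_mul_of_nonneg_left
      (r2 ((mv y y1 τ c3.1.le).trans_lt (by linarith [c3.2]))).le b0.le
  obtain ⟨τ, c3, c4⟩ := mt y0 t b0 (by rw [dist_self]; linarith)
  have c5 := n2 ((mv y0 y0 τ c3.1.le).trans_lt (by rw [dist_self]; linarith [c3.2]))
  rw [c4] at key
  nlinarith [mul_lt_mul_of_pos_left c5 b0]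

end VertA

open VertA

theorem p_SGNH : S_SGNH := by
  intro u1 u2 y1 y2 e ρ1 ρ2 k t0 h1 h2 c1 c2 hy hne
  have hp : 0 < 1 + ‖e‖ := by positivity
  obtain ⟨δ, d0, d1, d2⟩ : ∃ δ : ℝ, 0 < δ ∧ δ ≤ ρ1 ∧ δ * (1 + ‖e‖) ≤ ρ2 :=
    ⟨min ρ1 (ρ2 / (1 + ‖e‖)), lt_min h1 (div_pos h2 hp), min_le_left _ _,
      (le_div_iff₀ hp).1 (min_le_right _ _)⟩
  have m : ∀ p ∈ ball y1 δ ×ˢ Ico t0 (t0 + δ),
      p.1 ∈ ball y1 ρ1 ∧ p.1 - p.2 • e ∈ ball y2 ρ2 := fun p hp => by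
    refine ⟨ball_subset_ball d1 hp.1, ?_⟩
    have a := mem_ball_iff_norm.1 hp.1
    have b := norm_sub_le (p.1 - y1) ((p.2 - t0) • e)
    rw [norm_smul, Real.norm_of_nonneg (sub_nonneg.2 hp.2.1)] at b
    rw [mem_ball_iff_norm, show p.1 - p.2 • e - y2 = p.1 - y1 - (p.2 - t0) • e by
      rw [hy, sub_smul]; abel]
    nlinarith [mul_le_mul_of_nonneg_right (sub_le_iff_le_add'.2 hp.2.2.le) (norm_nonneg e)]
  have cF : ContinuousOn (fun p : E2 × ℝ => u1 p.1 - u2 (p.1 - p.2 • e) - p.2 * k)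
      (ball y1 δ ×ˢ Ico t0 (t0 + δ)) :=
    ((c1.comp continuousOn_fst fun p hp => (m p hp).1).sub
      (c2.comp (by fun_prop) fun p hp => (m p hp).2)).sub (by fun_prop)
  have sub : ball y1 δ ×ˢ Ioo t0 (t0 + δ) ⊆ ball y1 δ ×ˢ Ico t0 (t0 + δ) :=
    prod_mono le_rfl Ioo_subset_Ico_self
  obtain ⟨σ, s1, s2⟩ := sgn ((convex_ball y1 δ).prod (convex_Ioo t0 (t0 + δ))).isPreconnected
    (cF.mono sub) fun p hp => by
      rw [sub_sub, sub_ne_zero]
      exact hne p.2 hp.2.1 p.1 (m p (sub hp)).1 (m p (sub hp)).2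
  refine ⟨σ, δ, s1, d0, fun y hy t ht => ⟨(m (y, t) ⟨hy, ht⟩).1, (m (y, t) ⟨hy, ht⟩).2, ?_,
    fun h => s2 (y, t) ⟨hy, h, ht.2⟩⟩⟩
  have : (y, t) ∈ closure (ball y1 δ ×ˢ Ioo t0 (t0 + δ)) := by
    rw [closure_prod_eq, closure_Ioo (by linarith)]
    exact ⟨subset_closure hy, Ico_subset_Icc_self ht⟩
  exact ContinuousWithinAt.closure_le this continuousWithinAt_const
    (continuousWithinAt_const.mul ((cF (y, t) ⟨hy, ht⟩).mono sub)) fun p hp => (s2 p hp).le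

theorem p_VERT (hGPH : S_GPH) (hSGNH : S_SGNH) (hCMP : S_CMP) : S_VERT := by
  intro M _ _ _ f N H h inj m hm h0
  obtain ⟨R, hR⟩ := exists_iso (h.unit m hm)
  obtain ⟨V, ρ, u, s, -, G⟩ := hGPH M _ _ H (iso_w h R) m hm (by simp [hR]) univ univ_mem
  have n1 : ‖R (e3 2)‖ = 1 := by rw [R.norm_map]; simp [e3]
  have n2 : R (e3 2) 2 = 0 := by
    have := R.inner_map_map (e3 2) (N m)
    rw [hR, inner3, inner3] at this
    simpa [h0] using this
  refine flat hSGNH hCMP (e := prj (R (e3 2))) G.pos ((norm_prj_le _).trans n1.le) G.c2 G.pde ?_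
    fun t ht y hy hy' e => ?_
  · obtain ⟨-, a, b⟩ := G.nrm m G.mem
    simp only [Function.comp_apply, hR, e3_apply, Fin.reduceEq, if_true, if_false, mul_one,
      zero_eq_neg, d1] at a b
    rw [map_decomp, Function.comp_apply, a, b, smul_zero, smul_zero, add_zero]
  · obtain ⟨p, p1, p2⟩ := G.bij.surjOn hy
    obtain ⟨q, q1, q2⟩ := G.bij.surjOn hy'
    have a := G.ht p p1
    have b := G.ht q q1
    simp only [Function.comp_apply] at p2 q2 a b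
    have c : R (f p) = R (f q + t • e3 2) := by
      rw [map_add, map_smul]
      refine ext3 (by rw [prj_add, prj_smul, p2, q2, sub_add_cancel]) ?_
      rw [PiLp.add_apply, PiLp.smul_apply, n2, smul_zero, add_zero, a, b, p2, q2, e]
    replace c := R.injective c
    have d : p = q := inj (show prj (f p) = prj (f q) from c ▸ ext2 (by simp) (by simp))
    have := congrArg (fun z : E3 => z 2) c
    simp [d, ht.ne'] at this

end Pool.Agent.P.MP_a07190_gt.Gr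

end

section

open scoped Manifold ContDiff RealInnerProductSpace Topology
open Set MeasureTheory Filter Metric

namespace Pool.Agent.P.MP_a07190_gt.Gr

open Wk

namespace SvA

theorem const {X : Type*} [TopologicalSpace X] {S : Set X} (hS : IsPreconnected S) {w : X → ℝ}
    (h : ∀ x ∈ S, ∀ᶠ y in 𝓝 x, w y = w x) : ∃ c, ∀ x ∈ S, w x = c := by
  rcases S.eq_empty_or_nonempty with rfl | ⟨x0, h0⟩
  · exact ⟨0, fun _ h => h.elim⟩
  refine ⟨w x0, fun x hx => ?_⟩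
  have := isPreconnected_iff_preconnectedSpace.1 hS
  have hl : IsLocallyConstant fun y : S => w y := (IsLocallyConstant.iff_eventually_eq _).2
    fun y => (continuous_subtype_val.tendsto y).eventually (h y y.2)
  exact hl.apply_eq_of_preconnectedSpace ⟨x, hx⟩ ⟨x0, h0⟩

theorem pos {g : ℝ → ℝ} {k : ℝ} (h : HasDerivAt g k 0) (h0 : g 0 = 0) (hk : 0 < k) :
    ∀ᶠ t in 𝓝[>] (0 : ℝ), 0 < g t := by
  filter_upwards [h.tendsto_slope_zero_right.eventually (lt_mem_nhds hk), self_mem_nhdsWithin]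
    with t h1 h2
  rw [zero_add, h0, sub_zero, smul_eq_mul] at h1
  exact (mul_pos_iff_of_pos_left (inv_pos.2 h2)).1 h1

/-- the coordinates adapted to a graph -/
noncomputable def up (u : E2 → ℝ) (z : E2 × ℝ) : E3 := toP z.1 + (u z.1 + z.2) • e3 2

theorem prj_up (u : E2 → ℝ) (z : E2 × ℝ) : prj (up u z) = z.1 := ext2 (by simp [up]) (by simp [up])

theorem up_2 (u : E2 → ℝ) (z : E2 × ℝ) : up u z 2 = u z.1 + z.2 := by simp [up]

theorem up_eq (u : E2 → ℝ) (Y : E3) : up u (prj Y, Y 2 - u (prj Y)) = Y :=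
  ext3 (prj_up _ _) (by rw [up_2]; ring)

theorem cont_up {u : E2 → ℝ} {z : E2 × ℝ} (h : ContinuousAt u z.1) : ContinuousAt (up u) z := by
  have h1 : Continuous toP := by unfold toP; fun_prop
  have h2 : ContinuousAt (fun z : E2 × ℝ => u z.1) z := h.comp continuousAt_fst
  exact (h1.continuousAt.comp continuousAt_fst).add
    ((h2.add continuousAt_snd).smul continuousAt_const)

theorem deriv {u : E2 → ℝ} {p n : E3} (hu : DifferentiableAt ℝ u (prj p))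
    (h0 : n 0 = -(d1 u (prj p) 0) * n 2) (h1 : n 1 = -(d1 u (prj p) 1) * n 2) (σ : ℝ) :
    HasDerivAt (fun t : ℝ => (p + (σ * t) • n) 2 - u (prj (p + (σ * t) • n)))
      (σ * n 2 * (1 + d1 u (prj p) 0 ^ 2 + d1 u (prj p) 1 ^ 2)) 0 := by
  have hc : HasDerivAt (fun t : ℝ => prj p + (σ * t) • prj n) (σ • prj n) 0 := by
    simpa using (((hasDerivAt_id (0 : ℝ)).const_mul σ).smul_const (prj n)).const_add (prj p)
  have h2 : HasDerivAt (fun t : ℝ => p 2 + σ * t * n 2) (σ * n 2) 0 := by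
    simpa using (((hasDerivAt_id (0 : ℝ)).const_mul σ).mul_const (n 2)).const_add (p 2)
  have h3 : HasFDerivAt u (fderiv ℝ u (prj p)) (prj p + (σ * 0) • prj n) := by
    simpa using hu.hasFDerivAt
  have h4 := h2.sub (h3.comp_hasDerivAt 0 hc)
  refine (h4.congr_deriv ?_).congr_of_eventuallyEq (Eventually.of_forall fun t => ?_)
  swap
  · simp [prj_add, prj_smul]
  · rw [map_decomp]
    simp only [PiLp.smul_apply, prj_0, prj_1, smul_eq_mul, h0, h1, d1]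
    ring

end SvA

open SvA in
theorem p_SV1 : S_SV1 := by
  intro M _ _ f N H m V ρ u s hf h w hw
  have hu : ∀ y ∈ ball (prj (f m)) ρ, DifferentiableAt ℝ u y := fun y hy =>
    (h.c2.contDiffAt (isOpen_ball.mem_nhds hy)).differentiableAt two_ne_zero
  have h0 := (hu _ (mem_ball_self h.pos)).continuousAt
  have e0 : up u (prj (f m), 0) = f m := by
    have := up_eq u (f m)
    rwa [h.ht m h.mem, sub_self] at this
  have t0 : Tendsto (up u) (𝓝 (prj (f m), 0)) (𝓝 (f m)) := by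
    have := cont_up (u := u) (z := (prj (f m), 0)) h0
    rwa [ContinuousAt, e0] at this
  have t1 : ∀ᶠ z : E2 × ℝ in 𝓝 (prj (f m), 0), z.1 ∈ ball (prj (f m)) ρ :=
    continuousAt_fst.eventually_mem (ball_mem_nhds _ h.pos)
  obtain ⟨δ, hδ, hb⟩ := eventually_nhds_iff_ball.1 ((t0.eventually hw).and t1)
  have key : ∀ I : Set ℝ, Convex ℝ I → I ⊆ ball 0 δ → 0 ∉ I →
      ∃ c, ∀ z ∈ ball (prj (f m)) δ ×ˢ I, w (up u z) = c := by
    intro I a b c
    refine const ((convex_ball _ _).prod a).isPreconnected fun z hz => ?_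
    have hz' := hb z (by rw [← ball_prod_same]; exact ⟨hz.1, b hz.2⟩)
    refine (cont_up (hu _ hz'.2).continuousAt).eventually (hz'.1 ?_)
    rintro ⟨m', a1, a2⟩
    have := h.ht m' a1
    rw [a2, up_2, prj_up, add_eq_left] at this
    exact c (this ▸ hz.2)
  obtain ⟨cp, hp⟩ := key (Ioo 0 δ) (convex_Ioo _ _)
    (fun t ht => by rw [mem_ball_zero_iff, Real.norm_eq_abs, abs_lt]; exact ⟨by linarith [ht.1], ht.2⟩)
    (by simp)
  obtain ⟨cm, hm⟩ := key (Ioo (-δ) 0) (convex_Ioo _ _)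
    (fun t ht => by rw [mem_ball_zero_iff, Real.norm_eq_abs, abs_lt]; exact ⟨ht.1, by linarith [ht.2]⟩)
    (by simp)
  have h1 : ∀ᶠ Y in 𝓝 (f m),
      (u (prj Y) < Y 2 → w Y = cp) ∧ (Y 2 < u (prj Y) → w Y = cm) := by
    have c1 : ContinuousAt (fun Y : E3 => Y 2 - u (prj Y)) (f m) :=
      (by fun_prop : Continuous fun Y : E3 => Y 2).continuousAt.sub
        (h0.comp cont_prj.continuousAt)
    have c2 : ∀ᶠ Y : E3 in 𝓝 (f m), Y 2 - u (prj Y) ∈ Ioo (-δ) δ :=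
      c1.eventually_mem (Ioo_mem_nhds (by rw [h.ht m h.mem]; linarith)
        (by rw [h.ht m h.mem]; linarith))
    filter_upwards [c2, cont_prj.continuousAt.eventually_mem (ball_mem_nhds _ hδ)] with Y a b
    refine ⟨fun c => ?_, fun c => ?_⟩
    · rw [← hp (prj Y, Y 2 - u (prj Y)) ⟨b, sub_pos.2 c, a.2⟩, up_eq]
    · rw [← hm (prj Y, Y 2 - u (prj Y)) ⟨b, a.1, sub_neg.2 c⟩, up_eq]
  refine ⟨cp, cm, h1, ?_⟩
  filter_upwards [hf.continuousAt.eventually h1.eventually_nhds, h.op.mem_nhds h.mem] with m' a b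
  obtain ⟨n2, n0, n1⟩ := h.nrm m' b
  have hd := deriv (hu _ (h.bij.mapsTo b)) n0 n1
  have tt : ∀ σ : ℝ, Tendsto (fun t : ℝ => f m' + (σ * t) • N m') (𝓝[>] 0) (𝓝 (f m')) := fun σ =>
    ((by fun_prop : Continuous fun t : ℝ => f m' + (σ * t) • N m').tendsto' 0 _
      (by simp)).mono_left nhdsWithin_le_nhds
  have hk : 0 < s * N m' 2 * (1 + d1 u (prj (f m')) 0 ^ 2 + d1 u (prj (f m')) 1 ^ 2) := by
    positivity
  constructor
  · filter_upwards [(tt s).eventually a, pos (hd s) (by simp [h.ht m' b]) hk] with t c d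
    exact c.1 (sub_pos.1 d)
  · filter_upwards [(tt (-s)).eventually a,
      pos (hd (-s)).neg (by simp [h.ht m' b]) (by linarith)] with t c d
    exact c.2 (sub_neg.1 (neg_pos.1 d))

end Pool.Agent.P.MP_a07190_gt.Gr

end

section

/-! The values of the winding function on the two sides of the surface. -/

open scoped Manifold ContDiff RealInnerProductSpace Topology
open Set MeasureTheory Filter Metric

namespace Pool.Agent.P.MP_a07190_gt.Gr

open Wk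

namespace SvgA

theorem uniq {M : Type*} {w : E3 → ℝ} {f N : M → E3} {m : M} {σ c c' : ℝ}
    (h : SideVal w f N m σ c) (h' : SideVal w f N m σ c') : c = c' :=
  let ⟨_, a, b⟩ := (h.and h').exists
  a.symm.trans b

theorem prj_vert (p : E3) (t : ℝ) : prj (p + t • e3 2) = prj p :=
  ext2 (by simp [e3]) (by simp [e3])

theorem ht_vert (p : E3) (t : ℝ) : (p + t • e3 2) 2 = p 2 + t := by simp [e3]

variable {M : Type} [TopologicalSpace M] [CompactSpace M] {f N : M → E3} {H : ℝ} {Γ : Set E2}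
  {d : E2 → ℝ} {w : E3 → ℝ} {m : M}

theorem loc (hc : Continuous f) (hi : Function.Injective f) (hΓ : IsClosed Γ)
    (hS : Side Γ (range f) d w) (hm : prj (f m) ∉ Γ) {V : Set M} (hV : IsOpen V) (hmV : m ∈ V) :
    ∀ᶠ Y in 𝓝 (f m), Y ∉ f '' V → ∀ᶠ Y' in 𝓝 Y, w Y' = w Y := by
  have h1 : IsClosed (f '' Vᶜ) := (hV.isClosed_compl.isCompact.image hc).isClosed
  have h2 : f m ∉ f '' Vᶜ := fun ⟨x, hx, e⟩ => hx (hi e ▸ hmV)
  have h3 : IsClosed (prjL ⁻¹' Γ) := hΓ.preimage prjL.continuous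
  filter_upwards [h1.isOpen_compl.mem_nhds h2, h3.isOpen_compl.mem_nhds hm] with Y a b c
  refine hS.wloc Y ?_ b
  rintro ⟨x, rfl⟩
  by_cases hx : x ∈ V
  exacts [c ⟨x, hx, rfl⟩, a ⟨x, hx, rfl⟩]

variable [ChartedSpace (EuclideanHalfSpace 2) M] [IsManifold (𝓡∂ 2) ∞ M]

theorem one (hGPH : S_GPH) (hSV1 : S_SV1) (h : IsCMCw f N H) (hi : Function.Injective f)
    (hΓ : IsClosed Γ) (hS : Side Γ (range f) d w) (hm : m ∈ Inn M) (hp : prj (f m) ∉ Γ) {σ : ℝ}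
    (hσ : |σ| = 1) :
    ∃ a b, ∀ᶠ m' in 𝓝 m, SideVal w f N m' σ a ∧ SideVal w f N m' (-σ) b := by
  obtain ⟨R, hR⟩ := exists_iso (h.unit m hm)
  have h' := iso_w h R
  obtain ⟨V, ρ, u, s, -, G⟩ := hGPH M _ _ H h' m hm
    (by rw [Function.comp_apply, hR]; simp [e3]) univ univ_mem
  have t : ∀ Y, Tendsto R.symm (𝓝 Y) (𝓝 (R.symm Y)) := fun Y => R.symm.continuous.tendsto Y
  have l := loc h.c1.continuous hi hΓ hS hp G.op G.mem
  rw [← R.symm_apply_apply (f m)] at l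
  obtain ⟨a, b, -, k⟩ := hSV1 M _ _ H m V ρ u s h'.c1.continuous G (w ∘ R.symm) (by
    filter_upwards [t _ l] with Y hY hn
    exact t Y (hY fun ⟨x, hx, e⟩ => hn ⟨x, hx, by rw [Function.comp_apply, e, R.apply_symm_apply]⟩))
  have k' : ∀ᶠ m' in 𝓝 m, SideVal w f N m' s a ∧ SideVal w f N m' (-s) b := by
    simpa only [SideVal, Function.comp_apply, map_add, map_smul, R.symm_apply_apply] using k
  rcases abs_eq_abs.1 (hσ.trans G.abs.symm) with rfl | rfl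
  · exact ⟨a, b, k'⟩
  · exact ⟨b, a, k'.mono fun _ x => ⟨x.2, by rw [neg_neg]; exact x.1⟩⟩

theorem two (hGPH : S_GPH) (hSV1 : S_SV1) (h : IsCMCw f N H) (hi : Function.Injective f)
    (hΓ : IsClosed Γ) (hS : Side Γ (range f) d w) (hm : m ∈ Inn M) (hp : prj (f m) ∉ Γ) {σ : ℝ}
    (hσ : |σ| = 1) (h0 : 0 < σ * N m 2) (h1 : ∀ m', prj (f m') = prj (f m) → m' = m) :
    SideVal w f N m σ 0 ∧ SideVal w f N m (-σ) (d (prj (f m))) := by
  obtain ⟨V, ρ, u, s, -, G⟩ := hGPH M f N H h m hm (right_ne_zero_of_mul h0.ne') univ univ_mem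
  obtain ⟨a, b, k1, k2⟩ := hSV1 M f N H m V ρ u s h.c1.continuous G w
    (loc h.c1.continuous hi hΓ hS hp G.op G.mem)
  obtain rfl : σ = s := (abs_eq_abs.1 (hσ.trans G.abs.symm)).resolve_right fun e => by
    have := (G.nrm m G.mem).1
    rw [e] at h0
    linarith
  have hu := G.ht m G.mem
  have nr : ∀ t : ℝ, t ≠ 0 → f m + t • e3 2 ∉ range f := fun t ht ⟨x, e⟩ => by
    obtain rfl := h1 x (by rw [e, prj_vert])
    have := congrArg (fun p : E3 => p 2) e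
    simp only [ht_vert] at this
    exact ht (by linarith)
  have tt : Tendsto (fun t : ℝ => f m + t • e3 2) (𝓝 0) (𝓝 (f m)) :=
    Continuous.tendsto' (by fun_prop) _ _ (by simp)
  obtain ⟨t, t1, t2⟩ := (((tt.eventually k1).filter_mono nhdsWithin_le_nhds).and
    (self_mem_nhdsWithin (a := (0 : ℝ)) (s := Ioi 0))).exists
  obtain ⟨r, r1, r2⟩ := (((tt.eventually k1).filter_mono nhdsWithin_le_nhds).and
    (self_mem_nhdsWithin (a := (0 : ℝ)) (s := Iio 0))).exists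
  have t3 : 0 < t := t2
  have r3 : r < 0 := r2
  have ea := (t1.1 (by rw [prj_vert, ht_vert]; linarith)).symm.trans
    (hS.wup _ (by rwa [prj_vert]) fun x hx => by
      rw [add_assoc, ← add_smul]
      exact nr _ (by linarith))
  have eb := (r1.2 (by rw [prj_vert, ht_vert]; linarith)).symm.trans
    (hS.wdn _ (by rwa [prj_vert]) fun x hx => by
      rw [add_sub_assoc, ← sub_smul]
      exact nr _ (by linarith))
  rw [prj_vert] at eb
  rw [← ea, ← eb]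
  exact k2.self_of_nhds

end SvgA

theorem p_SV3 (hGPH : S_GPH) (hSV1 : S_SV1) : S_SV3 := by
  intro M _ _ _ _ _ f N H h hi hN Γ d w e hΓ hS he hd h1 hB
  let good : M → Prop := fun m => SideVal w f N m (e m) 0 ∧ SideVal w f N m (-e m) (e m)
  have lc : ∀ m ∈ Inn M, ∀ᶠ m' in 𝓝 m, (good m' ↔ good m) := fun m hm => by
    obtain ⟨a, b, k⟩ := SvgA.one hGPH hSV1 h hi hΓ hS hm (hd m hm).1 (h1 m)
    have k0 := k.self_of_nhds
    filter_upwards [k, he.eventually_eq m] with m' x y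
    simp only [good, y]
    exact ⟨fun z => ⟨SvgA.uniq x.1 z.1 ▸ k0.1, SvgA.uniq x.2 z.2 ▸ k0.2⟩,
      fun z => ⟨SvgA.uniq k0.1 z.1 ▸ x.1, SvgA.uniq k0.2 z.2 ▸ x.2⟩⟩
  have := hN {m | m ∈ Inn M ∧ ¬ good m} ⟨?_, ?_⟩ fun m hm => hm.1
  · intro m hm
    by_contra hc
    exact (this ▸ (⟨hm, hc⟩ : m ∈ {m | m ∈ Inn M ∧ ¬ good m}) : m ∈ (∅ : Set M))
  · rw [← isOpen_compl_iff, isOpen_iff_mem_nhds]
    intro m hm
    by_cases hm' : m ∈ Inn M
    · filter_upwards [lc m hm'] with m' x y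
      exact hm ⟨hm', fun z => y.2 (x.2 z)⟩
    · filter_upwards [hB m (not_not.1 (mt int_iff_not_bdy.2 hm'))] with m' x y
      refine y.2 ?_
      have := SvgA.two hGPH hSV1 h hi hΓ hS y.1 (hd m' y.1).1 (h1 m') (x y.1).1 (x y.1).2
      rwa [← (hd m' y.1).2] at this
  · rw [isOpen_iff_mem_nhds]
    intro m hm
    filter_upwards [lc m hm.1, isOpen_Inn.mem_nhds hm.1] with m' x y
    exact ⟨y, fun z => hm.2 (x.1 z)⟩

end Pool.Agent.P.MP_a07190_gt.Gr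

end

section

/-! Sliding the surface in the vertical direction. -/

open scoped Manifold ContDiff RealInnerProductSpace Topology
open Set MeasureTheory Filter Metric

namespace Pool.Agent.P.MP_a07190_gt.Gr

open Wk

namespace SlideA

theorem pde_shift {c k : ℝ} {u : E2 → ℝ} {a y : E2} (h : Pde c u (y - a)) :
    Pde c (fun y => u (y - a) + k) y := by
  have e : fderiv ℝ (fun y => u (y - a) + k) = fun y => fderiv ℝ u (y - a) := funext fun y => by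
    rw [fderiv_add_const, fderiv_comp_sub]
  simpa only [Pde, d1, d2, e, fderiv_comp_sub] using h

theorem sv_uniq {M : Type} {w : E3 → ℝ} {f N : M → E3} {m : M} {σ c c' : ℝ}
    (h : SideVal w f N m σ c) (h' : SideVal w f N m σ c') : c = c' :=
  let ⟨_, a, b⟩ := (h.and h').exists
  a.symm.trans b

theorem exists_dir {a b : E3} (ha : ‖a‖ = 1) (hb : ‖b‖ = 1) :
    ∃ R : E3 ≃ₗᵢ[ℝ] E3, R a 2 ≠ 0 ∧ R b 2 ≠ 0 := by
  obtain ⟨v, h1, h2⟩ : ∃ v : E3, ⟪v, a⟫ ≠ 0 ∧ ⟪v, b⟫ ≠ 0 := by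
    by_cases h : ⟪a, b⟫ = 0
    · refine ⟨a + b, ?_, ?_⟩
      · simp [inner_add_left, real_inner_comm a b, h, ha]
      · simp [inner_add_left, h, hb]
    · exact ⟨a, by simp [ha], h⟩
  have h0 : v ≠ 0 := fun e => h1 (by simp [e])
  obtain ⟨R, hR⟩ := exists_iso (norm_smul_inv_norm (𝕜 := ℝ) h0)
  have e : ∀ x, ⟪v, x⟫ ≠ 0 → R x 2 ≠ 0 := fun x hx h => by
    have := R.inner_map_map ((‖v‖⁻¹ : ℝ) • v) x
    rw [show R ((‖v‖⁻¹ : ℝ) • v) = e3 2 from hR, real_inner_smul_left, inner3] at this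
    simp [e3, h, h0, hx] at this
  exact ⟨R, e a h1, e b h2⟩

variable {M : Type} [TopologicalSpace M] [ChartedSpace (EuclideanHalfSpace 2) M]
  {f N : M → E3} {H : ℝ}

theorem partner {Q : M} {V : Set M} {ρ s t : ℝ} {u : E2 → ℝ} (h : Gph f N H Q V ρ u s) {E p : E3}
    (h1 : prj p - t • prj E ∈ ball (prj (f Q)) ρ) (h2 : p 2 = u (prj p - t • prj E) + t * E 2) :
    ∃ Q', p = f Q' + t • E := by
  obtain ⟨Q', a, b⟩ := h.bij.surjOn h1
  refine ⟨Q', ext3 ?_ ?_⟩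
  · rw [prj_add, prj_smul, show prj (f Q') = _ from b, sub_add_cancel]
  · rw [h2, ← show prj (f Q') = _ from b, ← h.ht Q' a]
    simp

theorem sides [CompactSpace M] (hSV1 : S_SV1) (hc : Continuous f) (hi : Function.Injective f)
    {P : M} {V : Set M} {ρ s : ℝ} {u : E2 → ℝ} (h : Gph f N H P V ρ u s) {w : E3 → ℝ}
    (hw : ∀ᶠ Y in 𝓝 (f P), Y ∉ range f → ∀ᶠ Y' in 𝓝 Y, w Y' = w Y) {Y : ℝ → E3} {l : Filter ℝ}
    [l.NeBot] (hY : Tendsto Y l (𝓝 (f P))) {σ c : ℝ} (hσ : |σ| = 1)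
    (h1 : ∀ᶠ t in l, w (Y t) = c ∧ 0 < σ * (Y t 2 - u (prj (Y t)))) :
    SideVal w f N P (σ * s) c := by
  have h2 : (f '' Vᶜ)ᶜ ∈ 𝓝 (f P) := (h.op.isClosed_compl.isCompact.image hc).isClosed.compl_mem_nhds
    fun ⟨_, a, b⟩ => a (hi b ▸ h.mem)
  obtain ⟨cp, cm, h3, h4⟩ := hSV1 M f N H P V ρ u s hc h w (by
    filter_upwards [hw, h2] with Y a b c
    refine a ?_
    rintro ⟨m, rfl⟩
    by_cases hm : m ∈ V
    · exact c ⟨m, hm, rfl⟩
    · exact b ⟨m, hm, rfl⟩)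
  obtain ⟨t, ⟨a, b⟩, c1, c2⟩ := (h1.and (hY.eventually h3)).exists
  rcases (abs_eq zero_le_one).1 hσ with rfl | rfl
  · rw [one_mul, ← a, c1 (by linarith)]
    exact h4.self_of_nhds.1
  · rw [neg_one_mul, ← a, c2 (by linarith)]
    exact h4.self_of_nhds.2

theorem loc [IsManifold (𝓡∂ 2) ∞ M] [CompactSpace M] (hGPH : S_GPH) (hTOUCH : S_TOUCH)
    (hSGNH : S_SGNH) (hSV1 : S_SV1) (h : IsCMCw f N H) (hi : Function.Injective f) {P Q : M}
    (hP : P ∈ Inn M) (hQ : Q ∈ Inn M) (nP : N P 2 ≠ 0) (nQ : N Q 2 ≠ 0) {E : E3} {t0 ε : ℝ}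
    (he : f P = f Q + t0 • E) (hn : ∀ t, t0 < t → ∀ P' Q', f P' ≠ f Q' + t • E) {w : E3 → ℝ}
    (wP : ∀ᶠ Y in 𝓝 (f P), Y ∉ range f → ∀ᶠ Y' in 𝓝 Y, w Y' = w Y)
    (wQ : ∀ᶠ Y in 𝓝 (f Q), Y ∉ range f → ∀ᶠ Y' in 𝓝 Y, w Y' = w Y)
    (up : ∀ t, t0 < t → w (f Q + t • E) = 0) (dn : ∀ t, t0 < t → w (f P - t • E) = ε)
    (hε : |ε| = 1) (sP : SideVal w f N P (-ε) ε) (sQ : SideVal w f N Q ε 0) :
    ∀ᶠ P' in 𝓝 P, ∃ Q', f P' = f Q' + t0 • E := by
  have hc : Continuous f := h.c1.continuous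
  obtain ⟨V1, ρ1, u1, s1, -, g1⟩ := hGPH M f N H h P hP nP univ univ_mem
  obtain ⟨V2, ρ2, u2, s2, -, g2⟩ := hGPH M f N H h Q hQ nQ univ univ_mem
  have e1 : prj (f P) = prj (f Q) + t0 • prj E := by rw [he, prj_add, prj_smul]
  obtain ⟨σ, δ, hσ, hδ, hs⟩ := hSGNH u1 u2 _ _ _ ρ1 ρ2 (E 2) t0 g1.pos g2.pos g1.c2.continuousOn
    g2.c2.continuousOn e1 fun t ht y a b c => by
      obtain ⟨P', a1, rfl⟩ := g1.bij.surjOn a
      obtain ⟨Q', e⟩ := partner g2 b ((g1.ht P' a1).trans c)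
      exact hn t ht P' Q' e
  have hb : ∀ᶠ y in 𝓝 (prj (f P)), y ∈ ball (prj (f P)) δ := ball_mem_nhds _ hδ
  have h0 : t0 ∈ Ico t0 (t0 + δ) := ⟨le_rfl, by linarith⟩
  by_cases hss : s1 = s2
  · subst hss
    have e2 : u1 (prj (f P)) = u2 (prj (f P) - t0 • prj E) + t0 * E 2 := by
      rw [← g1.ht P g1.mem, e1, add_sub_cancel_right, ← g2.ht Q g2.mem, he]
      simp
    have k1 := fun y hy => g1.c2.contDiffAt (isOpen_ball.mem_nhds (hs y hy t0 h0).1)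
    have k2 : ∀ y ∈ ball (prj (f P)) δ,
        ContDiffAt ℝ 2 (fun y => u2 (y - t0 • prj E) + t0 * E 2) y := fun y hy =>
      ((g2.c2.contDiffAt (isOpen_ball.mem_nhds (hs y hy t0 h0).2.1)).comp y
        (f := fun y => y - t0 • prj E) (by fun_prop)).add contDiffAt_const
    have k3 := fun y hy => g1.pde y (hs y hy t0 h0).1
    have k4 := fun y hy => pde_shift (k := t0 * E 2) (g2.pde _ (hs y hy t0 h0).2.1)
    have k5 : ∀ᶠ y in 𝓝 (prj (f P)), u1 y = u2 (y - t0 • prj E) + t0 * E 2 := by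
      rcases (abs_eq zero_le_one).1 hσ with rfl | rfl
      · exact (hTOUCH _ _ u1 _ (hb.mono fun y hy => ⟨k2 y hy, k1 y hy, k4 y hy, k3 y hy, by
          linarith [(hs y hy t0 h0).2.2.1]⟩) e2.symm).mono fun y => Eq.symm
      · exact hTOUCH _ u1 _ _ (hb.mono fun y hy => ⟨k1 y hy, k2 y hy, k3 y hy, k4 y hy, by
          linarith [(hs y hy t0 h0).2.2.1]⟩) e2
    filter_upwards [((cont_prj.comp hc).tendsto P).eventually (hb.and k5),
      g1.op.mem_nhds g1.mem] with P' a b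
    exact partner g2 (hs _ a.1 t0 h0).2.1 ((g1.ht P' b).trans a.2)
  exfalso
  have e3 : s1 = -s2 := ((abs_eq_abs.1 (g1.abs.trans g2.abs.symm)).resolve_left hss)
  have hI : ∀ᶠ t in 𝓝[>] t0, t ∈ Ioo t0 (t0 + δ) := Ioo_mem_nhdsGT (by linarith)
  have t1 : Tendsto (fun t : ℝ => f Q + t • E) (𝓝[>] t0) (𝓝 (f P)) :=
    he ▸ (Continuous.tendsto (by fun_prop) t0).mono_left nhdsWithin_le_nhds
  have t2 : Tendsto (fun t : ℝ => f P - t • E) (𝓝[>] t0) (𝓝 (f Q)) :=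
    (eq_sub_of_add_eq he.symm).symm ▸
      (Continuous.tendsto (by fun_prop) t0).mono_left nhdsWithin_le_nhds
  have v1 := sides hSV1 hc hi g1 wP t1 (σ := -σ) (c := 0) (by rwa [abs_neg]) (by
    filter_upwards [hI, ((cont_prj.tendsto _).comp t1).eventually hb] with t a b
    have := (hs _ b t ⟨a.1.le, a.2⟩).2.2.2 a.1
    simp only [Function.comp, prj_add, prj_smul, add_sub_cancel_right, ← g2.ht Q g2.mem] at this
    refine ⟨up t a.1, ?_⟩
    simp only [prj_add, prj_smul, PiLp.add_apply, PiLp.smul_apply, smul_eq_mul]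
    linarith)
  have v2 := sides hSV1 hc hi g2 wQ t2 (c := ε) hσ (by
    filter_upwards [hI] with t a
    have := (hs _ (mem_ball_self hδ) t ⟨a.1.le, a.2⟩).2.2.2 a.1
    rw [← g1.ht P g1.mem] at this
    refine ⟨dn t a.1, ?_⟩
    simp only [prj_sub, prj_smul, PiLp.sub_apply, PiLp.smul_apply, smul_eq_mul]
    linarith)
  rw [e3, neg_mul_neg] at v1
  have : ε = 0 := by
    rcases abs_eq_abs.1 (show |σ * s2| = |ε| by rw [abs_mul, hσ, g2.abs, hε, one_mul]) with e | e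
    · exact sv_uniq (e ▸ v2) sQ
    · exact sv_uniq sP (e ▸ v1)
  simp [this] at hε

end SlideA

theorem p_SLIDE (hGPH : S_GPH) (hTOUCH : S_TOUCH) (hSGNH : S_SGNH) (hSV1 : S_SV1) : S_SLIDE := by
  intro M _ _ _ _ _ f N H h hi hN Γ d w e hΓ hS hd he hb hsv
  have hc : Continuous f := h.c1.continuous
  have p0 : ∀ (p : E3) (t : ℝ), prj (p + t • e3 2) = prj p := fun p t =>
    ext2 (by simp [e3]) (by simp [e3])
  by_contra hn
  obtain ⟨P0, Q0, h0, h1⟩ := Function.not_injective_iff.1 hn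
  obtain ⟨p, hp, hm⟩ := (isClosed_eq (f := fun p : M × M => prj (f p.1))
    (g := fun p => prj (f p.2)) (cont_prj.comp (hc.comp continuous_fst))
    (cont_prj.comp (hc.comp continuous_snd))).isCompact.exists_isMaxOn ⟨(P0, Q0), h0⟩
    (f := fun p => f p.1 2 - f p.2 2) (by fun_prop)
  obtain ⟨t0, ht⟩ : ∃ t0, f p.1 2 - f p.2 2 = t0 := ⟨_, rfl⟩
  have hm' : ∀ P Q, prj (f P) = prj (f Q) → f P 2 - f Q 2 ≤ t0 := fun P Q a =>
    ht ▸ hm (a := (P, Q)) a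
  have t0p : 0 < t0 := by
    have a := hm' _ _ h0
    have b := hm' _ _ h0.symm
    by_contra c
    exact h1 (hi (ext3 h0 (by linarith)))
  have nc : ∀ t, t0 < t → ∀ P Q, f P ≠ f Q + t • e3 2 := fun t a P Q b => by
    have := hm' P Q (by rw [b, p0])
    rw [b] at this
    simp [e3] at this
    linarith
  have inn : ∀ P Q, f P = f Q + t0 • e3 2 → P ∈ Inn M ∧ Q ∈ Inn M := fun P Q a => by
    have b : prj (f P) = prj (f Q) := by rw [a, p0]
    have c : P ≠ Q := fun c => by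
      have := congrArg (fun x : E3 => x 2) a
      simp [c, e3] at this
      linarith
    exact ⟨int_iff_not_bdy.2 fun x => c (hb P x Q b.symm).symm,
      int_iff_not_bdy.2 fun x => c (hb Q x P b)⟩
  refine Set.Nonempty.ne_empty (s := {P | ∃ Q, f P = f Q + t0 • e3 2})
    ⟨p.1, p.2, ext3 (by rw [p0]; exact hp) (by simp [e3, ← ht])⟩
    (hN _ ⟨?_, isOpen_iff_mem_nhds.2 ?_⟩
      fun P ⟨Q, a⟩ => (inn P Q a).1)
  · have := ((isClosed_eq (f := fun p : M × M => f p.1) (g := fun p => f p.2 + t0 • e3 2)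
      (by fun_prop) (by fun_prop)).isCompact.image continuous_fst).isClosed
    convert this using 1
    ext P
    simp
  rintro P ⟨Q, a⟩
  obtain ⟨hP, hQ⟩ := inn P Q a
  obtain ⟨R, r1, r2⟩ := SlideA.exists_dir (h.unit P hP) (h.unit Q hQ)
  have wl : ∀ m ∈ Inn M, ∀ᶠ Y in 𝓝 ((R ∘ f) m), Y ∉ range (R ∘ f) →
      ∀ᶠ Y' in 𝓝 Y, (w ∘ R.symm) Y' = (w ∘ R.symm) Y := fun m hm => by
    have : ∀ᶠ Y in 𝓝 ((R ∘ f) m), prj (R.symm Y) ∈ Γᶜ :=
      (cont_prj.comp R.symm.continuous).continuousAt.eventually_mem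
        (hΓ.isOpen_compl.mem_nhds (by simpa using (hd m hm).1))
    filter_upwards [this] with Y b c
    exact (R.symm.continuous.tendsto Y).eventually (hS.wloc _
      (fun ⟨m', e'⟩ => c ⟨m', by simp [e']⟩) b)
  have sv : ∀ m σ c, SideVal w f N m σ c → SideVal (w ∘ R.symm) (R ∘ f) (R ∘ N) m σ c :=
    fun m σ c b => b.mono fun t b => by simpa using b
  have ee : e Q = e P := by rw [(hd P hP).2, (hd Q hQ).2, a, p0]
  refine (SlideA.loc hGPH hTOUCH hSGNH hSV1 (iso_w h R) (R.injective.comp hi) hP hQ r1 r2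
    (E := R (e3 2)) (t0 := t0) (ε := e P) (by simp [a]) (fun t b P' Q' c => nc t b P' Q'
      (R.injective (by simpa using c))) (wl P hP) (wl Q hQ) (fun t b => ?_) (fun t b => ?_) (he P)
    (sv _ _ _ (hsv P hP).2) (sv _ _ _ (ee ▸ (hsv Q hQ).1))).mono
    fun P' ⟨Q', b⟩ => ⟨Q', R.injective (by simpa using b)⟩
  · simpa using hS.wup (f Q + t • e3 2) (by rw [p0]; exact (hd Q hQ).1) fun τ c ⟨P', x⟩ =>
      nc (t + τ) (by linarith) P' Q (by rw [x, add_smul, add_assoc])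
  · have p1 : prj (f P - t • e3 2) = prj (f P) := by rw [sub_eq_add_neg, ← neg_smul, p0]
    simpa [p1, (hd P hP).2] using hS.wdn (f P - t • e3 2) (by rw [p1]; exact (hd P hP).1)
      fun τ c ⟨Q', x⟩ => nc (t + τ) (by linarith) P Q' (by rw [x, add_smul]; abel)

end Pool.Agent.P.MP_a07190_gt.Gr

end
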