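import Pool.Agent.P.MP_a07190_gt.Wk.All
import Pool.Agent.P.MP_a07190_gt.Gr.BA
import Pool.Agent.P.MP_a07190_gt.Gr.BB
import Pool.Agent.P.MP_a07190_gt.Gr.BC

open scoped Manifold ContDiff RealInnerProductSpace Topology
open Set MeasureTheory Filter Metric

namespace Pool.Agent.P.MP_a07190_gt.Gr

open Wk

theorem near2 (hDEG : S_DEG) (hREC : S_REC) (hHF : S_HF) (hGOOD : S_GOOD) (hNU : S_NU)
    (hSML : S_SML) (hLOC : S_LOC) {K Γ : Set E2} (hK : IsCompact K) (hc : IsPreconnected Kᶜ)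
    (hΓ : Γ ⊆ K) (hne : Γ.Nonempty) {O : Set E3} (hO : IsOpen O) (hKO : toP '' K ⊆ O) :
    ∃ A : ℝ, 0 < A ∧ ∀ η : ℝ, 0 < η → ∃ V0 : ℝ, 0 < V0 ∧
      ∀ (M : Type) [TopologicalSpace M] [ChartedSpace (EuclideanHalfSpace 2) M]
      [IsManifold (𝓡∂ 2) ∞ M] [MeasurableSpace M] [BorelSpace M] [CompactSpace M] [T2Space M]
      (f N : M → E3) (H : ℝ), IsCMCw f N H → BijOn f (Bdy M) (toP '' Γ) → algVol f N < V0 →
      range f ⊆ O ∧ |H| ≤ η ∧ (area f).real univ ≤ A := by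
  by_cases h0 : μH[1] Γ ≠ ⊤ ∧ ∃ i j x1 x2 y1 y2 y3 y4, Rect Γ i j x1 x2 y1 y2 y3 y4
  swap
  · exact ⟨1, one_pos, fun _ _ => ⟨1, one_pos, fun M _ _ _ _ _ _ _ f N H h hb _ =>
      absurd ⟨hHF M f h.c1 Γ hb, hREC M f h.c1 Γ hb hne⟩ h0⟩⟩
  obtain ⟨hL, i, j, x1, x2, y1, y2, y3, y4, hr⟩ := h0
  obtain ⟨g, Kg, hg, hdeg⟩ := hDEG Γ i j x1 x2 y1 y2 y3 y4 hr hL
  obtain ⟨R, hR, hRK⟩ := hK.isBounded.subset_ball_lt 0 0
  obtain ⟨ε, hε, hloc⟩ := hLOC K (R * (2 * (μH[1] Γ).toReal) + 1) O hK hc hO hKO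
  refine ⟨R * (2 * (μH[1] Γ).toReal) + 1, by positivity, fun η hη => ?_⟩
  obtain ⟨V0, hV0, hs⟩ := hSML R (2 * (μH[1] Γ).toReal) Kg (min ε η) hR.le (by positivity)
    (lt_min hε hη)
  refine ⟨V0, hV0, fun M _ _ _ _ _ _ _ f N H h hb hV => ?_⟩
  have hG := hGOOD M f N H h Γ hb hL
  obtain ⟨hB, hI, hD⟩ := hNU M f N H h
  have hv : volN (nu f N) = algVol f N := by
    rw [volN, algVol, (hI (fun z => ⟪z.1, z.2⟫) (by fun_prop)).2]
  have hS := hs Γ g H (nu f N) (fun q hq => (mem_ball_zero_iff.1 (hRK (hΓ hq))).le) hg hG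
    (hdeg M f N H h hb) (by rwa [hv])
  refine ⟨?_, hS.h.trans (min_le_right _ _), ?_⟩
  · rintro _ ⟨m, rfl⟩
    by_cases hm : m ∈ Inn M
    · by_contra hn
      exact hloc H _ hB (hG.fz hΓ) ⟨hS.h.trans (min_le_left _ _), hS.e.trans (min_le_left _ _),
        hS.a⟩ _ hn (hD m hm)
    · exact hKO (image_mono hΓ (hb.mapsTo (not_not.1 (mt int_iff_not_bdy.2 hm))))
  · have := (hI (fun _ => 1) continuous_const).2
    simp only [integral_const, smul_eq_mul, mul_one] at this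
    rw [← this]; exact hS.a

theorem norm_toP (p : E2) : ‖toP p‖ = ‖p‖ := by
  refine (sq_eq_sq₀ (norm_nonneg _) (norm_nonneg _)).1 ?_
  rw [norm_sq3, EuclideanSpace.real_norm_sq_eq, Fin.sum_univ_two]
  simp

theorem main (hDEG : S_DEG) (hREC : S_REC) (hHF : S_HF) (hGOOD : S_GOOD) (hNU : S_NU)
    (hSML : S_SML) (hLOC : S_LOC) (hNOC : S_NOC) (hBAR : S_BAR) (hBCON : S_BCON)
    (hALGB : S_ALGB) (hWEX : S_WEX) (hTG : S_TG) (hDBD : S_DBD) (hEPS : S_EPS) (hKER : S_KER)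
    (hLY : S_LY) (hGPH : S_GPH) (hSV3 : S_SV3) (hSLIDE : S_SLIDE) (hVERT : S_VERT)
    (hSURJ : S_SURJ) (hEXT : S_EXT) {K : Set E2} (hK : IsCompact K) (hne : K.Nonempty)
    (hc : IsPreconnected Kᶜ) {a : ℝ} (ha : 0 < a)
    (hr : ∀ y ∉ K, ∃ q, dist y q < a ∧ Disjoint (ball q a) K) :
    ∃ V0 : ℝ, 0 < V0 ∧
      ∀ (M : Type) [TopologicalSpace M] [ChartedSpace (EuclideanHalfSpace 2) M]
      [IsManifold (𝓡∂ 2) ∞ M] [MeasurableSpace M] [BorelSpace M] [CompactSpace M] [T2Space M]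
      (f N : M → E3) (H : ℝ), IsCMC1 f N H → BijOn f (Bdy M) (toP '' frontier K) →
      algVol f N < V0 → BijOn (fun m => prj (f m)) univ K ∧ ∀ m, N m 2 ≠ 0 := by
  have hΓK := hK.isClosed.frontier_subset
  have hΓc : IsCompact (frontier K) := hK.of_isClosed_subset isClosed_frontier hΓK
  obtain ⟨R, hR, hRK⟩ := hK.isBounded.subset_ball_lt 0 0
  obtain ⟨A, hA, hnear⟩ := near2 hDEG hREC hHF hGOOD hNU hSML hLOC hK hc hΓK
    (nonempty_frontier_iff.2 ⟨hne, hK.ne_univ⟩) (isOpen_thickening (δ := a / 2) (E := toP '' K))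
    (self_subset_thickening (by positivity) _)
  have hI := hKER.1
  set L := 2 * (μH[1] (frontier K)).toReal with hL
  have L0 : 0 ≤ L := by positivity
  obtain ⟨θ, θ0, θ1, hθ⟩ : ∃ θ : ℝ, 0 < θ ∧ θ ≤ 1 ∧ θ * (kI + L / a) ≤ kI / 4 :=
    ⟨min 1 (kI / 4 / (kI + L / a)), lt_min one_pos (by positivity), min_le_left _ _,
      (le_div_iff₀ (by positivity)).1 (min_le_right _ _)⟩
  obtain ⟨h0, h00, hbar⟩ := hBAR a (2 * (R + a) + a) θ ha θ0 θ1
  obtain ⟨η, η0, η1, η2, η3, η4⟩ : ∃ η : ℝ, 0 < η ∧ η ≤ h0 ∧ η ≤ 1 ∧ η * (2 * (R + a)) ≤ 1 ∧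
      η * A ≤ kI / 4 :=
    ⟨min (min h0 1) (min (1 / (2 * (R + a))) (kI / 4 / A)),
      lt_min (lt_min h00 one_pos) (lt_min (by positivity) (by positivity)),
      (min_le_left _ _).trans (min_le_left _ _), (min_le_left _ _).trans (min_le_right _ _),
      (le_div_iff₀ (by positivity)).1 ((min_le_right _ _).trans (min_le_left _ _)),
      (le_div_iff₀ hA).1 ((min_le_right _ _).trans (min_le_right _ _))⟩
  obtain ⟨V0, hV0, hn⟩ := hnear η η0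
  refine ⟨V0, hV0, fun M _ _ _ _ _ _ _ f N H h hb hV => ?_⟩
  obtain ⟨hO, hH, hAr⟩ := hn M f N H h.w hb hV
  have hf := h.c1.continuous
  have hμ := hHF M f h.c1 _ hb
  have hz : ∀ m ∈ Bdy M, f m 2 = 0 := fun m hm => bij_z hb hm
  have hnearK : ∀ m, ∃ x ∈ K, dist (f m) (toP x) < a / 2 := fun m => by
    obtain ⟨_, ⟨x, hx, rfl⟩, e⟩ := mem_thickening_iff.1 (hO (mem_range_self m))
    exact ⟨x, hx, e⟩
  have hnorm : ∀ m, ‖f m‖ ≤ R + a := fun m => by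
    obtain ⟨x, hx, e⟩ := hnearK m
    have h1 := mem_ball_zero_iff.1 (hRK hx)
    have h2 := norm_le_norm_add_norm_sub' (f m) (toP x)
    rw [norm_toP, ← dist_eq_norm] at h2
    linarith
  have hnp : ∀ m, ‖prj (f m)‖ ≤ R + a := fun m => (norm_prj_le _).trans (hnorm m)
  have hB : ∀ (q : E2) (m0 : M), dist (prj (f m0)) q ≤ a → (∀ x ∈ K, a ≤ dist x q) →
      (∀ m, |f m 2| ≤ θ * (dist (prj (f m)) q - a)) ∧ ∀ m ∈ Inn M, a < dist (prj (f m)) q :=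
    fun q m0 hq hx => hbar M f N H q h.w (hH.trans η1) (fun m => by
      obtain ⟨x, hxK, e⟩ := hnearK m
      have h1 : dist x (prj (f m)) ≤ dist (f m) (toP x) := by
        rw [dist_comm, dist_eq_norm, dist_eq_norm]
        conv_lhs => rw [← prj_toP x, ← prj_sub]
        exact norm_prj_le _
      have h2 := dist_triangle x (prj (f m)) q
      have h3 := dist_triangle (prj (f m)) (prj (f m0)) q
      have h4 := dist_le_norm_add_norm (prj (f m)) (prj (f m0))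
      exact ⟨by linarith [hx x hxK], by linarith [hnp m, hnp m0]⟩)
      fun m hm => ⟨hz m hm, hx _ (hΓK (bij_mem hb hm))⟩
  have hinK : ∀ m, prj (f m) ∈ K := fun m => by
    by_contra hm
    obtain ⟨q, h1, h2⟩ := hr _ hm
    have h3 := (hB q m h1.le fun x hx => not_lt.1 fun e => disjoint_left.1 h2 e hx).1 m
    nlinarith [abs_nonneg (f m 2)]
  have hext := hEXT K a hK.isClosed ha hr
  have hoff : ∀ m ∈ Inn M, prj (f m) ∉ frontier K := fun m hm hp => by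
    obtain ⟨q, h1, h2⟩ := hext _ hp
    exact ((hB q m h1.le h2).2 m hm).ne' h1
  have hbd : ∀ m, m ∉ Inn M → m ∈ Bdy M := fun m hm => not_not.1 (mt int_iff_not_bdy.2 hm)
  have hfib : ∀ x ∈ Bdy M, ∀ m, prj (f m) = prj (f x) → m = x := fun x hx m e => by
    by_cases hm : m ∈ Inn M
    · exact absurd (e ▸ bij_mem hb hx) (hoff m hm)
    · exact bij_inj hb (hbd m hm) hx e
  have hcon : ∀ x ∈ Bdy M, N x 2 ≠ 0 ∧ ∃ (q u : E2) (c : ℝ → E2), dist (prj (f x)) q = a ∧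
      (∀ x ∈ K, a ≤ dist x q) ∧ c 0 = prj (f x) ∧ HasDerivWithinAt c u (Ici 0) 0 ∧
      (∀ t, c t ∈ range fun m => prj (f m)) ∧ ⟪u, q - prj (f x)⟫ < 0 := fun x hx => by
    obtain ⟨v, hv, e⟩ := exists_gam (mem_extChartAt_source x) hx
    obtain ⟨q, h1, h2⟩ := hext _ (bij_mem hb hx)
    have h1' : dist (prj (f (gam x v))) q = a := by rwa [e]
    obtain ⟨b1, b2, b3, b4⟩ := hBCON M f h.c1 x v q a θ hv ha θ0 h1' (hB q x h1.le h2).1 hz
    obtain ⟨c1, c2, -⟩ := hALGB (chartDif f x (pt (0, v))) (N (gam x v)) _ q a θ (h.inj_ch hv)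
      (h.unit _) (h.perp_ch hv) ha θ0 θ1 h1' b1 b2 b3
    rw [e] at c1 c2
    exact ⟨c1, q, _, _, h1, h2, congrArg (fun m => prj (f m)) e, b4, fun t => ⟨_, rfl⟩, c2⟩
  have hnoc : Noc M := hNOC M f N H (R + a) h.w hnorm (by
    nlinarith [abs_nonneg H, mul_le_mul_of_nonneg_right hH (show 0 ≤ R + a by positivity)])
  have hG := hGOOD M f N H h.w _ hb hμ
  obtain ⟨d, w, hS, hD⟩ := hWEX _ (range f) (nu f N) isClosed_frontier (isCompact_range hf) hG.bd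
    hG.st ((ae_map_iff (hf.prodMk h.cont).measurable.aemeasurable
      (((isCompact_range hf).isClosed.preimage continuous_fst).measurableSet)).2
      (Eventually.of_forall fun m => mem_range_self m))
  have hDi := hTG _ _ d isClosed_frontier hG.bd hS.dloc hD
  obtain ⟨hd1, e, he, hed, he1, heb⟩ := hEPS M f N H h hnoc _ d w hΓc hb hS hDi hoff
    fun m hm => (hcon m hm).1
  have hed' : ∀ m ∈ Inn M, prj (f m) ∉ frontier K ∧ e m = d (prj (f m)) :=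
    fun m hm => ⟨hoff m hm, hed m hm⟩
  have hinj0 := hLY M f N H h _ hb hμ a θ e ha θ0 θ1 (fun p hp => by
      obtain ⟨q, h1, h2⟩ := hext p hp
      obtain ⟨m, -, em⟩ := bij_surj hb hp
      exact ⟨q, h1, (hB q m (em ▸ h1.le) h2).1⟩) he
    (fun m hm => ⟨he1 m, (heb m hm).self_of_nhds.1⟩)
    (hDBD M f N H h.w _ d e isClosed_frontier hS.dloc hDi hd1 hed') (by
      have h1 : θ ^ 2 * kI + θ ^ 2 / a * L = θ * (θ * (kI + L / a)) := by ring
      have h2 : θ * (θ * (kI + L / a)) ≤ 1 * (kI / 4) := by gcongr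
      have h3 : H ^ 2 ≤ η * 1 := by rw [← sq_abs, sq]; gcongr; exact hH.trans η2
      have h4 : H ^ 2 * (area f).real univ ≤ η * 1 * A := by gcongr
      rw [← hL, h1]; linarith)
  have hinj : Function.Injective f := fun m m' e => by
    by_cases hm' : m' ∈ Inn M
    · by_cases hm : m ∈ Inn M
      · exact hinj0 hm hm' e
      · exact (hfib m (hbd m hm) m' (by rw [e])).symm
    · exact hfib m' (hbd m' hm') m (by rw [e])
  have hpi := hSLIDE M f N H h.w hinj hnoc _ d w e isClosed_frontier hS hed' he1 hfib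
    (hSV3 M f N H h.w hinj hnoc _ d w e isClosed_frontier hS he hed' he1
      fun x hx => (heb x hx).mono fun m hm _ => hm)
  have hver := hVERT M f N H h.w hpi
  refine ⟨⟨fun m _ => hinK m, hpi.injOn, ?_⟩, fun m => ?_⟩
  · rw [SurjOn, image_univ]
    refine hSURJ K _ a hK (isCompact_range (cont_prj.comp hf)).isClosed ha (fun p hp => ?_)
      ?_ fun p hp => ?_
    · obtain ⟨m, -, em⟩ := bij_surj hb hp
      exact ⟨m, em⟩
    · rintro _ ⟨m, rfl⟩ hm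
      have hi : m ∈ Inn M := by_contra fun hi => hm (bij_mem hb (hbd m hi))
      obtain ⟨V, ρ, u, s, -, hg⟩ := hGPH M f N H h.w m hi (hver m hi) univ univ_mem
      exact mem_of_superset (ball_mem_nhds _ hg.pos)
        (hg.bij.surjOn.trans (image_subset_range _ _))
    · obtain ⟨m, hm, rfl⟩ := bij_surj hb hp
      exact (hcon m hm).2
  · by_cases hm : m ∈ Inn M
    exacts [hver m hm, (hcon m (hbd m hm)).1]

theorem t_CMP : S_CMP := p_CMP p_HOPF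

theorem graph_all {K : Set E2} (hK : IsCompact K) (hne : K.Nonempty)
    (hc : IsPreconnected Kᶜ) {a : ℝ} (ha : 0 < a)
    (hr : ∀ y ∉ K, ∃ q, dist y q < a ∧ Disjoint (ball q a) K) :
    ∃ V0 : ℝ, 0 < V0 ∧
      ∀ (M : Type) [TopologicalSpace M] [ChartedSpace (EuclideanHalfSpace 2) M]
      [IsManifold (𝓡∂ 2) ∞ M] [MeasurableSpace M] [BorelSpace M] [CompactSpace M] [T2Space M]
      (f N : M → E3) (H : ℝ), IsCMC1 f N H → BijOn f (Bdy M) (toP '' frontier K) →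
      algVol f N < V0 → (∀ m, ∃ y ∈ K, f m 0 = y 0 ∧ f m 1 = y 1) ∧
        (∀ y ∈ K, ∃! m, f m 0 = y 0 ∧ f m 1 = y 1) ∧ ∀ m, N m 2 ≠ 0 := by
  obtain ⟨V0, hV0, h⟩ := main t_DEG p_REC p_HF t_GOOD t_NU t_SML t_LOC (p_NOC p_MAXP)
    (p_BAR p_MAXP) p_BCON p_ALGB (p_WEX p_CHG) p_TG (p_DBD p_NUL t_NU)
    (p_EPS p_DLE p_BINJ (p_LDEG p_GPH t_NU t_INT)) p_KER
    (p_LY (p_STKP p_NUL p_SGN p_CRL t_SCH t_SB p_TV) p_BCON p_ALGB p_KER (p_DEN2 p_KER) t_NU)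
    p_GPH (p_SV3 p_GPH p_SV1) (p_SLIDE p_GPH (p_TOUCH t_CMP) p_SGNH p_SV1)
    (p_VERT p_GPH p_SGNH t_CMP) p_SURJ p_EXT hK hne hc ha hr
  refine ⟨V0, hV0, fun M _ _ _ _ _ _ _ f N H h1 h2 h3 => ?_⟩
  obtain ⟨hb, hv⟩ := h M f N H h1 h2 h3
  refine ⟨fun m => ⟨_, hb.mapsTo (mem_univ m), (prj_0 _).symm, (prj_1 _).symm⟩, fun y hy => ?_, hv⟩
  obtain ⟨m, -, e⟩ := hb.surjOn hy
  refine ⟨m, ⟨by rw [← e, prj_0], by rw [← e, prj_1]⟩, fun m' h' => ?_⟩
  exact hb.injOn (mem_univ _) (mem_univ _)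
    ((ext2 (by rw [prj_0, h'.1]) (by rw [prj_1, h'.2])).trans e.symm)

end Pool.Agent.P.MP_a07190_gt.Gr
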