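import Pool.Agent.P.MP_a07190_gt.Defs

open scoped Manifold ContDiff RealInnerProductSpace
open Set MeasureTheory

namespace Pool.Agent.P.MP_a07190_gt.Gr

/-- `f` is a `C¹` immersion of the surface with boundary `M` with continuous unit normal `N`; on the
interior of `M` the map `f` is `C²`, `N` is `C¹` and the mean curvature is the constant `H`. -/
structure IsCMC1 {M : Type*} [TopologicalSpace M] [ChartedSpace (EuclideanHalfSpace 2) M]
    (f N : M → E3) (H : ℝ) : Prop where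
  c1 : IsCn 1 f
  immersion : IsImmersed f
  cont : Continuous N
  unit : ∀ m, ‖N m‖ = 1
  perp : IsNormal f N
  c2 : ContMDiffOn (𝓡∂ 2) 𝓘(ℝ, E3) 2 f ((𝓡∂ 2).interior M)
  normal_c1 : ContMDiffOn (𝓡∂ 2) 𝓘(ℝ, E3) 1 N ((𝓡∂ 2).interior M)
  cmc : ∀ m ∈ (𝓡∂ 2).interior M, meanCurv f N m = H

end Pool.Agent.P.MP_a07190_gt.Gr
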