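import Pool.Agent.P.MP_a07190_gt.Wk.Iface
import Pool.Agent.P.MP_a07190_gt.Gr.Defs

/-!
Small volume surfaces of constant mean curvature are graphs: the steps of the proof.
-/

open scoped Manifold ContDiff RealInnerProductSpace Topology
open Set MeasureTheory Filter Metric

namespace Pool.Agent.P.MP_a07190_gt.Gr

open Wk

section surf

variable {M : Type*} [TopologicalSpace M] [ChartedSpace (EuclideanHalfSpace 2) M]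
  {f N : M → E3} {H : ℝ}

theorem IsCMC1.w (h : IsCMC1 f N H) : IsCMCw f N H :=
  ⟨h.c1, h.c2, fun m _ => h.immersion m, h.normal_c1, fun m _ => h.unit m, fun m _ => h.perp m,
    h.cmc⟩

variable [IsManifold (𝓡∂ 2) ∞ M]

theorem IsCMC1.perp_ch (h : IsCMC1 f N H) {x : M} {y : E2} (hy : y ∈ (ch x).target) (v : E2) :
    ⟪N ((ch x).symm y), chartDif f x y v⟫ = 0 := by
  rw [chartDif_eq h.c1 hy]; exact h.perp _ _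

theorem IsCMC1.inj_ch (h : IsCMC1 f N H) {x : M} {y : E2} (hy : y ∈ (ch x).target) :
    Function.Injective (chartDif f x y) := by
  rw [chartDif_eq h.c1 hy]
  exact (h.immersion _).comp (chA_inv hy).injective

theorem dif_iso_int (R : E3 ≃ₗᵢ[ℝ] E3) {g : M → E3}
    (hg : ContMDiffOn (𝓡∂ 2) 𝓘(ℝ, E3) 1 g (Inn M)) {m : M} (hm : m ∈ Inn M) (v : E2) :
    dif (R ∘ g) m v = R (dif g m v) := by
  have h1 : ContMDiffOn (𝓡∂ 2) 𝓘(ℝ, E3) 1 (R ∘ g) (Inn M) :=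
    R.contDiff.contMDiff.comp_contMDiffOn hg
  have := (hasFD_int h1 hm).unique ((R : E3 →L[ℝ] E3).hasFDerivAt.comp _ (hasFD_int hg hm))
  exact congrArg (fun L : E2 →L[ℝ] E3 => L v) this

theorem iso_w (h : IsCMCw f N H) (R : E3 ≃ₗᵢ[ℝ] E3) : IsCMCw (R ∘ f) (R ∘ N) H where
  c1 := smooth_iso R h.c1
  c2 := R.contDiff.contMDiff.comp_contMDiffOn h.c2
  immersion m hm u v e := by
    rw [dif_iso R h.c1, dif_iso R h.c1] at e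
    exact h.immersion m hm (R.injective e)
  normal_c1 := R.contDiff.contMDiff.comp_contMDiffOn h.normal_c1
  unit m hm := by rw [Function.comp_apply, R.norm_map, h.unit m hm]
  perp m hm v := by rw [dif_iso R h.c1, Function.comp_apply, R.inner_map_map, h.perp m hm]
  cmc m hm := by
    rw [← h.cmc m hm]
    simp only [meanCurv, form, col, dif_iso R h.c1, dif_iso_int R h.normal_c1 hm,
      R.inner_map_map]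

end surf

theorem exists_iso {n : E3} (hn : ‖n‖ = 1) : ∃ R : E3 ≃ₗᵢ[ℝ] E3, R n = e3 2 :=
  ⟨_, Submodule.reflection_sub (by simp [hn, e3])⟩

theorem prj_add (p q : E3) : prj (p + q) = prj p + prj q := ext2 (by simp) (by simp)

theorem prj_sub (p q : E3) : prj (p - q) = prj p - prj q := ext2 (by simp) (by simp)

theorem prj_smul (t : ℝ) (p : E3) : prj (t • p) = t • prj p := ext2 (by simp) (by simp)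

theorem ext3 {p q : E3} (h : prj p = prj q) (h2 : p 2 = q 2) : p = q := by
  ext i; fin_cases i
  · simpa using congrArg (fun u : E2 => u 0) h
  · simpa using congrArg (fun u : E2 => u 1) h
  · exact h2

theorem norm_prj_sq (p : E3) : ‖prj p‖ ^ 2 = p 0 ^ 2 + p 1 ^ 2 := by
  rw [EuclideanSpace.real_norm_sq_eq, Fin.sum_univ_two, prj_0, prj_1]

theorem norm_prj_le (p : E3) : ‖prj p‖ ≤ ‖p‖ := by
  refine (abs_le_of_sq_le_sq' ?_ (norm_nonneg _)).2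
  rw [norm_prj_sq, norm_sq3]
  nlinarith [sq_nonneg (p 2)]

/-- the projection as a linear map -/
noncomputable def prjL : E3 →L[ℝ] E2 :=
  LinearMap.toContinuousLinearMap ⟨⟨prj, prj_add⟩, prj_smul⟩

@[simp] theorem prjL_apply (p : E3) : prjL p = prj p := rfl

/-! ### Winding functions -/

/-- Stokes' formula away from `Γ` -/
def Sz (Γ : Set E2) (ν : Measure (E3 × E3)) : Prop :=
  ∀ φ : E3 → ℝ, ContDiff ℝ 1 φ → ∀ v : E3, (∀ q ∈ Γ, φ (toP q) = 0) → ∫ z, std φ v z ∂ν = 0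

/-- a step from `0` to `1` inside `[a, b]` -/
structure Stp (a b : ℝ) (S S' : ℝ → ℝ) : Prop where
  c1 : C1 S S'
  c2 : ∃ S'', C1 S' S''
  zero : ∀ t ≤ a, S t = 0
  one : ∀ t, b ≤ t → S t = 1
  dz : ∀ t, t ∉ Icc a b → S' t = 0

/-- `d y` is the degree over `y`, computed with product test functions -/
def Dfor (Γ : Set E2) (ν : Measure (E3 × E3)) (d : E2 → ℝ) : Prop :=
  ∀ (y : E2) (ρ : ℝ), 0 < ρ → (∀ q ∈ Γ, ρ < |q 0 - y 0| ∨ ρ < |q 1 - y 1|) →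
    ∀ A A' B B' : ℝ → ℝ, Stp (y 0 - ρ) (y 0 + ρ) A A' → Stp (y 1 - ρ) (y 1 + ρ) B B' →
    ∫ z, A' (z.1 0) * B' (z.1 1) * z.2 2 ∂ν = d y

/-- the function `w` is constant near the points off `S` that do not lie over `Γ`, it is `0` above
`S` and `d` below -/
structure Side (Γ : Set E2) (S : Set E3) (d : E2 → ℝ) (w : E3 → ℝ) : Prop where
  dloc : ∀ y ∉ Γ, ∀ᶠ y' in 𝓝 y, d y' = d y
  wloc : ∀ Y ∉ S, prj Y ∉ Γ → ∀ᶠ Y' in 𝓝 Y, w Y' = w Y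
  wup : ∀ Y, prj Y ∉ Γ → (∀ t : ℝ, 0 ≤ t → Y + t • e3 2 ∉ S) → w Y = 0
  wdn : ∀ Y, prj Y ∉ Γ → (∀ t : ℝ, 0 ≤ t → Y - t • e3 2 ∉ S) → w Y = d (prj Y)

/-- the degree formula -/
def Dint (Γ : Set E2) (ν : Measure (E3 × E3)) (d : E2 → ℝ) : Prop :=
  ∀ G : E2 → ℝ, Continuous G → HasCompactSupport G → tsupport G ⊆ Γᶜ →
    ∫ z, G (prj z.1) * z.2 2 ∂ν = ∫ y, G y * d y

/-- the value of `w` on the side `σ N` of the surface at `m` -/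
def SideVal {M : Type*} (w : E3 → ℝ) (f N : M → E3) (m : M) (σ c : ℝ) : Prop :=
  ∀ᶠ t : ℝ in 𝓝[>] 0, w (f m + (σ * t) • N m) = c

/-- the total mass of the kernel -/
noncomputable def kI : ℝ := ∫ u : E2, 2 / (‖u‖ ^ 2 + 1) ^ 2

/-! ### Graphs -/

/-- first derivatives -/
noncomputable def d1 (u : E2 → ℝ) (y : E2) (i : Fin 2) : ℝ := fderiv ℝ u y (ev i)

/-- second derivatives -/
noncomputable def d2 (u : E2 → ℝ) (y : E2) (i j : Fin 2) : ℝ :=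
  fderiv ℝ (fderiv ℝ u) y (ev i) (ev j)

/-- the equation of graphs of constant mean curvature `c` -/
def Pde (c : ℝ) (u : E2 → ℝ) (y : E2) : Prop :=
  (1 + d1 u y 1 ^ 2) * d2 u y 0 0 - 2 * (d1 u y 0 * d1 u y 1) * d2 u y 0 1
    + (1 + d1 u y 0 ^ 2) * d2 u y 1 1 = 2 * c * √(1 + d1 u y 0 ^ 2 + d1 u y 1 ^ 2) ^ 3

/-- near `m` the surface is the graph of `u` over a disc -/
structure Gph {M : Type*} [TopologicalSpace M] [ChartedSpace (EuclideanHalfSpace 2) M]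
    (f N : M → E3) (H : ℝ) (m : M) (V : Set M) (ρ : ℝ) (u : E2 → ℝ) (s : ℝ) : Prop where
  op : IsOpen V
  mem : m ∈ V
  sub : V ⊆ Inn M
  pos : 0 < ρ
  abs : |s| = 1
  c2 : ContDiffOn ℝ 2 u (ball (prj (f m)) ρ)
  bij : BijOn (fun m' => prj (f m')) V (ball (prj (f m)) ρ)
  ht : ∀ m' ∈ V, f m' 2 = u (prj (f m'))
  nrm : ∀ m' ∈ V, 0 < s * N m' 2 ∧ N m' 0 = -(d1 u (prj (f m')) 0) * N m' 2 ∧
    N m' 1 = -(d1 u (prj (f m')) 1) * N m' 2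
  pde : ∀ y ∈ ball (prj (f m)) ρ, Pde (s * H) u y

/-- no closed component -/
def Noc (M : Type*) [TopologicalSpace M] [ChartedSpace (EuclideanHalfSpace 2) M] : Prop :=
  ∀ A : Set M, IsClopen A → A ⊆ Inn M → A = ∅

/-! ### Statements: maximum principle and barriers -/

def S_MAXP : Prop := ∀ (M : Type) [TopologicalSpace M] [ChartedSpace (EuclideanHalfSpace 2) M]
  [IsManifold (𝓡∂ 2) ∞ M] (f N : M → E3) (H : ℝ), IsCMCw f N H → ∀ m ∈ Inn M,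
  ∀ (φ : E3 → ℝ) (G : E3 → E3) (G' : E3 →L[ℝ] E3),
  (∀ᶠ p in 𝓝 (f m), HasFDerivAt φ (innerSL ℝ (G p)) p) → HasFDerivAt G G' (f m) →
  IsLocalMax (fun m' => φ (f m')) m → ∃ l : ℝ, G (f m) = l • N m ∧
    G' (e3 0) 0 + G' (e3 1) 1 + G' (e3 2) 2 - ⟪G' (N m), N m⟫ + 2 * H * l ≤ 0

def S_NOC : Prop := ∀ (M : Type) [TopologicalSpace M] [ChartedSpace (EuclideanHalfSpace 2) M]
  [IsManifold (𝓡∂ 2) ∞ M] [CompactSpace M] (f N : M → E3) (H R : ℝ), IsCMCw f N H →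
  (∀ m, ‖f m‖ ≤ R) → |H| * R < 1 → Noc M

def S_BAR : Prop := ∀ a D θ : ℝ, 0 < a → 0 < θ → θ ≤ 1 → ∃ h0 : ℝ, 0 < h0 ∧
  ∀ (M : Type) [TopologicalSpace M] [ChartedSpace (EuclideanHalfSpace 2) M]
  [IsManifold (𝓡∂ 2) ∞ M] [CompactSpace M] (f N : M → E3) (H : ℝ) (q : E2), IsCMCw f N H →
  |H| ≤ h0 → (∀ m, a / 2 ≤ dist (prj (f m)) q ∧ dist (prj (f m)) q ≤ D) →
  (∀ m ∈ Bdy M, f m 2 = 0 ∧ a ≤ dist (prj (f m)) q) →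
  (∀ m, |f m 2| ≤ θ * (dist (prj (f m)) q - a)) ∧ ∀ m ∈ Inn M, a < dist (prj (f m)) q

def S_BCON : Prop := ∀ (M : Type) [TopologicalSpace M] [ChartedSpace (EuclideanHalfSpace 2) M]
  [IsManifold (𝓡∂ 2) ∞ M] (f : M → E3), ContMDiff (𝓡∂ 2) 𝓘(ℝ, E3) 1 f →
  ∀ (x : M) (v : ℝ) (q : E2) (a θ : ℝ), v ∈ Vb x → 0 < a → 0 < θ →
  dist (prj (f (gam x v))) q = a → (∀ m, |f m 2| ≤ θ * (dist (prj (f m)) q - a)) →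
  (∀ m ∈ Bdy M, f m 2 = 0) →
  tau f x v 2 = 0 ∧ ⟪prj (tau f x v), q - prj (f (gam x v))⟫ = 0 ∧
  a * |chartDif f x (pt (0, v)) (ev 0) 2|
    ≤ θ * -⟪prj (chartDif f x (pt (0, v)) (ev 0)), q - prj (f (gam x v))⟫ ∧
  HasDerivWithinAt (fun t : ℝ => prj (f ((ch x).symm (pt (t, v)))))
    (prj (chartDif f x (pt (0, v)) (ev 0))) (Ici 0) 0

def S_ALGB : Prop := ∀ (L : E2 →L[ℝ] E3) (n : E3) (p q : E2) (a θ : ℝ),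
  Function.Injective L → ‖n‖ = 1 → (∀ u, ⟪n, L u⟫ = 0) → 0 < a → 0 < θ → θ ≤ 1 → dist p q = a →
  L (ev 1) 2 = 0 → ⟪prj (L (ev 1)), q - p⟫ = 0 →
  a * |L (ev 0) 2| ≤ θ * -⟪prj (L (ev 0)), q - p⟫ →
  n 2 ≠ 0 ∧ ⟪prj (L (ev 0)), q - p⟫ < 0 ∧
  ∀ (ε s D : ℝ) (Q : E3), |ε| = 1 → 0 < ε * den L n → |s| = 1 → 0 < s * n 2 → 0 < D →
    ‖toP p - Q‖ ^ 2 ≤ D → |Q 2| ≤ θ * (dist (prj Q) q - a) →
    -ε * ⟪crossR (D⁻¹ • (toP p - Q)) n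
      - ((1 + θ ^ 2) * s) • crossR (D⁻¹ • (toP p - Q)) (e3 2), L (ev 1)⟫
      ≤ θ ^ 2 / a * ‖L (ev 1)‖

def S_STKP : Prop := ∀ (M : Type) [TopologicalSpace M] [ChartedSpace (EuclideanHalfSpace 2) M]
  [IsManifold (𝓡∂ 2) ∞ M] [MeasurableSpace M] [BorelSpace M] [CompactSpace M] [T2Space M]
  (f N : M → E3) (H : ℝ), IsCMC1 f N H → ∀ Γ : Set E2, BijOn f (Bdy M) (toP '' Γ) →
  μH[1] Γ ≠ ⊤ → ∀ (φ ψ : Fin 3 → E3 → ℝ) (e : M → ℝ) (c : ℝ), (∀ i, ContDiff ℝ 1 (φ i)) →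
  (∀ i, ContDiff ℝ 1 (ψ i)) → IsLocallyConstant e → 0 ≤ c →
  (∀ (x : M) (v ε : ℝ), v ∈ Vb x → |ε| = 1 →
    0 < ε * den (chartDif f x (pt (0, v))) (N (gam x v)) →
    -ε * ⟪∑ i, φ i (f (gam x v)) • crossR (e3 i) (N (gam x v))
      + e (gam x v) • ∑ i, ψ i (f (gam x v)) • e3 i, tau f x v⟫ ≤ c * ‖tau f x v‖) →
  ∫ m, (∑ i, fvd H (φ i) (e3 i) (f m, N m) + e m * ∑ i, std (ψ i) (e3 i) (f m, N m)) ∂(area f)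
    ≤ c * (2 * (μH[1] Γ).toReal)

/-! ### Statements: winding functions -/

def S_CHG : Prop := ∀ (Γ : Set E2) (S : Set E3) (ν : Measure (E3 × E3)), Bd ν → Sz Γ ν →
  (∀ᵐ z ∂ν, z.1 ∈ S) → ∀ a0 b0 a1 b1 a2 b2 : ℝ,
  (∀ q ∈ Γ, ¬(q 0 ∈ Icc a0 b0 ∧ q 1 ∈ Icc a1 b1)) →
  (∀ p ∈ S, ¬(p 0 ∈ Icc a0 b0 ∧ p 1 ∈ Icc a1 b1 ∧ p 2 ∈ Icc a2 b2)) →
  ∀ A A' B B' C C' A1 A1' B1 B1' C1 C1' : ℝ → ℝ, Stp a0 b0 A A' → Stp a1 b1 B B' →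
  Stp a2 b2 C C' → Stp a0 b0 A1 A1' → Stp a1 b1 B1 B1' → Stp a2 b2 C1 C1' →
  ∫ z, A' (z.1 0) * B' (z.1 1) * C (z.1 2) * z.2 2 ∂ν
    = ∫ z, A1' (z.1 0) * B1' (z.1 1) * C1 (z.1 2) * z.2 2 ∂ν

def S_WEX : Prop := ∀ (Γ : Set E2) (S : Set E3) (ν : Measure (E3 × E3)), IsClosed Γ →
  IsCompact S → Bd ν → Sz Γ ν → (∀ᵐ z ∂ν, z.1 ∈ S) → ∃ d w, Side Γ S d w ∧ Dfor Γ ν d

def S_TG : Prop := ∀ (Γ : Set E2) (ν : Measure (E3 × E3)) (d : E2 → ℝ), IsClosed Γ → Bd ν →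
  (∀ y ∉ Γ, ∀ᶠ y' in 𝓝 y, d y' = d y) → Dfor Γ ν d → Dint Γ ν d

def S_DLE : Prop := ∀ (Γ T : Set E2) (d : E2 → ℝ), IsCompact Γ → IsCompact T →
  (∀ y ∉ Γ, ∀ᶠ y' in 𝓝 y, d y' = d y) → (∀ y ∉ Γ, y ∉ T → d y = 0) →
  (∀ p ∈ Γ, ∀ᶠ y in 𝓝 p, y ∉ Γ → |d y| ≤ 1) → ∀ y ∉ Γ, |d y| ≤ 1

def S_BINJ : Prop := ∀ (M : Type) [TopologicalSpace M] [ChartedSpace (EuclideanHalfSpace 2) M]
  [IsManifold (𝓡∂ 2) ∞ M] [CompactSpace M] (f N : M → E3) (H : ℝ), IsCMC1 f N H → ∀ x : M,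
  N x 2 ≠ 0 → (∀ m, prj (f m) = prj (f x) → m = x) → ∃ U : Set E2, IsOpen U ∧ prj (f x) ∈ U ∧
  InjOn (fun m => prj (f m)) {m | prj (f m) ∈ U} ∧ ∀ m, prj (f m) ∈ U → 0 < N m 2 * N x 2

def S_LDEG : Prop := ∀ (M : Type) [TopologicalSpace M] [ChartedSpace (EuclideanHalfSpace 2) M]
  [IsManifold (𝓡∂ 2) ∞ M] [MeasurableSpace M] [BorelSpace M] [CompactSpace M] [T2Space M]
  (f N : M → E3) (H : ℝ), IsCMCw f N H → ∀ (Γ : Set E2) (d : E2 → ℝ), IsClosed Γ →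
  (∀ y ∉ Γ, ∀ᶠ y' in 𝓝 y, d y' = d y) → Dint Γ (nu f N) d → ∀ m ∈ Inn M, prj (f m) ∉ Γ →
  ∀ s : ℝ, |s| = 1 → 0 < s * N m 2 → ∀ U : Set E2, U ∈ 𝓝 (prj (f m)) →
  InjOn (fun m => prj (f m)) {m | prj (f m) ∈ U} → d (prj (f m)) = s

def S_DBD : Prop := ∀ (M : Type) [TopologicalSpace M] [ChartedSpace (EuclideanHalfSpace 2) M]
  [IsManifold (𝓡∂ 2) ∞ M] [MeasurableSpace M] [BorelSpace M] [CompactSpace M] [T2Space M]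
  (f N : M → E3) (H : ℝ), IsCMCw f N H → ∀ (Γ : Set E2) (d : E2 → ℝ) (e : M → ℝ), IsClosed Γ →
  (∀ y ∉ Γ, ∀ᶠ y' in 𝓝 y, d y' = d y) → Dint Γ (nu f N) d → (∀ y ∉ Γ, |d y| ≤ 1) →
  (∀ m ∈ Inn M, prj (f m) ∉ Γ ∧ e m = d (prj (f m))) →
  ∀ g : E2 → ℝ, Continuous g → Integrable g → (∀ y, 0 ≤ g y) →
  ∫ m, e m * (g (prj (f m)) * N m 2) ∂(area f) ≤ ∫ y, g y

def S_EPS : Prop := ∀ (M : Type) [TopologicalSpace M] [ChartedSpace (EuclideanHalfSpace 2) M]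
  [IsManifold (𝓡∂ 2) ∞ M] [MeasurableSpace M] [BorelSpace M] [CompactSpace M] [T2Space M]
  (f N : M → E3) (H : ℝ), IsCMC1 f N H → Noc M → ∀ (Γ : Set E2) (d : E2 → ℝ) (w : E3 → ℝ),
  IsCompact Γ → BijOn f (Bdy M) (toP '' Γ) → Side Γ (range f) d w → Dint Γ (nu f N) d →
  (∀ m ∈ Inn M, prj (f m) ∉ Γ) → (∀ m ∈ Bdy M, N m 2 ≠ 0) →
  (∀ y ∉ Γ, |d y| ≤ 1) ∧ ∃ e : M → ℝ, IsLocallyConstant e ∧ (∀ m ∈ Inn M, e m = d (prj (f m))) ∧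
    (∀ m, |e m| = 1) ∧ ∀ x ∈ Bdy M, ∀ᶠ m in 𝓝 x,
      0 < e m * N m 2 ∧ ∀ m', prj (f m') = prj (f m) → m' = m

/-! ### Statements: no double points -/

def S_KER : Prop := 0 < kI ∧ ∀ (y : E2) (s : ℝ), 0 < s →
  Integrable (fun u : E2 => 2 * s ^ 2 / (‖u - y‖ ^ 2 + s ^ 2) ^ 2) ∧
    ∫ u : E2, 2 * s ^ 2 / (‖u - y‖ ^ 2 + s ^ 2) ^ 2 = kI

def S_DEN2 : Prop := ∀ (M : Type) [TopologicalSpace M] [ChartedSpace (EuclideanHalfSpace 2) M]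
  [IsManifold (𝓡∂ 2) ∞ M] [MeasurableSpace M] [BorelSpace M] [CompactSpace M] [T2Space M]
  (f : M → E3), ContMDiff (𝓡∂ 2) 𝓘(ℝ, E3) 1 f → ∀ m ∈ Inn M, Function.Injective (dif f m) →
  ∀ V : Set M, IsOpen V → m ∈ V → ∀ᶠ σ : ℝ in 𝓝[>] 0,
    3 / 4 * kI ≤ ∫ m' in V, 2 * σ ^ 2 / (‖f m' - f m‖ ^ 2 + σ ^ 2) ^ 2 ∂(area f)

def S_LY : Prop := ∀ (M : Type) [TopologicalSpace M] [ChartedSpace (EuclideanHalfSpace 2) M]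
  [IsManifold (𝓡∂ 2) ∞ M] [MeasurableSpace M] [BorelSpace M] [CompactSpace M] [T2Space M]
  (f N : M → E3) (H : ℝ), IsCMC1 f N H → ∀ Γ : Set E2, BijOn f (Bdy M) (toP '' Γ) →
  μH[1] Γ ≠ ⊤ → ∀ (a θ : ℝ) (e : M → ℝ), 0 < a → 0 < θ → θ ≤ 1 →
  (∀ p ∈ Γ, ∃ q, dist p q = a ∧ ∀ m, |f m 2| ≤ θ * (dist (prj (f m)) q - a)) →
  IsLocallyConstant e → (∀ m ∈ Bdy M, |e m| = 1 ∧ 0 < e m * N m 2) →
  (∀ g : E2 → ℝ, Continuous g → Integrable g → (∀ y, 0 ≤ g y) →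
    ∫ m, e m * (g (prj (f m)) * N m 2) ∂(area f) ≤ ∫ y, g y) →
  θ ^ 2 * kI + θ ^ 2 / a * (2 * (μH[1] Γ).toReal) + H ^ 2 / 2 * (area f).real univ < kI / 2 →
  InjOn f (Inn M)

/-! ### Statements: graphs and sliding -/

def S_GPH : Prop := ∀ (M : Type) [TopologicalSpace M] [ChartedSpace (EuclideanHalfSpace 2) M]
  [IsManifold (𝓡∂ 2) ∞ M] (f N : M → E3) (H : ℝ), IsCMCw f N H → ∀ m ∈ Inn M, N m 2 ≠ 0 →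
  ∀ V0 ∈ 𝓝 m, ∃ V ρ u s, V ⊆ V0 ∧ Gph f N H m V ρ u s

def S_HOPF : Prop := ∀ (Λ C r ρ : ℝ) (c x : E2), 0 < r → r < ρ → dist x c < ρ →
  ∃ κ : ℝ, 0 < κ ∧ ∀ (h a0 a1 a2 : E2 → ℝ) (μ : ℝ), 0 ≤ μ →
  (∀ y ∈ closedBall c ρ, ContDiffAt ℝ 2 h y ∧ 0 ≤ h y ∧
    (∀ ξ η : ℝ, ξ ^ 2 + η ^ 2 ≤ a0 y * ξ ^ 2 + 2 * a1 y * (ξ * η) + a2 y * η ^ 2) ∧
    a0 y + a2 y ≤ Λ ∧
    a0 y * d2 h y 0 0 + 2 * a1 y * d2 h y 0 1 + a2 y * d2 h y 1 1 ≤ C * ‖fderiv ℝ h y‖) →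
  (∀ y ∈ closedBall c r, μ ≤ h y) → κ * μ ≤ h x

def S_CMP : Prop := ∀ (P H r ρ : ℝ) (c x : E2), 0 < r → r < ρ → dist x c < ρ →
  ∃ κ : ℝ, 0 < κ ∧ ∀ (u1 u2 : E2 → ℝ) (μ : ℝ), 0 ≤ μ →
  (∀ y ∈ closedBall c ρ, ContDiffAt ℝ 2 u1 y ∧ ContDiffAt ℝ 2 u2 y ∧ Pde H u1 y ∧ Pde H u2 y ∧
    u1 y ≤ u2 y ∧ (∀ i, |d1 u1 y i| ≤ P ∧ |d1 u2 y i| ≤ P) ∧ ∀ i j, |d2 u1 y i j| ≤ P) →
  (∀ y ∈ closedBall c r, μ ≤ u2 y - u1 y) → κ * μ ≤ u2 x - u1 x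

def S_TOUCH : Prop := ∀ (H : ℝ) (u1 u2 : E2 → ℝ) (y0 : E2),
  (∀ᶠ y in 𝓝 y0, ContDiffAt ℝ 2 u1 y ∧ ContDiffAt ℝ 2 u2 y ∧ Pde H u1 y ∧ Pde H u2 y ∧
    u1 y ≤ u2 y) → u1 y0 = u2 y0 → ∀ᶠ y in 𝓝 y0, u1 y = u2 y

def S_SGNH : Prop := ∀ (u1 u2 : E2 → ℝ) (y1 y2 e : E2) (ρ1 ρ2 k t0 : ℝ), 0 < ρ1 → 0 < ρ2 →
  ContinuousOn u1 (ball y1 ρ1) → ContinuousOn u2 (ball y2 ρ2) → y1 = y2 + t0 • e →
  (∀ t : ℝ, t0 < t → ∀ y ∈ ball y1 ρ1, y - t • e ∈ ball y2 ρ2 → u1 y ≠ u2 (y - t • e) + t * k) →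
  ∃ σ δ : ℝ, |σ| = 1 ∧ 0 < δ ∧ ∀ y ∈ ball y1 δ, ∀ t ∈ Ico t0 (t0 + δ),
    y ∈ ball y1 ρ1 ∧ y - t • e ∈ ball y2 ρ2 ∧ 0 ≤ σ * (u1 y - u2 (y - t • e) - t * k) ∧
      (t0 < t → 0 < σ * (u1 y - u2 (y - t • e) - t * k))

def S_SV1 : Prop := ∀ (M : Type) [TopologicalSpace M] [ChartedSpace (EuclideanHalfSpace 2) M]
  (f N : M → E3) (H : ℝ) (m : M) (V : Set M) (ρ : ℝ) (u : E2 → ℝ) (s : ℝ), Continuous f →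
  Gph f N H m V ρ u s → ∀ (w : E3 → ℝ),
  (∀ᶠ Y in 𝓝 (f m), Y ∉ f '' V → ∀ᶠ Y' in 𝓝 Y, w Y' = w Y) →
  ∃ cp cm : ℝ, (∀ᶠ Y in 𝓝 (f m), (u (prj Y) < Y 2 → w Y = cp) ∧ (Y 2 < u (prj Y) → w Y = cm)) ∧
    ∀ᶠ m' in 𝓝 m, SideVal w f N m' s cp ∧ SideVal w f N m' (-s) cm

def S_SV3 : Prop := ∀ (M : Type) [TopologicalSpace M] [ChartedSpace (EuclideanHalfSpace 2) M]
  [IsManifold (𝓡∂ 2) ∞ M] [CompactSpace M] [T2Space M] (f N : M → E3) (H : ℝ), IsCMCw f N H →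
  Function.Injective f → Noc M → ∀ (Γ : Set E2) (d : E2 → ℝ) (w : E3 → ℝ) (e : M → ℝ),
  IsClosed Γ → Side Γ (range f) d w → IsLocallyConstant e →
  (∀ m ∈ Inn M, prj (f m) ∉ Γ ∧ e m = d (prj (f m))) → (∀ m, |e m| = 1) →
  (∀ x ∈ Bdy M, ∀ᶠ m in 𝓝 x, m ∈ Inn M →
    0 < e m * N m 2 ∧ ∀ m', prj (f m') = prj (f m) → m' = m) →
  ∀ m ∈ Inn M, SideVal w f N m (e m) 0 ∧ SideVal w f N m (-e m) (e m)

def S_SLIDE : Prop := ∀ (M : Type) [TopologicalSpace M] [ChartedSpace (EuclideanHalfSpace 2) M]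
  [IsManifold (𝓡∂ 2) ∞ M] [CompactSpace M] [T2Space M] (f N : M → E3) (H : ℝ), IsCMCw f N H →
  Function.Injective f → Noc M → ∀ (Γ : Set E2) (d : E2 → ℝ) (w : E3 → ℝ) (e : M → ℝ),
  IsClosed Γ → Side Γ (range f) d w →
  (∀ m ∈ Inn M, prj (f m) ∉ Γ ∧ e m = d (prj (f m))) → (∀ m, |e m| = 1) →
  (∀ x ∈ Bdy M, ∀ m, prj (f m) = prj (f x) → m = x) →
  (∀ m ∈ Inn M, SideVal w f N m (e m) 0 ∧ SideVal w f N m (-e m) (e m)) →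
  Function.Injective fun m => prj (f m)

def S_VERT : Prop := ∀ (M : Type) [TopologicalSpace M] [ChartedSpace (EuclideanHalfSpace 2) M]
  [IsManifold (𝓡∂ 2) ∞ M] (f N : M → E3) (H : ℝ), IsCMCw f N H →
  (Function.Injective fun m => prj (f m)) → ∀ m ∈ Inn M, N m 2 ≠ 0

def S_SURJ : Prop := ∀ (K T : Set E2) (a : ℝ), IsCompact K → IsClosed T → 0 < a →
  frontier K ⊆ T → (∀ y ∈ T, y ∉ frontier K → T ∈ 𝓝 y) →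
  (∀ p ∈ frontier K, ∃ (q u : E2) (c : ℝ → E2), dist p q = a ∧ (∀ x ∈ K, a ≤ dist x q) ∧
    c 0 = p ∧ HasDerivWithinAt c u (Ici 0) 0 ∧ (∀ t, c t ∈ T) ∧ ⟪u, q - p⟫ < 0) → K ⊆ T

def S_EXT : Prop := ∀ (K : Set E2) (a : ℝ), IsClosed K → 0 < a →
  (∀ y ∉ K, ∃ q, dist y q < a ∧ Disjoint (ball q a) K) →
  ∀ p ∈ frontier K, ∃ q, dist p q = a ∧ ∀ x ∈ K, a ≤ dist x q

end Pool.Agent.P.MP_a07190_gt.Gr
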